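import Pool.Agent.Helper13.SZ.Local

/-!
# The uniform arc lemma
-/

namespace Pool.Agent.Helper13.SZ

open Polynomial Complex Finset

theorem coeff_mul_ca (A : ℤ[X]) (m n : ℕ) :
    ((X ^ m - 1) * A).coeff n = ca A ((n : ℤ) - m) - ca A n := by
  rw [sub_mul, one_mul, coeff_sub, coeff_X_pow_mul', ca_nat]
  congr 1
  split_ifs with h
  · rw [← Nat.cast_sub h, ca_nat]
  · rw [ca, if_neg (by omega)]

theorem arc_sparse (H : ℕ) {α β : ℝ} (hαβ : α < β) : ∃ (m : ℕ) (κ : ℝ), 0 < m ∧ 0 ≤ κ ∧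
    ∀ A : ℤ[X], (∀ n, |A.coeff n| ≤ H) → (((X ^ m - 1) * A).support.card : ℝ) ≤
      κ * ∫ θ in α..β, ‖aeval (Complex.exp ((θ : ℂ) * I)) A‖ ^ 2 := by
  have hpi := Real.pi_pos
  set ρ : ℝ := min ((β - α) / 2) 1 with hρ
  have hρ0 : 0 < ρ := lt_min (by linarith) one_pos
  have hρ1 : ρ ≤ 1 := min_le_right _ _
  have hρ2 : ρ ≤ (β - α) / 2 := min_le_left _ _
  set δ : ℝ := 1 / (24 * ((H : ℝ) + 1)) with hδ
  have hδ0 : 0 < δ := by positivity
  obtain ⟨w, C, hw, hsupp, h0, hneg, hpos⟩ := window hρ0 hρ1 hδ0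
  obtain ⟨W, hW⟩ := (isCompact_Icc (a := -Real.pi) (b := Real.pi)).exists_bound_of_continuousOn
    hw.continuousOn
  set N : ℕ := max 1 ⌈8 * (H * C)⌉₊ with hN
  have hN1 : 1 ≤ N := le_max_left _ _
  have hN0 : (0 : ℝ) < N := by exact_mod_cast hN1
  have hNC : H * C / N ≤ 1 / 8 := by
    rw [div_le_iff₀ hN0]
    have h1 : 8 * (H * C) ≤ N := (Nat.le_ceil _).trans (by exact_mod_cast le_max_right _ _)
    linarith
  have hδH : 3 * (H * δ) ≤ 1 / 8 := by
    rw [hδ]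
    have h1 : 3 * ((H : ℝ) * (1 / (24 * ((H : ℝ) + 1)))) = (1 / 8) * (H / (H + 1)) := by
      field_simp
      ring
    rw [h1]
    have h2 : (H : ℝ) / (H + 1) ≤ 1 := by
      rw [div_le_one (by positivity)]
      linarith
    linarith
  set P : ℕ := (2 * H + 1) ^ N with hP
  set m : ℕ := P.factorial with hm
  have hm0 : 0 < m := Nat.factorial_pos _
  refine ⟨m, 64 * (2 * Real.pi)⁻¹ * W ^ 2 * ((m + P + 1 : ℕ) : ℝ), hm0, by positivity, ?_⟩
  intro A hA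
  set c : ℝ := (α + β) / 2 with hc
  set D : ℤ[X] := (X ^ m - 1) * A with hD
  set E : ℝ := ∫ θ in α..β, ‖aeval (Complex.exp ((θ : ℂ) * I)) A‖ ^ 2 with hE
  classical
  set T : Finset ℤ := (Icc (-((m : ℤ) + P)) D.natDegree).filter
    (fun t => 1 / 8 ≤ ‖fc (FF A c w) t‖) with hT
  have hTcard : (T.card : ℝ) * (1 / 64) ≤ (2 * Real.pi)⁻¹ * (W ^ 2 * E) := by
    calc (T.card : ℝ) * (1 / 64) = ∑ _t ∈ T, (1 / 64 : ℝ) := by rw [sum_const, nsmul_eq_mul]
      _ ≤ ∑ t ∈ T, ‖fc (FF A c w) t‖ ^ 2 := by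
          refine sum_le_sum fun t ht => ?_
          have h1 : 1 / 8 ≤ ‖fc (FF A c w) t‖ := (mem_filter.1 ht).2
          have h2 : (1 / 8 : ℝ) ^ 2 ≤ ‖fc (FF A c w) t‖ ^ 2 := by gcongr
          norm_num at h2 ⊢
          exact h2
      _ ≤ (2 * Real.pi)⁻¹ * ∫ x in (-Real.pi)..Real.pi, ‖FF A c w x‖ ^ 2 :=
          bessel (FF_cont A c hw) T
      _ ≤ _ := by
          gcongr
          exact energy_le hw hρ0 hρ1 hρ2 hsupp hW A
  have hcover : D.support.image (fun n : ℕ => (n : ℤ)) ⊆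
      T.biUnion (fun t => Icc t (t + ((m : ℤ) + P))) := by
    intro z hz
    rw [mem_image] at hz
    obtain ⟨n, hn, rfl⟩ := hz
    rw [mem_support_iff, hD, coeff_mul_ca] at hn
    have hne : ca A ((n : ℤ) - m) ≠ ca A n := fun h => hn (by rw [h, sub_self])
    have hbad : ¬ ∀ t : ℤ, (n : ℤ) - m - P ≤ t → t ≤ n → ‖fc (FF A c w) t‖ < 1 / 8 := by
      intro hall
      exact hne (pigeon (a := ca A) (H := H) (N := N) (good := fun t => ‖fc (FF A c w) t‖ < 1 / 8)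
        (ca_bound hA) (fun s s' hs hs' hp =>
          determined hw c h0 hneg hpos hA hN1 hδH hNC s s' hs hs' hp) hP hm hall)
    push Not at hbad
    obtain ⟨t, ht1, ht2, ht3⟩ := hbad
    have hnd : n ≤ D.natDegree := by
      refine le_natDegree_of_ne_zero ?_
      rw [hD, coeff_mul_ca]
      exact hn
    rw [mem_biUnion]
    refine ⟨t, ?_, ?_⟩
    · rw [hT, mem_filter, mem_Icc]
      refine ⟨⟨?_, ?_⟩, ht3⟩
      · omega
      · omega
    · rw [mem_Icc]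
      omega
  have hcard : D.support.card ≤ T.card * (m + P + 1) := by
    have h1 : (D.support.image (fun n : ℕ => (n : ℤ))).card = D.support.card :=
      card_image_of_injective _ Nat.cast_injective
    rw [← h1]
    refine (card_le_card hcover).trans ?_
    refine card_biUnion_le_card_mul _ _ _ fun t _ => ?_
    rw [Int.card_Icc]
    omega
  have hcardR : (D.support.card : ℝ) ≤ (T.card : ℝ) * ((m + P + 1 : ℕ) : ℝ) := by
    exact_mod_cast hcard
  calc (D.support.card : ℝ) ≤ (T.card : ℝ) * ((m + P + 1 : ℕ) : ℝ) := hcardR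
    _ = 64 * ((T.card : ℝ) * (1 / 64)) * ((m + P + 1 : ℕ) : ℝ) := by ring
    _ ≤ 64 * ((2 * Real.pi)⁻¹ * (W ^ 2 * E)) * ((m + P + 1 : ℕ) : ℝ) := by gcongr
    _ = _ := by ring

end Pool.Agent.Helper13.SZ
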