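import Pool.Agent.Helper13.SZ.Trunc
import Pool.Agent.Helper13.SZ.Sparse

/-!
# The uniform arc lemma, uniformly integrable form
-/

namespace Pool.Agent.Helper13.SZ

open Polynomial Complex Finset MeasureTheory

/-- Let `H` be a height and `l` the length of an arc.  There are `m ≥ 1`, `κ` and `ε > 0` such that
every integer polynomial `A` of height at most `H` which on some arc of length `l` is bounded by `T`
up to an `L¹` part at most `ε` has the property that `(X ^ m - 1) A` has at most `κ T ^ 2` nonzero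
coefficients. -/
theorem arc_uniform (H : ℕ) {l : ℝ} (hl : 0 < l) : ∃ (m : ℕ) (κ ε : ℝ), 0 < m ∧ 0 ≤ κ ∧ 0 < ε ∧
    ∀ A : ℤ[X], (∀ n, |A.coeff n| ≤ H) → ∀ α T : ℝ, 0 < T →
      ∫ θ in α..(α + l), max (‖aeval (Complex.exp ((θ : ℂ) * I)) A‖ - T) 0 ≤ ε →
      (((X ^ m - 1) * A).support.card : ℝ) ≤ κ * T ^ 2 := by
  have hpi := Real.pi_pos
  set ρ : ℝ := min (l / 2) 1 with hρ
  have hρ0 : 0 < ρ := lt_min (by linarith) one_pos
  have hρ1 : ρ ≤ 1 := min_le_right _ _
  have hρ2 : ρ ≤ l / 2 := min_le_left _ _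
  set δ : ℝ := 1 / (24 * ((H : ℝ) + 1)) with hδ
  have hδ0 : 0 < δ := by positivity
  obtain ⟨w, C, hw, hsupp, h0, hneg, hpos⟩ := window hρ0 hρ1 hδ0
  obtain ⟨W0, hW0⟩ := (isCompact_Icc (a := -Real.pi) (b := Real.pi)).exists_bound_of_continuousOn
    hw.continuousOn
  set W : ℝ := max W0 1 with hWdef
  have hWpos : 0 < W := lt_of_lt_of_le one_pos (le_max_right _ _)
  have hW : ∀ x ∈ Set.Icc (-Real.pi) Real.pi, ‖w x‖ ≤ W := fun x hx =>
    (hW0 x hx).trans (le_max_left _ _)
  set N : ℕ := max 1 ⌈8 * (H * C)⌉₊ with hN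
  have hN1 : 1 ≤ N := le_max_left _ _
  have hN0 : (0 : ℝ) < N := by exact_mod_cast hN1
  have hNC : H * C / N ≤ 1 / 8 := by
    rw [div_le_iff₀ hN0]
    have h1 : 8 * (H * C) ≤ N := (Nat.le_ceil _).trans (by exact_mod_cast le_max_right _ _)
    linarith
  have hδH : 3 * (H * δ) ≤ 1 / 8 := by
    rw [hδ]
    have h1 : 3 * ((H : ℝ) * (1 / (24 * ((H : ℝ) + 1)))) = (1 / 8) * (H / (H + 1)) := by
      field_simp
      ring
    rw [h1]
    have h2 : (H : ℝ) / (H + 1) ≤ 1 := by
      rw [div_le_one (by positivity)]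
      linarith
    linarith
  set P : ℕ := (2 * H + 1) ^ N with hP
  set m : ℕ := P.factorial with hm
  have hm0 : 0 < m := Nat.factorial_pos _
  refine ⟨m, 256 * W ^ 2 * ((m + P + 1 : ℕ) : ℝ), 2 * Real.pi / (16 * W), hm0, by positivity,
    by positivity, ?_⟩
  intro A hA α T hT0 hT
  set c : ℝ := α + l / 2 with hc
  set D : ℤ[X] := (X ^ m - 1) * A with hD
  classical
  set S : Finset ℤ := (Icc (-((m : ℤ) + P)) D.natDegree).filter
    (fun t => 1 / 8 ≤ ‖fc (FF A c w) t‖) with hS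
  have hScard : (S.card : ℝ) ≤ 256 * (W * T) ^ 2 := by
    refine few_large (by positivity) (FF_cont A c hw) ?_ S fun s hs => (mem_filter.1 hs).2
    refine (excess_le hw hρ0 hρ1 hρ2 hsupp hWpos hW hT0 A).trans ?_
    calc _ ≤ W * (2 * Real.pi / (16 * W)) := by gcongr
      _ = 2 * Real.pi / 16 := by field_simp
  have hcover : D.support.image (fun n : ℕ => (n : ℤ)) ⊆
      S.biUnion (fun t => Icc t (t + ((m : ℤ) + P))) := by
    intro z hz
    rw [mem_image] at hz
    obtain ⟨n, hn, rfl⟩ := hz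
    rw [mem_support_iff, hD, coeff_mul_ca] at hn
    have hne : ca A ((n : ℤ) - m) ≠ ca A n := fun h => hn (by rw [h, sub_self])
    have hbad : ¬ ∀ t : ℤ, (n : ℤ) - m - P ≤ t → t ≤ n → ‖fc (FF A c w) t‖ < 1 / 8 := by
      intro hall
      exact hne (pigeon (a := ca A) (H := H) (N := N) (good := fun t => ‖fc (FF A c w) t‖ < 1 / 8)
        (ca_bound hA) (fun s s' hs hs' hp =>
          determined hw c h0 hneg hpos hA hN1 hδH hNC s s' hs hs' hp) hP hm hall)
    push Not at hbad
    obtain ⟨t, ht1, ht2, ht3⟩ := hbad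
    have hnd : n ≤ D.natDegree := by
      refine le_natDegree_of_ne_zero ?_
      rw [hD, coeff_mul_ca]
      exact hn
    rw [mem_biUnion]
    refine ⟨t, ?_, ?_⟩
    · rw [hS, mem_filter, mem_Icc]
      refine ⟨⟨?_, ?_⟩, ht3⟩
      · omega
      · omega
    · rw [mem_Icc]
      omega
  have hcard : D.support.card ≤ S.card * (m + P + 1) := by
    have h1 : (D.support.image (fun n : ℕ => (n : ℤ))).card = D.support.card :=
      card_image_of_injective _ Nat.cast_injective
    rw [← h1]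
    refine (card_le_card hcover).trans ?_
    refine card_biUnion_le_card_mul _ _ _ fun t _ => ?_
    rw [Int.card_Icc]
    omega
  have hcardR : (D.support.card : ℝ) ≤ (S.card : ℝ) * ((m + P + 1 : ℕ) : ℝ) := by
    exact_mod_cast hcard
  calc (D.support.card : ℝ) ≤ (S.card : ℝ) * ((m + P + 1 : ℕ) : ℝ) := hcardR
    _ ≤ 256 * (W * T) ^ 2 * ((m + P + 1 : ℕ) : ℝ) := by gcongr
    _ = _ := by ring

/-- The version with a superlinear function. -/
theorem arc_phi (H : ℕ) {l : ℝ} (hl : 0 < l) {Φ : ℝ → ℝ} (hmono : Monotone Φ)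
    (hsup : Filter.Tendsto (fun t => Φ t / t) Filter.atTop Filter.atTop) (B : ℝ) :
    ∃ m K : ℕ, 0 < m ∧ ∀ A : ℤ[X], (∀ n, |A.coeff n| ≤ H) → ∀ α : ℝ,
      ∫ θ in α..(α + l), Φ ‖aeval (Complex.exp ((θ : ℂ) * I)) A‖ ≤ B →
      ((X ^ m - 1) * A).support.card ≤ K := by
  obtain ⟨m, κ, ε, hm, hκ, hε, hmain⟩ := arc_uniform H hl
  set B' : ℝ := max (B - l * Φ 0) 1 with hB'
  have hB'1 : 0 < B' := lt_of_lt_of_le one_pos (le_max_right _ _)
  obtain ⟨T, hT, hT1⟩ : ∃ T : ℝ, (∀ t ≥ T, B' / ε + |Φ 0| ≤ Φ t / t) ∧ 1 ≤ T := by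
    have h1 := (hsup.eventually_ge_atTop (B' / ε + |Φ 0|))
    obtain ⟨T0, hT0⟩ := Filter.eventually_atTop.1 h1
    exact ⟨max T0 1, fun t ht => hT0 t ((le_max_left _ _).trans ht), le_max_right _ _⟩
  have hT0 : 0 < T := by linarith
  refine ⟨m, ⌈κ * T ^ 2⌉₊, hm, fun A hA α hα => ?_⟩
  set f : ℝ → ℝ := fun θ => ‖aeval (Complex.exp ((θ : ℂ) * I)) A‖ with hf
  have hfc : Continuous f := (((Polynomial.continuous_aeval A).comp (by fun_prop :
      Continuous fun θ : ℝ => Complex.exp ((θ : ℂ) * I))).norm)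
  have hpt : ∀ θ, (B' / ε) * max (f θ - T) 0 ≤ Φ (f θ) - Φ 0 := by
    intro θ
    have hf0 : 0 ≤ f θ := norm_nonneg _
    rcases le_total (f θ) T with h | h
    · rw [max_eq_right (by linarith), mul_zero]
      have := hmono hf0
      linarith
    · have h1 : 0 < f θ := lt_of_lt_of_le hT0 h
      have h2 := (le_div_iff₀ h1).1 (hT (f θ) h)
      have h3 : max (f θ - T) 0 ≤ f θ := max_le (by linarith) hf0
      have h4 : (B' / ε) * max (f θ - T) 0 ≤ (B' / ε) * f θ := by gcongr
      have h5 : |Φ 0| * 1 ≤ |Φ 0| * f θ := by gcongr; linarith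
      have h6 := le_abs_self (Φ 0)
      linarith
  have hint : IntervalIntegrable (fun θ => Φ (f θ)) volume α (α + l) := by
    obtain ⟨M, hM⟩ := (isCompact_uIcc (a := α) (b := α + l)).exists_bound_of_continuousOn
      hfc.continuousOn
    have hconst : IntervalIntegrable (fun _ : ℝ => |Φ 0| + |Φ M|) volume α (α + l) :=
      intervalIntegrable_const
    refine hconst.mono_fun ?_ ?_
    · exact (hmono.measurable.comp hfc.measurable).aestronglyMeasurable
    · refine (ae_restrict_iff' measurableSet_uIoc).2 (Filter.Eventually.of_forall fun θ hθ => ?_)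
      have h1 := hM θ (Set.uIoc_subset_uIcc hθ)
      have h0 : 0 ≤ f θ := norm_nonneg _
      rw [Real.norm_of_nonneg h0] at h1
      have h2 := hmono h0
      have h3 := hmono h1
      change |Φ (f θ)| ≤ |(|Φ 0| + |Φ M|)|
      rw [abs_of_nonneg (a := |Φ 0| + |Φ M|) (by positivity)]
      refine abs_le.2 ⟨?_, ?_⟩
      · have := neg_abs_le (Φ 0)
        have := abs_nonneg (Φ M)
        linarith
      · have := le_abs_self (Φ M)
        have := abs_nonneg (Φ 0)
        linarith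
  have hle : ∫ θ in α..(α + l), (B' / ε) * max (f θ - T) 0 ≤
      ∫ θ in α..(α + l), (Φ (f θ) - Φ 0) := by
    refine intervalIntegral.integral_mono_on (by linarith) ?_ ?_ fun θ _ => hpt θ
    · exact (continuous_const.mul ((hfc.sub continuous_const).max continuous_const)).intervalIntegrable
        _ _
    · exact hint.sub intervalIntegrable_const
  rw [intervalIntegral.integral_const_mul, intervalIntegral.integral_sub hint
    intervalIntegrable_const, intervalIntegral.integral_const, smul_eq_mul] at hle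
  have h7 : α + l - α = l := by ring
  rw [h7] at hle
  have h8 : (B' / ε) * ∫ θ in α..(α + l), max (f θ - T) 0 ≤ B' :=
    hle.trans ((by linarith : _ ≤ B - l * Φ 0).trans (le_max_left _ _))
  have h9 : ∫ θ in α..(α + l), max (f θ - T) 0 ≤ ε := by
    have h10 : (B' / ε) * ∫ θ in α..(α + l), max (f θ - T) 0 ≤ (B' / ε) * ε := by
      rw [div_mul_cancel₀ _ hε.ne']
      exact h8
    exact le_of_mul_le_mul_left h10 (by positivity)
  have h11 := hmain A hA α T hT0 h9
  have h12 := Nat.le_ceil (κ * T ^ 2)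
  exact_mod_cast h11.trans h12

end Pool.Agent.Helper13.SZ
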