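import Mathlib

/-!
# Fourier coefficients on `[-π, π]`: Bessel, decay, analytic boundary values
-/

namespace Pool.Agent.Helper13.SZ

open Complex MeasureTheory

/-- The `k`-th Fourier coefficient of `f` over `[-π, π]`. -/
noncomputable def fc (f : ℝ → ℂ) (k : ℤ) : ℂ :=
  (2 * (Real.pi : ℂ))⁻¹ * ∫ x in (-Real.pi)..Real.pi, f x * Complex.exp (-((k : ℂ) * (x : ℂ) * I))

theorem neg_pi_lt_pi : -Real.pi < Real.pi := by
  have := Real.pi_pos
  linarith

theorem fc_eq_on (f : ℝ → ℂ) (k : ℤ) : fc f k = fourierCoeffOn neg_pi_lt_pi f k := by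
  rw [fourierCoeffOn_eq_integral, fc]
  have h1 : ((1 / (Real.pi - -Real.pi) : ℝ)) = (2 * Real.pi)⁻¹ := by
    rw [one_div]; congr 1; ring
  rw [h1, Complex.real_smul]
  congr 1
  · push_cast; rfl
  · refine intervalIntegral.integral_congr fun x _ => ?_
    simp only [smul_eq_mul]
    rw [mul_comm, fourier_coe_apply]
    congr 2
    have h2 : ((Real.pi : ℂ)) ≠ 0 := by exact_mod_cast Real.pi_ne_zero
    push_cast
    field_simp
    ring

theorem bessel {f : ℝ → ℂ} (hf : Continuous f) (S : Finset ℤ) :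
    ∑ s ∈ S, ‖fc f s‖ ^ 2 ≤ (2 * Real.pi)⁻¹ * ∫ x in (-Real.pi)..Real.pi, ‖f x‖ ^ 2 := by
  have hm : MemLp f 2 (volume.restrict (Set.Ioc (-Real.pi) Real.pi)) := by
    obtain ⟨C, hC⟩ := (isCompact_Icc (a := -Real.pi) (b := Real.pi)).exists_bound_of_continuousOn
      hf.continuousOn
    refine MemLp.of_bound hf.aestronglyMeasurable C ?_
    rw [ae_restrict_iff' measurableSet_Ioc]
    exact Filter.Eventually.of_forall fun x hx => hC x ⟨hx.1.le, hx.2⟩
  have h := hasSum_sq_fourierCoeffOn neg_pi_lt_pi hm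
  have h2 := sum_le_hasSum S (fun i _ => sq_nonneg _) h
  have h3 : (Real.pi - -Real.pi)⁻¹ = (2 * Real.pi)⁻¹ := by congr 1; ring
  rw [h3, smul_eq_mul] at h2
  refine le_trans (le_of_eq ?_) h2
  exact Finset.sum_congr rfl fun s _ => by rw [fc_eq_on]

theorem exp_bdry (k : ℤ) : Complex.exp (-((k : ℂ) * ((Real.pi : ℝ) : ℂ) * I)) =
    Complex.exp (-((k : ℂ) * ((-Real.pi : ℝ) : ℂ) * I)) := by
  rw [Complex.exp_eq_exp_iff_exists_int]
  exact ⟨-k, by push_cast; ring⟩

theorem ibp {f f' : ℝ → ℂ} (hf : ∀ x, HasDerivAt f (f' x) x) (hf' : Continuous f')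
    (hb : f Real.pi = f (-Real.pi)) {k : ℤ} (hk : k ≠ 0) :
    fc f k = ((k : ℂ) * I)⁻¹ * fc f' k := by
  have hkI : ((k : ℂ) * I) ≠ 0 := mul_ne_zero (by exact_mod_cast hk) I_ne_zero
  have hv : ∀ x : ℝ, HasDerivAt (fun x : ℝ => -((k : ℂ) * I)⁻¹ *
      Complex.exp (-((k : ℂ) * (x : ℂ) * I))) (Complex.exp (-((k : ℂ) * (x : ℂ) * I))) x := by
    intro x
    have h1 : HasDerivAt (fun x : ℝ => -((k : ℂ) * (x : ℂ) * I)) (-((k : ℂ) * 1 * I)) x :=
      (((Complex.ofRealCLM.hasDerivAt (x := x)).const_mul (k : ℂ)).mul_const I).neg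
    have h2 := (h1.cexp).const_mul (-((k : ℂ) * I)⁻¹)
    refine h2.congr_deriv ?_
    field_simp
  have h := intervalIntegral.integral_mul_deriv_eq_deriv_mul
    (a := -Real.pi) (b := Real.pi) (u := f) (u' := f')
    (v := fun x : ℝ => -((k : ℂ) * I)⁻¹ * Complex.exp (-((k : ℂ) * (x : ℂ) * I)))
    (v' := fun x : ℝ => Complex.exp (-((k : ℂ) * (x : ℂ) * I)))
    (fun x _ => hf x) (fun x _ => hv x) (hf'.intervalIntegrable _ _)
    ((by fun_prop : Continuous fun x : ℝ => Complex.exp (-((k : ℂ) * (x : ℂ) * I))).intervalIntegrable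
      _ _)
  rw [fc, fc, h, hb, exp_bdry, sub_self, zero_sub]
  have h3 : ∫ x in (-Real.pi)..Real.pi, f' x * (-((k : ℂ) * I)⁻¹ *
      Complex.exp (-((k : ℂ) * (x : ℂ) * I))) =
      -((k : ℂ) * I)⁻¹ * ∫ x in (-Real.pi)..Real.pi, f' x * Complex.exp (-((k : ℂ) * (x : ℂ) * I)) := by
    rw [← intervalIntegral.integral_const_mul]
    refine intervalIntegral.integral_congr fun x _ => ?_
    ring
  rw [h3]
  ring

theorem norm_exp_aux (k : ℤ) (x : ℝ) : ‖Complex.exp (-((k : ℂ) * (x : ℂ) * I))‖ = 1 := by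
  have : -((k : ℂ) * (x : ℂ) * I) = ((-((k : ℝ) * x) : ℝ) : ℂ) * I := by push_cast; ring
  rw [this, Complex.norm_exp_ofReal_mul_I]

theorem fc_bound {f : ℝ → ℂ} {D : ℝ} (hD : ∀ x ∈ Set.Icc (-Real.pi) Real.pi, ‖f x‖ ≤ D) (k : ℤ) :
    ‖fc f k‖ ≤ D := by
  have hpi := Real.pi_pos
  have h1 : ‖∫ x in (-Real.pi)..Real.pi, f x * Complex.exp (-((k : ℂ) * (x : ℂ) * I))‖ ≤
      D * |Real.pi - -Real.pi| := by
    refine intervalIntegral.norm_integral_le_of_norm_le_const fun x hx => ?_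
    rw [norm_mul, norm_exp_aux, mul_one]
    rw [Set.uIoc_of_le neg_pi_lt_pi.le] at hx
    exact hD x ⟨hx.1.le, hx.2⟩
  have h2 : |Real.pi - -Real.pi| = 2 * Real.pi := by
    rw [abs_of_nonneg (by linarith)]; ring
  rw [h2] at h1
  rw [fc, norm_mul, norm_inv, norm_mul, Complex.norm_real, Real.norm_of_nonneg hpi.le]
  simp only [Complex.norm_ofNat]
  calc (2 * Real.pi)⁻¹ * ‖∫ x in (-Real.pi)..Real.pi, f x * Complex.exp (-((k : ℂ) * (x : ℂ) * I))‖
      ≤ (2 * Real.pi)⁻¹ * (D * (2 * Real.pi)) := by gcongr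
    _ = D := by field_simp

/-- Second order decay. -/
theorem decay {f f' f'' : ℝ → ℂ} (hf : ∀ x, HasDerivAt f (f' x) x)
    (hf' : ∀ x, HasDerivAt f' (f'' x) x) (hf'' : Continuous f'')
    (hb : f Real.pi = f (-Real.pi)) (hb' : f' Real.pi = f' (-Real.pi)) {D : ℝ}
    (hD : ∀ x ∈ Set.Icc (-Real.pi) Real.pi, ‖f'' x‖ ≤ D) {k : ℤ} (hk : k ≠ 0) :
    ‖fc f k‖ ≤ D / (k : ℝ) ^ 2 := by
  have hc : Continuous f' := continuous_iff_continuousAt.2 fun x => (hf' x).continuousAt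
  rw [ibp hf hc hb hk, ibp hf' hf'' hb' hk, norm_mul, norm_mul, norm_inv, norm_mul, Complex.norm_I,
    mul_one, Complex.norm_intCast]
  have hk1 : (0 : ℝ) < |(k : ℝ)| := abs_pos.2 (by exact_mod_cast hk)
  have h := fc_bound hD k
  rw [← sq_abs (k : ℝ)]
  calc |(k : ℝ)|⁻¹ * (|(k : ℝ)|⁻¹ * ‖fc f'' k‖) ≤ |(k : ℝ)|⁻¹ * (|(k : ℝ)|⁻¹ * D) := by gcongr
    _ = D / |(k : ℝ)| ^ 2 := by field_simp

theorem fc_sub {f g : ℝ → ℂ} (hf : Continuous f) (hg : Continuous g) (k : ℤ) :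
    fc (fun x => f x - g x) k = fc f k - fc g k := by
  unfold fc
  rw [← mul_sub, ← intervalIntegral.integral_sub
    ((by fun_prop : Continuous fun x : ℝ => f x * Complex.exp (-((k : ℂ) * (x : ℂ) * I))).intervalIntegrable
      _ _)
    ((by fun_prop : Continuous fun x : ℝ => g x * Complex.exp (-((k : ℂ) * (x : ℂ) * I))).intervalIntegrable
      _ _)]
  congr 1
  refine intervalIntegral.integral_congr fun x _ => ?_
  ring

/-- Fourier coefficients of a trigonometric polynomial times `w`. -/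
theorem fc_sum {w : ℝ → ℂ} (hw : Continuous w) (n : ℕ) (b : ℕ → ℂ) (s : ℤ) :
    fc (fun x => (∑ j ∈ Finset.range n, b j * Complex.exp ((j : ℂ) * (x : ℂ) * I)) * w x) s =
      ∑ j ∈ Finset.range n, b j * fc w (s - j) := by
  unfold fc
  have h1 : (fun x : ℝ => (∑ j ∈ Finset.range n, b j * Complex.exp ((j : ℂ) * (x : ℂ) * I)) * w x *
      Complex.exp (-((s : ℂ) * (x : ℂ) * I))) = fun x : ℝ => ∑ j ∈ Finset.range n,
        b j * (w x * Complex.exp (-(((s - j : ℤ) : ℂ) * (x : ℂ) * I))) := by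
    funext x
    rw [Finset.sum_mul, Finset.sum_mul]
    refine Finset.sum_congr rfl fun j _ => ?_
    have : Complex.exp (-(((s - j : ℤ) : ℂ) * (x : ℂ) * I)) =
        Complex.exp ((j : ℂ) * (x : ℂ) * I) * Complex.exp (-((s : ℂ) * (x : ℂ) * I)) := by
      rw [← Complex.exp_add]; congr 1; push_cast; ring
    rw [this]; ring
  rw [h1, intervalIntegral.integral_finsetSum]
  · rw [Finset.mul_sum]
    refine Finset.sum_congr rfl fun j _ => ?_
    rw [intervalIntegral.integral_const_mul]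
    ring
  · intro j _
    exact (by fun_prop : Continuous fun x : ℝ =>
      b j * (w x * Complex.exp (-(((s - j : ℤ) : ℂ) * (x : ℂ) * I)))).intervalIntegrable _ _

/-- The Fourier coefficients of nonpositive index of the boundary values of a function analytic on
the closed unit disc. -/
theorem fc_analytic {G : ℂ → ℂ} {R : ℝ} (hR : 1 < R) (hG : DifferentiableOn ℂ G (Metric.ball 0 R))
    (k : ℕ) : fc (fun x => G (Complex.exp ((x : ℂ) * I))) (-(k : ℤ)) = (0 : ℂ) ^ k * G 0 := by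
  set F : ℂ → ℂ := fun z => z ^ k * G z with hF
  have hFd : DifferentiableOn ℂ F (Metric.ball 0 R) := (differentiableOn_id.pow k).mul hG
  have h1 : DiffContOnCl ℂ F (Metric.ball 0 |(1 : ℝ)|) := by
    rw [abs_one]
    refine DifferentiableOn.diffContOnCl ?_
    rw [closure_ball (0 : ℂ) one_ne_zero]
    exact hFd.mono (Metric.closedBall_subset_ball hR)
  have h2 := h1.circleAverage
  rw [Real.circleAverage_def] at h2
  have h3 : ∫ x in (-Real.pi)..Real.pi, G (Complex.exp ((x : ℂ) * I)) *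
      Complex.exp (-((((-(k : ℤ)) : ℤ) : ℂ) * (x : ℂ) * I)) =
      ∫ θ in (0 : ℝ)..2 * Real.pi, F (circleMap 0 1 θ) := by
    have hper : Function.Periodic (fun θ : ℝ => F (circleMap 0 1 θ)) (2 * Real.pi) := by
      intro θ
      simp only [periodic_circleMap 0 1 θ]
    have h4 := hper.intervalIntegral_add_eq (-Real.pi) 0
    rw [show -Real.pi + 2 * Real.pi = Real.pi by ring, zero_add] at h4
    rw [← h4]
    refine intervalIntegral.integral_congr fun x _ => ?_
    simp only [hF, circleMap, ofReal_one, one_mul, zero_add]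
    rw [← Complex.exp_nat_mul, mul_comm]
    congr 2
    push_cast
    ring
  rw [fc, h3]
  have h5 : F 0 = (0 : ℂ) ^ k * G 0 := rfl
  rw [← h5, ← h2, Complex.real_smul]
  push_cast
  rfl

end Pool.Agent.Helper13.SZ
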