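import Pool.Agent.Helper13.SZ.Local

/-!
# Integer polynomials of bounded height that are, on one arc, bounded up to a small `L¹` part
-/

namespace Pool.Agent.Helper13.SZ

open Polynomial Complex Finset MeasureTheory

/-- Truncation at height `T`. -/
noncomputable def tr (T : ℝ) (f : ℝ → ℂ) (x : ℝ) : ℂ := ((T / max ‖f x‖ T : ℝ) : ℂ) * f x

theorem tr_cont {T : ℝ} (hT : 0 < T) {f : ℝ → ℂ} (hf : Continuous f) : Continuous (tr T f) := by
  unfold tr
  have h1 : Continuous fun x => max ‖f x‖ T := hf.norm.max continuous_const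
  have h2 : Continuous fun x => T / max ‖f x‖ T :=
    continuous_const.div h1 fun x => (lt_of_lt_of_le hT (le_max_right _ _)).ne'
  exact (Complex.continuous_ofReal.comp h2).mul hf

theorem tr_norm {T : ℝ} (hT : 0 < T) (f : ℝ → ℂ) (x : ℝ) : ‖tr T f x‖ ≤ T := by
  have h1 : 0 < max ‖f x‖ T := lt_of_lt_of_le hT (le_max_right _ _)
  rw [tr, norm_mul, Complex.norm_real, Real.norm_of_nonneg (by positivity), div_mul_eq_mul_div,
    div_le_iff₀ h1]
  gcongr
  exact le_max_left _ _

theorem tr_diff {T : ℝ} (hT : 0 < T) (f : ℝ → ℂ) (x : ℝ) :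
    ‖f x - tr T f x‖ ≤ max (‖f x‖ - T) 0 := by
  have h0 : f x - tr T f x = ((1 - T / max ‖f x‖ T : ℝ) : ℂ) * f x := by
    rw [tr]; push_cast; ring
  have h1 : 0 < max ‖f x‖ T := lt_of_lt_of_le hT (le_max_right _ _)
  have h2 : T / max ‖f x‖ T ≤ 1 := by
    rw [div_le_one h1]; exact le_max_right _ _
  rw [h0, norm_mul, Complex.norm_real, Real.norm_of_nonneg (by linarith)]
  rcases le_total ‖f x‖ T with h | h
  · rw [max_eq_right h, div_self hT.ne', sub_self, zero_mul]
    exact le_max_right _ _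
  · refine le_trans (le_of_eq ?_) (le_max_left _ _)
    rw [max_eq_left h]
    have : ‖f x‖ ≠ 0 := (lt_of_lt_of_le hT h).ne'
    field_simp

/-- The number of large Fourier coefficients of a function which is bounded by `T` up to a small
`L¹` part. -/
theorem few_large {T : ℝ} (hT : 0 < T) {f : ℝ → ℂ} (hf : Continuous f)
    (hsmall : ∫ x in (-Real.pi)..Real.pi, max (‖f x‖ - T) 0 ≤ 2 * Real.pi / 16) (S : Finset ℤ)
    (hS : ∀ s ∈ S, 1 / 8 ≤ ‖fc f s‖) : (S.card : ℝ) ≤ 256 * T ^ 2 := by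
  have hpi := Real.pi_pos
  have hc := tr_cont hT hf
  have key : ∀ s : ℤ, ‖fc (fun x => f x - tr T f x) s‖ ≤ 1 / 16 := by
    intro s
    have h1 : ‖∫ x in (-Real.pi)..Real.pi, (f x - tr T f x) *
        Complex.exp (-((s : ℂ) * (x : ℂ) * I))‖ ≤
        ∫ x in (-Real.pi)..Real.pi, max (‖f x‖ - T) 0 := by
      refine intervalIntegral.norm_integral_le_of_norm_le (by linarith) ?_ ?_
      · refine Filter.Eventually.of_forall fun x _ => ?_
        rw [norm_mul, norm_exp_aux, mul_one]
        exact tr_diff hT f x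
      · exact ((hf.norm.sub continuous_const).max continuous_const).intervalIntegrable _ _
    rw [fc, norm_mul, norm_inv, norm_mul, Complex.norm_real, Real.norm_of_nonneg hpi.le]
    simp only [Complex.norm_ofNat]
    calc _ ≤ (2 * Real.pi)⁻¹ * (2 * Real.pi / 16) := by
          gcongr
          exact h1.trans hsmall
      _ = 1 / 16 := by field_simp
  have hbig : ∀ s ∈ S, 1 / 16 ≤ ‖fc (tr T f) s‖ := by
    intro s hs
    have h1 := fc_sub hf hc s
    have h2 : fc f s = fc (fun x => f x - tr T f x) s + fc (tr T f) s := by rw [h1]; ring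
    have h3 := hS s hs
    have h4 : ‖fc f s‖ ≤ ‖fc (fun x => f x - tr T f x) s‖ + ‖fc (tr T f) s‖ := by
      rw [h2]; exact norm_add_le _ _
    have h5 := key s
    linarith
  have hb := bessel hc S
  have h6 : (S.card : ℝ) * (1 / 256) ≤ ∑ s ∈ S, ‖fc (tr T f) s‖ ^ 2 := by
    calc (S.card : ℝ) * (1 / 256) = ∑ _s ∈ S, (1 / 256 : ℝ) := by rw [sum_const, nsmul_eq_mul]
      _ ≤ _ := by
        refine sum_le_sum fun s hs => ?_
        have h2 : (1 / 16 : ℝ) ^ 2 ≤ ‖fc (tr T f) s‖ ^ 2 := by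
          have := hbig s hs
          gcongr
        norm_num at h2 ⊢
        exact h2
  have h7 : ∫ x in (-Real.pi)..Real.pi, ‖tr T f x‖ ^ 2 ≤ 2 * Real.pi * T ^ 2 := by
    calc _ ≤ ∫ _x in (-Real.pi)..Real.pi, T ^ 2 := by
          refine intervalIntegral.integral_mono_on (by linarith)
            ((hc.norm.pow 2).intervalIntegrable _ _) intervalIntegrable_const fun x _ => ?_
          have := tr_norm hT f x
          gcongr
      _ = _ := by
          rw [intervalIntegral.integral_const, smul_eq_mul]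
          ring
  have h8 : (2 * Real.pi)⁻¹ * ∫ x in (-Real.pi)..Real.pi, ‖tr T f x‖ ^ 2 ≤ T ^ 2 := by
    calc _ ≤ (2 * Real.pi)⁻¹ * (2 * Real.pi * T ^ 2) := by gcongr
      _ = T ^ 2 := by field_simp
  linarith

/-- The excess of the windowed polynomial is at most `W` times the excess on the arc. -/
theorem excess_le {w : ℝ → ℂ} (hw : Continuous w) {α l ρ W T : ℝ} (hρ : 0 < ρ) (hρ1 : ρ ≤ 1)
    (hl : ρ ≤ l / 2) (hsupp : ∀ x ∈ Set.Icc (-Real.pi) Real.pi, ρ ≤ |x| → w x = 0) (hW0 : 0 < W)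
    (hW : ∀ x ∈ Set.Icc (-Real.pi) Real.pi, ‖w x‖ ≤ W) (hT : 0 < T) (A : ℤ[X]) :
    ∫ x in (-Real.pi)..Real.pi, max (‖FF A (α + l / 2) w x‖ - W * T) 0 ≤
      W * ∫ θ in α..(α + l), max (‖aeval (Complex.exp ((θ : ℂ) * I)) A‖ - T) 0 := by
  have hpi := Real.pi_gt_three
  set c : ℝ := α + l / 2 with hc
  have hF : Continuous fun x => max (‖FF A c w x‖ - W * T) 0 :=
    ((FF_cont A c hw).norm.sub continuous_const).max continuous_const
  have hii : ∀ a b : ℝ, IntervalIntegrable (fun x => max (‖FF A c w x‖ - W * T) 0) volume a b :=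
    fun a b => hF.intervalIntegrable a b
  have hg : Continuous fun θ : ℝ => max (‖aeval (Complex.exp ((θ : ℂ) * I)) A‖ - T) 0 :=
    ((((Polynomial.continuous_aeval A).comp (by fun_prop :
      Continuous fun θ : ℝ => Complex.exp ((θ : ℂ) * I))).norm.sub continuous_const).max
        continuous_const)
  have hz : ∀ x, w x = 0 → max (‖FF A c w x‖ - W * T) 0 = 0 := by
    intro x hx
    rw [FF, hx, mul_zero, norm_zero]
    refine max_eq_right ?_
    have : 0 < W * T := by positivity
    linarith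
  have h1 : ∫ x in (-Real.pi)..(-ρ), max (‖FF A c w x‖ - W * T) 0 = 0 := by
    rw [intervalIntegral.integral_congr (g := fun _ => (0 : ℝ)), intervalIntegral.integral_zero]
    intro x hx
    rw [Set.uIcc_of_le (by linarith)] at hx
    exact hz x (hsupp x ⟨hx.1, by linarith [hx.2]⟩ (by
      rw [abs_of_nonpos (by linarith [hx.2])]; linarith [hx.2]))
  have h2 : ∫ x in ρ..Real.pi, max (‖FF A c w x‖ - W * T) 0 = 0 := by
    rw [intervalIntegral.integral_congr (g := fun _ => (0 : ℝ)), intervalIntegral.integral_zero]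
    intro x hx
    rw [Set.uIcc_of_le (by linarith)] at hx
    exact hz x (hsupp x ⟨by linarith [hx.1], hx.2⟩ (by
      rw [abs_of_nonneg (by linarith [hx.1])]; exact hx.1))
  have h3 : ∫ x in (-Real.pi)..Real.pi, max (‖FF A c w x‖ - W * T) 0 =
      ∫ x in (-ρ)..ρ, max (‖FF A c w x‖ - W * T) 0 := by
    rw [← intervalIntegral.integral_add_adjacent_intervals (hii (-Real.pi) (-ρ)) (hii (-ρ) Real.pi),
      ← intervalIntegral.integral_add_adjacent_intervals (hii (-ρ) ρ) (hii ρ Real.pi), h1, h2]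
    ring
  rw [h3]
  have h4 : ∫ x in (-ρ)..ρ, max (‖FF A c w x‖ - W * T) 0 ≤
      ∫ x in (-ρ)..ρ, W * max (‖aeval (Complex.exp (((x + c : ℝ) : ℂ) * I)) A‖ - T) 0 := by
    refine intervalIntegral.integral_mono_on (by linarith) (hii _ _) ?_ ?_
    · exact (continuous_const.mul (hg.comp (continuous_id.add continuous_const))).intervalIntegrable
        _ _
    · intro x hx
      have hx' : x ∈ Set.Icc (-Real.pi) Real.pi := ⟨by linarith [hx.1], by linarith [hx.2]⟩
      rw [FF, norm_mul]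
      have h5 : ‖aeval (Complex.exp (((x + c : ℝ) : ℂ) * I)) A‖ * ‖w x‖ ≤
          ‖aeval (Complex.exp (((x + c : ℝ) : ℂ) * I)) A‖ * W := by
        gcongr
        exact hW x hx'
      rw [mul_max_of_nonneg _ _ hW0.le, mul_zero]
      refine max_le_max ?_ le_rfl
      linarith
  refine h4.trans ?_
  rw [intervalIntegral.integral_const_mul]
  gcongr
  have h5 : ∫ x in (-ρ)..ρ, max (‖aeval (Complex.exp (((x + c : ℝ) : ℂ) * I)) A‖ - T) 0 =
      ∫ θ in (-ρ + c)..(ρ + c), max (‖aeval (Complex.exp ((θ : ℂ) * I)) A‖ - T) 0 :=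
    intervalIntegral.integral_comp_add_right
      (fun θ : ℝ => max (‖aeval (Complex.exp ((θ : ℂ) * I)) A‖ - T) 0) c
  rw [h5]
  refine intervalIntegral.integral_mono_interval ?_ ?_ ?_ ?_ (hg.intervalIntegrable _ _)
  · rw [hc]; linarith
  · linarith
  · rw [hc]; linarith
  · exact Filter.Eventually.of_forall fun x => le_max_right _ _

end Pool.Agent.Helper13.SZ
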