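import Pool.Agent.Helper13.SZ.Window

/-!
# The window, with three derivatives
-/

namespace Pool.Agent.Helper13.SZ

open Complex Filter Topology

theorem uu_contDiff3 (t : ℝ) : ContDiff ℝ 3 (uu t) := by
  have h1 : ContDiff ℝ 3 (fun x : ℝ => (2 * t - (1 - Real.cos x)) / t) :=
    (contDiff_const.sub (contDiff_const.sub Real.contDiff_cos)).div_const t
  have h2 : ContDiff ℝ 3 (fun x : ℝ => Real.smoothTransition ((2 * t - (1 - Real.cos x)) / t)) :=
    (Real.smoothTransition.contDiff (n := 3)).comp h1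
  exact Complex.ofRealCLM.contDiff.comp (contDiff_const.sub h2)

theorem hb_contDiff3 {r : ℝ} (hr0 : 0 < r) (hr1 : r < 1) : ContDiff ℝ 3 (hb r) := by
  have h1 : ContDiff ℝ 3 (fun x : ℝ => Complex.exp ((x : ℂ) * I)) :=
    (Complex.ofRealCLM.contDiff.mul contDiff_const).cexp
  have h2 : ∀ x : ℝ, 1 - (r : ℂ) * Complex.exp ((x : ℂ) * I) ≠ 0 := fun x => by
    refine one_sub_ne hr0 ?_
    rw [Complex.norm_exp_ofReal_mul_I]
    exact (one_lt_inv₀ hr0).2 hr1
  have h3 : ContDiff ℝ 3 (fun x : ℝ => 1 - (r : ℂ) * Complex.exp ((x : ℂ) * I)) :=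
    contDiff_const.sub (contDiff_const.mul h1)
  have h4 : hb r = fun x : ℝ => 2 * (r : ℂ) * Complex.exp ((x : ℂ) * I) *
      (1 - (r : ℂ) * Complex.exp ((x : ℂ) * I))⁻¹ := by
    funext x
    rw [hb, hh, div_eq_mul_inv]
  rw [h4]
  exact (contDiff_const.mul h1).mul (h3.inv h2)

theorem decay3 {f : ℝ → ℂ} (hf : ContDiff ℝ 3 f) (hp : Function.Periodic f (2 * Real.pi)) :
    ∃ C : ℝ, 0 ≤ C ∧ ∀ k : ℤ, k ≠ 0 → ‖fc f k‖ ≤ C / |(k : ℝ)| ^ 3 := by
  have hf2 : ContDiff ℝ 2 f := hf.of_le (by norm_num)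
  have hd : ContDiff ℝ 2 (deriv f) := by
    have h : ContDiff ℝ (2 + 1) f := by
      have : (2 + 1 : WithTop ℕ∞) = 3 := by norm_num
      rw [this]
      exact hf
    exact (contDiff_succ_iff_deriv.1 h).2.2
  obtain ⟨C, hC0, hC⟩ := decay_smooth hd (deriv_periodic hp)
  refine ⟨C, hC0, fun k hk => ?_⟩
  have hk1 : (0 : ℝ) < |(k : ℝ)| := abs_pos.2 (by exact_mod_cast hk)
  rw [ibp (hasDeriv_one hf2) hd.continuous (periodic_bdry hp) hk, norm_mul, norm_inv, norm_mul,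
    Complex.norm_I, mul_one, Complex.norm_intCast]
  have h1 := hC k hk
  rw [← sq_abs (k : ℝ)] at h1
  calc |(k : ℝ)|⁻¹ * ‖fc (deriv f) k‖ ≤ |(k : ℝ)|⁻¹ * (C / |(k : ℝ)| ^ 2) := by gcongr
    _ = C / |(k : ℝ)| ^ 3 := by field_simp

theorem summable_beta {w : ℝ → ℂ} (hf : ContDiff ℝ 3 w) (hp : Function.Periodic w (2 * Real.pi)) :
    Summable fun k : ℤ => 4 * (1 + 3 * |(k : ℝ)|) * ‖fc w k‖ := by
  obtain ⟨C, hC0, hC⟩ := decay3 hf hp
  have h1 : Summable fun k : ℤ => 16 * C * (1 / (k : ℝ) ^ 2) :=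
    (Real.summable_one_div_int_pow.2 one_lt_two).mul_left _
  have h2 : Summable fun k : ℤ => if k = 0 then 4 * ‖fc w 0‖ else 0 :=
    summable_of_ne_finset_zero (s := {0}) fun k hk => by
      rw [if_neg (by simpa using hk)]
  refine Summable.of_nonneg_of_le (fun k => by positivity) (fun k => ?_) (h1.add h2)
  by_cases hk : k = 0
  · subst hk
    simp
  · rw [if_neg hk, add_zero]
    have hk1 : (1 : ℝ) ≤ |(k : ℝ)| := by
      have : (1 : ℤ) ≤ |k| := Int.one_le_abs hk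
      exact_mod_cast this
    have hk0 : (0 : ℝ) < |(k : ℝ)| := by linarith
    have h3 := hC k hk
    calc 4 * (1 + 3 * |(k : ℝ)|) * ‖fc w k‖ ≤ 4 * (4 * |(k : ℝ)|) * (C / |(k : ℝ)| ^ 3) := by
          gcongr
          linarith
      _ = 16 * C * (1 / (k : ℝ) ^ 2) := by
          rw [← sq_abs (k : ℝ)]
          field_simp
          ring

/-- The window with three derivatives. -/
theorem window3 {ρ δ : ℝ} (hρ : 0 < ρ) (hρ1 : ρ ≤ 1) (hδ : 0 < δ) :
    ∃ (w : ℝ → ℂ) (C : ℝ), ContDiff ℝ 3 w ∧ Function.Periodic w (2 * Real.pi) ∧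
      (∀ x ∈ Set.Icc (-Real.pi) Real.pi, ρ ≤ |x| → w x = 0) ∧ ‖fc w 0 - 1‖ ≤ δ ∧
      (∀ k : ℤ, k < 0 → ‖fc w k‖ ≤ δ / (k : ℝ) ^ 2) ∧
      (∀ k : ℤ, 0 < k → ‖fc w k‖ ≤ C / (k : ℝ) ^ 2) := by
  have hpi := Real.pi_gt_three
  set t : ℝ := (1 - Real.cos ρ) / 2 with ht
  have hcos : Real.cos ρ < 1 := by
    have := Real.cos_lt_cos_of_nonneg_of_le_pi le_rfl (by linarith : ρ ≤ Real.pi) hρ
    rwa [Real.cos_zero] at this
  have ht0 : 0 < t := by rw [ht]; linarith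
  set r : ℝ := 2 / (2 + t) with hr
  have hr0 : 0 < r := by positivity
  have hr1 : r < 1 := by rw [hr, div_lt_one (by linarith)]; linarith
  have hrt : (1 - r) * (1 + 3 * r) ≤ 2 * r * t := by
    have h1 : (1 - r) * (1 + 3 * r) = t * (8 + t) / (2 + t) ^ 2 := by
      rw [hr]; field_simp; ring
    have h2 : 2 * r * t = t * (8 + 4 * t) / (2 + t) ^ 2 := by
      rw [hr]; field_simp; ring
    rw [h1, h2]
    gcongr
    linarith
  obtain ⟨M, hM1, hM⟩ := ee_small ht0 hr0 hr1 hrt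
  have hM3 : 0 < M ^ 3 := by positivity
  obtain ⟨y, hy1, hy2⟩ : ∃ y : ℝ, (1 + 3 * (2 * y) + (2 * y) ^ 2) * Real.exp (-y) < δ / M ^ 3 ∧
      0 ≤ y :=
    ((tendsto_small.eventually (gt_mem_nhds (div_pos hδ hM3))).and (eventually_ge_atTop 0)).exists
  set N : ℝ := 2 * y with hN
  have hN0 : 0 ≤ N := by rw [hN]; linarith
  have hsm : M ^ 3 * ((1 + 3 * N + N ^ 2) * Real.exp (-(N / 2))) ≤ δ := by
    have h1 : N / 2 = y := by rw [hN]; ring
    rw [h1]
    have := (lt_div_iff₀' hM3).1 hy1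
    exact this.le
  have hebd : ∀ x ∈ Set.Icc (-Real.pi) Real.pi, ‖ee t r N x‖ ≤ δ := fun x hx =>
    ((hM N hN0 x hx).1).trans hsm
  have he2bd : ∀ x ∈ Set.Icc (-Real.pi) Real.pi, ‖ee2 t r N x‖ ≤ δ := fun x hx =>
    ((hM N hN0 x hx).2).trans hsm
  set G : ℂ → ℂ := fun z => Complex.exp ((N : ℂ) * hh r z) with hG
  set g : ℝ → ℂ := fun x => G (Complex.exp ((x : ℂ) * I)) with hg
  have hgc : ContDiff ℝ 3 g := by
    have h1 : g = fun x => Complex.exp ((N : ℂ) * hb r x) := rfl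
    rw [h1]
    exact (contDiff_const.mul (hb_contDiff3 hr0 hr1)).cexp
  have hgp : Function.Periodic g (2 * Real.pi) := by
    intro x
    change Complex.exp ((N : ℂ) * hb r (x + 2 * Real.pi)) = Complex.exp ((N : ℂ) * hb r x)
    rw [hb_periodic r x]
  have hec : ContDiff ℝ 3 (ee t r N) :=
    (uu_contDiff3 t).mul (contDiff_const.mul (hb_contDiff3 hr0 hr1)).cexp
  have hGd : DifferentiableOn ℂ G (Metric.ball 0 r⁻¹) := by
    have h1 : DifferentiableOn ℂ (hh r) (Metric.ball 0 r⁻¹) := by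
      unfold hh
      refine DifferentiableOn.div (by fun_prop) (by fun_prop) fun z hz => ?_
      exact one_sub_ne hr0 (by simpa using hz)
    exact (h1.const_mul (N : ℂ)).cexp
  have hG0 : G 0 = 1 := by simp [hG, hh]
  have hR : 1 < r⁻¹ := (one_lt_inv₀ hr0).2 hr1
  have hfg : ∀ k : ℕ, fc g (-(k : ℤ)) = (0 : ℂ) ^ k * 1 := fun k => by
    rw [← hG0]
    exact fc_analytic hR hGd k
  have hfe : ∀ k : ℤ, k ≠ 0 → ‖fc (ee t r N) k‖ ≤ δ / (k : ℝ) ^ 2 := fun k hk =>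
    decay (ee_deriv hr0 hr1 N) (ee1_deriv hr0 hr1 N) (ee2_cont hr0 hr1 N)
      (periodic_bdry (ee_periodic t r N)) (periodic_bdry (ee1_periodic t r N)) he2bd hk
  have hwk : ∀ k : ℤ, fc (fun x => g x - ee t r N x) k = fc g k - fc (ee t r N) k := fun k =>
    fc_sub hgc.continuous hec.continuous k
  have hw3 : ContDiff ℝ 3 (fun x => g x - ee t r N x) := hgc.sub hec
  have hwp : Function.Periodic (fun x => g x - ee t r N x) (2 * Real.pi) :=
    hgp.sub (ee_periodic t r N)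
  obtain ⟨C, _, hC⟩ := decay_smooth (hw3.of_le (by norm_num)) hwp
  refine ⟨fun x => g x - ee t r N x, C, hw3, hwp, ?_, ?_, ?_, ?_⟩
  · intro x hx hρx
    have h1 : 2 * t ≤ 1 - Real.cos x := by
      have h2 : Real.cos |x| ≤ Real.cos ρ := by
        refine Real.cos_le_cos_of_nonneg_of_le_pi hρ.le ?_ hρx
        exact abs_le.2 hx
      rw [Real.cos_abs] at h2
      rw [ht]
      linarith
    have h3 : ee t r N x = g x := by
      rw [ee, uu_one ht0 h1, one_mul]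
      rfl
    simp only [h3, sub_self]
  · rw [hwk]
    have h1 := hfg 0
    simp only [Nat.cast_zero, neg_zero, pow_zero, mul_one] at h1
    rw [h1]
    have h2 := fc_bound hebd 0
    calc ‖1 - fc (ee t r N) 0 - 1‖ = ‖fc (ee t r N) 0‖ := by
          rw [show 1 - fc (ee t r N) 0 - 1 = -fc (ee t r N) 0 by ring, norm_neg]
      _ ≤ δ := h2
  · intro k hk
    rw [hwk]
    have h1 := hfg k.natAbs
    have h2 : -((k.natAbs : ℕ) : ℤ) = k := by omega
    rw [h2, zero_pow (by omega), zero_mul] at h1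
    rw [h1, zero_sub, norm_neg]
    exact hfe k (by omega)
  · intro k hk
    exact hC k (by omega)

end Pool.Agent.Helper13.SZ
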