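import Pool.Agent.Helper13.SZ.TestFn2
import Pool.Agent.Helper13.SZ.Window3
import Pool.Agent.Helper13.SZ.Trunc
import Pool.Agent.Helper13.SZ.Sparse

/-!
# The `L¹` theorem on an arc
-/

namespace Pool.Agent.Helper13.SZ

open Polynomial Complex Finset MeasureTheory

theorem ca_mul (A : ℤ[X]) (m : ℕ) (s : ℤ) :
    ca ((X ^ m - 1) * A) s = ca A (s - m) - ca A s := by
  rcases lt_or_ge s 0 with h | h
  · have h1 : ca ((X ^ m - 1) * A) s = 0 := ca_out (Or.inl h)
    have h2 : ca A (s - m) = 0 := ca_out (Or.inl (by omega))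
    have h3 : ca A s = 0 := ca_out (Or.inl h)
    rw [h1, h2, h3, sub_zero]
  · obtain ⟨n, rfl⟩ := Int.eq_ofNat_of_zero_le h
    rw [ca_nat, coeff_mul_ca]

theorem coeff_bound2 {A : ℤ[X]} {H : ℕ} (hA : ∀ n, |A.coeff n| ≤ H) (m n : ℕ) :
    |((X ^ m - 1) * A).coeff n| ≤ ((2 * H : ℕ) : ℤ) := by
  rw [coeff_mul_ca]
  have h1 := ca_bound hA ((n : ℤ) - m)
  have h2 := ca_bound hA (n : ℤ)
  have h3 := abs_sub (ca A ((n : ℤ) - m)) (ca A n)
  push_cast
  linarith

/-- On a long good block the polynomial `(X ^ m - 1) A` vanishes. -/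
theorem zero_of_good {A : ℤ[X]} {H N : ℕ} (hA : ∀ n, |A.coeff n| ≤ H) {P m : ℕ}
    (hP : P = (2 * (2 * H) + 1) ^ N) (hm : m = P.factorial) {good : ℤ → Prop}
    (hdet : ∀ s s', good s → good s' →
      (∀ k : ℕ, k < N → ca ((X ^ m - 1) * A) (s - (k + 1)) = ca ((X ^ m - 1) * A) (s' - (k + 1))) →
      ca ((X ^ m - 1) * A) s = ca ((X ^ m - 1) * A) s') {s : ℤ}
    (hs : ∀ t : ℤ, s - (2 * H + 1) * m - P ≤ t → t ≤ s → good t) :
    ca ((X ^ m - 1) * A) s = 0 := by
  set d : ℤ → ℤ := ca ((X ^ m - 1) * A) with hd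
  have hdb : ∀ t, |d t| ≤ ((2 * H : ℕ) : ℤ) := ca_bound (coeff_bound2 hA m)
  have hm0 : (0 : ℤ) ≤ m := Int.natCast_nonneg m
  have hpg : ∀ t : ℤ, s - 2 * H * m ≤ t → t ≤ s → d (t - m) = d t := by
    intro t ht1 ht2
    refine pigeon (H := 2 * H) hdb hdet hP hm fun u hu1 hu2 => hs u ?_ (hu2.trans ht2)
    have : s - (2 * H + 1) * (m : ℤ) - P = s - 2 * H * m - m - P := by ring
    rw [this]
    linarith
  have hk1 : ∀ k : ℕ, k ≤ 2 * H + 1 → d (s - k * m) = d s := by
    intro k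
    induction k with
    | zero => intro _; simp
    | succ k ih =>
      intro hk
      have h1 := ih (by omega)
      have h2 : (k : ℤ) * m ≤ 2 * H * m := by
        have : (k : ℤ) ≤ 2 * H := by omega
        exact mul_le_mul_of_nonneg_right this hm0
      have h2' : (0 : ℤ) ≤ (k : ℤ) * m := by positivity
      have h3 := hpg (s - k * m) (by linarith) (by linarith)
      have h4 : s - ((k + 1 : ℕ) : ℤ) * m = s - k * m - m := by push_cast; ring
      rw [h4, h3, h1]
  have hk2 : ∀ k : ℕ, k ≤ 2 * H + 1 → ca A (s - k * m) = ca A s + k * d s := by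
    intro k
    induction k with
    | zero => intro _; simp
    | succ k ih =>
      intro hk
      have h1 := ih (by omega)
      have h2 := hk1 k (by omega)
      have h3 : d (s - k * m) = ca A (s - k * m - m) - ca A (s - k * m) := ca_mul A m _
      have h4 : s - ((k + 1 : ℕ) : ℤ) * m = s - k * m - m := by push_cast; ring
      rw [h4]
      push_cast
      linarith
  have h5 := hk2 (2 * H + 1) le_rfl
  have h6 := abs_le.1 (ca_bound hA (s - ((2 * H + 1 : ℕ) : ℤ) * m))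
  have h7 := abs_le.1 (ca_bound hA s)
  push_cast at h5 h6
  by_contra hne
  have hH : (0 : ℤ) ≤ H := Int.natCast_nonneg H
  rcases lt_or_gt_of_ne hne with h | h
  · have : d s ≤ -1 := by omega
    nlinarith [h6.1, h6.2, h7.1, h7.2]
  · have : 1 ≤ d s := by omega
    nlinarith [h6.1, h6.2, h7.1, h7.2]

/-- The `L¹` norm of the windowed polynomial. -/
theorem l1_le {w : ℝ → ℂ} (hw : Continuous w) {α l ρ W : ℝ} (hρ : 0 < ρ) (hρ1 : ρ ≤ 1)
    (hl : ρ ≤ l / 2) (hsupp : ∀ x ∈ Set.Icc (-Real.pi) Real.pi, ρ ≤ |x| → w x = 0) (hW0 : 0 < W)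
    (hW : ∀ x ∈ Set.Icc (-Real.pi) Real.pi, ‖w x‖ ≤ W) (A : ℤ[X]) :
    ∫ x in (-Real.pi)..Real.pi, ‖FF A (α + l / 2) w x‖ ≤
      W * ∫ θ in α..(α + l), ‖aeval (Complex.exp ((θ : ℂ) * I)) A‖ := by
  have hpi := Real.pi_pos
  set c : ℝ := α + l / 2 with hc
  have hFc := FF_cont A c hw
  have hgc : Continuous fun θ : ℝ => ‖aeval (Complex.exp ((θ : ℂ) * I)) A‖ :=
    (((Polynomial.continuous_aeval A).comp (by fun_prop :
      Continuous fun θ : ℝ => Complex.exp ((θ : ℂ) * I))).norm)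
  have key : ∀ T : ℝ, 0 < T → ∫ x in (-Real.pi)..Real.pi, ‖FF A c w x‖ ≤
      W * (∫ θ in α..(α + l), ‖aeval (Complex.exp ((θ : ℂ) * I)) A‖) + 2 * Real.pi * W * T := by
    intro T hT
    have h1 := excess_le hw hρ hρ1 hl hsupp hW0 hW hT A (α := α) (l := l)
    have h2 : ∫ x in (-Real.pi)..Real.pi, ‖FF A c w x‖ ≤
        ∫ x in (-Real.pi)..Real.pi, (max (‖FF A c w x‖ - W * T) 0 + W * T) := by
      refine intervalIntegral.integral_mono_on (by linarith) (hFc.norm.intervalIntegrable _ _)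
        ((((hFc.norm.sub continuous_const).max continuous_const).add
          continuous_const).intervalIntegrable _ _) fun x _ => ?_
      have := le_max_left (‖FF A c w x‖ - W * T) 0
      linarith
    have i1 : IntervalIntegrable (fun x => max (‖FF A c w x‖ - W * T) 0) volume (-Real.pi) Real.pi :=
      ((hFc.norm.sub continuous_const).max continuous_const).intervalIntegrable _ _
    rw [intervalIntegral.integral_add i1 intervalIntegrable_const, intervalIntegral.integral_const,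
      smul_eq_mul] at h2
    have h3 : ∫ θ in α..(α + l), max (‖aeval (Complex.exp ((θ : ℂ) * I)) A‖ - T) 0 ≤
        ∫ θ in α..(α + l), ‖aeval (Complex.exp ((θ : ℂ) * I)) A‖ := by
      refine intervalIntegral.integral_mono_on (by linarith)
        (((hgc.sub continuous_const).max continuous_const).intervalIntegrable _ _)
        (hgc.intervalIntegrable _ _) fun θ _ => ?_
      exact max_le (by linarith) (norm_nonneg _)
    have h4 : W * ∫ θ in α..(α + l), max (‖aeval (Complex.exp ((θ : ℂ) * I)) A‖ - T) 0 ≤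
        W * ∫ θ in α..(α + l), ‖aeval (Complex.exp ((θ : ℂ) * I)) A‖ := by gcongr
    have h5 : (Real.pi - -Real.pi) * (W * T) = 2 * Real.pi * W * T := by ring
    linarith
  refine le_of_forall_pos_le_add fun ε hε => ?_
  have h6 := key (ε / (2 * Real.pi * W)) (by positivity)
  have h7 : 2 * Real.pi * W * (ε / (2 * Real.pi * W)) = ε := by field_simp
  rw [h7] at h6
  exact h6

theorem l1_mul (A : ℤ[X]) (m : ℕ) {α l : ℝ} (hl : 0 < l) :
    ∫ θ in α..(α + l), ‖aeval (Complex.exp ((θ : ℂ) * I)) ((X ^ m - 1) * A)‖ ≤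
      2 * ∫ θ in α..(α + l), ‖aeval (Complex.exp ((θ : ℂ) * I)) A‖ := by
  have hgc : ∀ A : ℤ[X], Continuous fun θ : ℝ => ‖aeval (Complex.exp ((θ : ℂ) * I)) A‖ := fun A =>
    (((Polynomial.continuous_aeval A).comp (by fun_prop :
      Continuous fun θ : ℝ => Complex.exp ((θ : ℂ) * I))).norm)
  rw [← intervalIntegral.integral_const_mul]
  refine intervalIntegral.integral_mono_on (by linarith) ((hgc _).intervalIntegrable _ _)
    ((continuous_const.mul (hgc A)).intervalIntegrable _ _) fun θ _ => ?_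
  rw [map_mul, norm_mul]
  gcongr
  rw [map_sub, map_pow, aeval_X, map_one]
  calc ‖Complex.exp ((θ : ℂ) * I) ^ m - 1‖ ≤ ‖Complex.exp ((θ : ℂ) * I) ^ m‖ + ‖(1 : ℂ)‖ :=
        norm_sub_le _ _
    _ = 2 := by
        rw [norm_pow, Complex.norm_exp_ofReal_mul_I, one_pow, norm_one]
        norm_num

/-- The windowed coefficients in terms of the window. -/
theorem fc_FF_le {w : ℝ → ℂ} (hw : Continuous w) (c : ℝ) {D : ℤ[X]} {H : ℕ}
    (hD : ∀ n, |D.coeff n| ≤ H) (s : ℤ) :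
    ‖fc (FF D c w) s‖ ≤ ∑ n ∈ D.support, H * ‖fc w (s - (n : ℤ))‖ := by
  have h1 := twisted hw D c s
  have h2 : ‖fc (FF D c w) s‖ = ‖Complex.exp (-((s : ℂ) * (c : ℂ) * I)) * fc (FF D c w) s‖ := by
    rw [norm_mul, norm_exp_aux, one_mul]
  rw [h2, h1]
  have h3 : ∑ j ∈ range (D.natDegree + 1), ((ca D (j : ℤ) : ℤ) : ℂ) * vv c w (s - (j : ℤ)) =
      ∑ j ∈ D.support, ((ca D (j : ℤ) : ℤ) : ℂ) * vv c w (s - (j : ℤ)) := by
    refine (sum_subset ?_ ?_).symm
    · intro n hn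
      exact mem_range_succ_iff.2 (le_natDegree_of_mem_supp n hn)
    · intro n _ hn
      rw [ca_nat, notMem_support_iff.1 hn]
      simp
  rw [h3]
  refine norm_sum_le_of_le _ fun n _ => ?_
  rw [norm_mul, norm_vv, Complex.norm_intCast]
  gcongr
  exact_mod_cast ca_bound hD n

/-- Weighted sums of the windowed coefficients. -/
theorem weighted_sum {w : ℝ → ℂ} (hw : Continuous w)
    (hβ : Summable fun k : ℤ => 4 * (1 + 3 * |(k : ℝ)|) * ‖fc w k‖) (c : ℝ) {D : ℤ[X]} {H : ℕ}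
    (hD : ∀ n, |D.coeff n| ≤ H) (T Λ : Finset ℤ) :
    ∑ s ∈ Λ, wt T s * ‖fc (FF D c w) s‖ ≤
      (H * ∑' k : ℤ, 4 * (1 + 3 * |(k : ℝ)|) * ‖fc w k‖) * ∑ n ∈ D.support, wt T (n : ℤ) := by
  set Bw := ∑' k : ℤ, 4 * (1 + 3 * |(k : ℝ)|) * ‖fc w k‖ with hBw
  calc ∑ s ∈ Λ, wt T s * ‖fc (FF D c w) s‖
      ≤ ∑ s ∈ Λ, wt T s * ∑ n ∈ D.support, H * ‖fc w (s - (n : ℤ))‖ := by
        refine sum_le_sum fun s _ => ?_
        have := wt_pos T s
        gcongr
        exact fc_FF_le hw c hD s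
    _ = ∑ n ∈ D.support, ∑ s ∈ Λ, wt T s * (H * ‖fc w (s - (n : ℤ))‖) := by
        simp only [mul_sum]
        rw [sum_comm]
    _ ≤ ∑ n ∈ D.support, (H * Bw) * wt T (n : ℤ) := by
        refine sum_le_sum fun n _ => ?_
        have hwn := wt_pos T (n : ℤ)
        calc ∑ s ∈ Λ, wt T s * (H * ‖fc w (s - (n : ℤ))‖)
            ≤ ∑ s ∈ Λ, (H * wt T (n : ℤ)) *
                (4 * (1 + 3 * |((s - (n : ℤ) : ℤ) : ℝ)|) * ‖fc w (s - (n : ℤ))‖) := by
              refine sum_le_sum fun s _ => ?_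
              have h1 := wt_shift T (n : ℤ) s
              calc wt T s * (H * ‖fc w (s - (n : ℤ))‖) ≤
                  (4 * (1 + 3 * |((s - (n : ℤ) : ℤ) : ℝ)|) * wt T (n : ℤ)) *
                    (H * ‖fc w (s - (n : ℤ))‖) := by gcongr
                _ = _ := by ring
          _ = (H * wt T (n : ℤ)) * ∑ k ∈ Λ.image (fun s => s - (n : ℤ)),
                (4 * (1 + 3 * |(k : ℝ)|) * ‖fc w k‖) := by
              rw [sum_image (fun a _ b _ h => by simpa using h), mul_sum]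
          _ ≤ (H * wt T (n : ℤ)) * Bw := by
              gcongr
              exact hβ.sum_le_tsum _ fun k _ => by positivity
          _ = (H * Bw) * wt T (n : ℤ) := by ring
    _ = (H * Bw) * ∑ n ∈ D.support, wt T (n : ℤ) := by rw [mul_sum]

end Pool.Agent.Helper13.SZ
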