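import Pool.Agent.Helper13.SZ.L1

/-!
# The `L¹` theorem on an arc: assembly
-/

namespace Pool.Agent.Helper13.SZ

open Polynomial Complex Finset MeasureTheory Filter

theorem supp_weight {D : ℤ[X]} {T : Finset ℤ} {L : ℕ}
    (h : ∀ n ∈ D.support, ∃ t ∈ T, (n : ℤ) - L ≤ t ∧ t ≤ n) :
    ∑ n ∈ D.support, wt T (n : ℤ) ≤
      (((L : ℝ) + 1) * (4 * (1 + 3 * (L : ℝ)))) * ∑ t ∈ T, wt T t := by
  classical
  choose! τ hτ using h
  rw [← sum_fiberwise_of_maps_to (s := D.support) (t := T) (g := τ) (fun n hn => (hτ n hn).1)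
    (fun n => wt T (n : ℤ)), mul_sum]
  refine sum_le_sum fun t _ => ?_
  have hwt := wt_pos T t
  have hcard : (D.support.filter (fun n => τ n = t)).card ≤ L + 1 := by
    have h1 : (D.support.filter (fun n => τ n = t)).card ≤ (Icc t (t + L)).card := by
      refine card_le_card_of_injOn (fun n : ℕ => (n : ℤ)) ?_ ?_
      · intro n hn
        have hn' : n ∈ D.support ∧ τ n = t := by simpa using hn
        have h2 := hτ n hn'.1
        rw [hn'.2] at h2
        simp only [coe_Icc, Set.mem_Icc]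
        omega
      · exact fun a _ b _ h => by exact_mod_cast (show (a : ℤ) = (b : ℤ) from h)
    rw [Int.card_Icc] at h1
    omega
  calc ∑ n ∈ D.support.filter (fun n => τ n = t), wt T (n : ℤ)
      ≤ ∑ _n ∈ D.support.filter (fun n => τ n = t), (4 * (1 + 3 * (L : ℝ))) * wt T t := by
        refine sum_le_sum fun n hn => ?_
        rw [mem_filter] at hn
        have h2 := hτ n hn.1
        rw [hn.2] at h2
        have h3 := wt_shift T t (n : ℤ)
        have h4 : |(((n : ℤ) - t : ℤ) : ℝ)| ≤ L := by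
          have : |((n : ℤ) - t)| ≤ (L : ℤ) := by
            rw [abs_le]
            omega
          exact_mod_cast this
        calc wt T (n : ℤ) ≤ 4 * (1 + 3 * |(((n : ℤ) - t : ℤ) : ℝ)|) * wt T t := h3
          _ ≤ (4 * (1 + 3 * (L : ℝ))) * wt T t := by gcongr
    _ = (D.support.filter (fun n => τ n = t)).card * ((4 * (1 + 3 * (L : ℝ))) * wt T t) := by
        rw [sum_const, nsmul_eq_mul]
    _ ≤ ((L : ℝ) + 1) * ((4 * (1 + 3 * (L : ℝ))) * wt T t) := by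
        gcongr
        exact_mod_cast hcard
    _ = _ := by ring

/-- The lower bound for the `L¹` norm by duality. -/
theorem dual_bound {w : ℝ → ℂ} (hw : Continuous w)
    (hβ : Summable fun k : ℤ => 4 * (1 + 3 * |(k : ℝ)|) * ‖fc w k‖) {Hd L : ℕ} {η : ℝ}
    (hη0 : 0 < η) (hη1 : η ≤ 1)
    (hη : 20 * η * ((Hd * ∑' k : ℤ, 4 * (1 + 3 * |(k : ℝ)|) * ‖fc w k‖) *
      (((L : ℝ) + 1) * (4 * (1 + 3 * (L : ℝ))))) ≤ 1 / 16) (c : ℝ) {D : ℤ[X]}
    (hD : ∀ n, |D.coeff n| ≤ Hd) {T : Finset ℤ} (hT : ∀ t ∈ T, 1 / 8 ≤ ‖fc (FF D c w) t‖)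
    (hsupp : ∀ n ∈ D.support, ∃ t ∈ T, (n : ℤ) - L ≤ t ∧ t ≤ n) :
    (1 / 16) * ∑ t ∈ T, wt T t ≤
      (2 / η) * ((2 * Real.pi)⁻¹ * ∫ x in (-Real.pi)..Real.pi, ‖FF D c w x‖) := by
  have hpi := Real.pi_pos
  set F := FF D c w with hF
  have hFc : Continuous F := FF_cont D c hw
  set e : ℤ → ℂ := fun t => fc F t / (‖fc F t‖ : ℂ) with he
  have he1 : ∀ t, ‖e t‖ ≤ 1 := by
    intro t
    rw [he]
    simp only [norm_div, Complex.norm_real, norm_norm]
    exact div_self_le_one _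
  have hee : ∀ t, (fc F t * (starRingEnd ℂ) (e t)).re = ‖fc F t‖ := by
    intro t
    by_cases h0 : fc F t = 0
    · rw [h0]; simp
    · have hn : (‖fc F t‖ : ℂ) ≠ 0 := by
        exact_mod_cast (norm_pos_iff.2 h0).ne'
      rw [he]
      simp only [map_div₀, Complex.conj_ofReal]
      rw [← mul_div_assoc, Complex.mul_conj, Complex.normSq_eq_norm_sq]
      have : (((‖fc F t‖ ^ 2 : ℝ) : ℂ) / (‖fc F t‖ : ℂ)) = ((‖fc F t‖ : ℝ) : ℂ) := by
        push_cast
        field_simp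
      rw [this, Complex.ofReal_re]
  obtain ⟨G, hGc, hGn, hG⟩ := test_fn T he1 hη0 hη1
  have hpar := parseval hFc hGc
  set K := (Hd * ∑' k : ℤ, 4 * (1 + 3 * |(k : ℝ)|) * ‖fc w k‖) *
      (((L : ℝ) + 1) * (4 * (1 + 3 * (L : ℝ)))) with hK
  set M := ∑ t ∈ T, wt T t with hM
  have hM0 : 0 ≤ M := sum_nonneg fun t _ => (wt_pos T t).le
  have hpt : ∀ s : ℤ, (if s ∈ T then (1 / 8) * wt T s else 0) - 20 * η * (wt T s * ‖fc F s‖) ≤
      (fc F s * (starRingEnd ℂ) (fc G s)).re := by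
    intro s
    have hws := wt_pos T s
    have h1 := hG s
    set g0 : ℂ := if s ∈ T then (wt T s : ℂ) * e s else 0 with hg0
    have h2 : (fc F s * (starRingEnd ℂ) (fc G s)).re =
        (fc F s * (starRingEnd ℂ) g0).re + (fc F s * (starRingEnd ℂ) (fc G s - g0)).re := by
      rw [← Complex.add_re, ← mul_add, ← map_add]
      congr 3
      ring
    have h3 : -(20 * η * (wt T s * ‖fc F s‖)) ≤ (fc F s * (starRingEnd ℂ) (fc G s - g0)).re := by
      have h4 : |(fc F s * (starRingEnd ℂ) (fc G s - g0)).re| ≤ ‖fc F s‖ * (20 * η * wt T s) := by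
        refine (Complex.abs_re_le_norm _).trans ?_
        rw [norm_mul, RCLike.norm_conj]
        gcongr
      have := (abs_le.1 h4).1
      linarith
    have h5 : (if s ∈ T then (1 / 8) * wt T s else 0) ≤ (fc F s * (starRingEnd ℂ) g0).re := by
      rw [hg0]
      split_ifs with hs
      · rw [map_mul, Complex.conj_ofReal, mul_left_comm, Complex.re_ofReal_mul, hee, mul_comm]
        gcongr
        exact hT s hs
      · simp
    linarith
  have hlow : ∀ Λ : Finset ℤ, T ⊆ Λ →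
      (1 / 16) * M ≤ ∑ s ∈ Λ, (fc F s * (starRingEnd ℂ) (fc G s)).re := by
    intro Λ hΛ
    have h1 : ∑ s ∈ Λ, ((if s ∈ T then (1 / 8) * wt T s else 0) - 20 * η * (wt T s * ‖fc F s‖)) ≤
        ∑ s ∈ Λ, (fc F s * (starRingEnd ℂ) (fc G s)).re := sum_le_sum fun s _ => hpt s
    rw [sum_sub_distrib, sum_ite_mem, inter_eq_right.2 hΛ, ← mul_sum, ← mul_sum] at h1
    have h2 := weighted_sum hw hβ c hD T Λ
    have h3 := supp_weight hsupp
    have hB0 : 0 ≤ Hd * ∑' k : ℤ, 4 * (1 + 3 * |(k : ℝ)|) * ‖fc w k‖ :=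
      mul_nonneg (Nat.cast_nonneg _) (tsum_nonneg fun k => by positivity)
    have h4 : ∑ s ∈ Λ, wt T s * ‖fc F s‖ ≤ K * M := by
      refine h2.trans ?_
      calc _ ≤ (Hd * ∑' k : ℤ, 4 * (1 + 3 * |(k : ℝ)|) * ‖fc w k‖) *
            ((((L : ℝ) + 1) * (4 * (1 + 3 * (L : ℝ)))) * ∑ t ∈ T, wt T t) := by gcongr
        _ = K * M := by rw [hK, hM]; ring
    have h5 : 20 * η * ∑ s ∈ Λ, wt T s * ‖fc F s‖ ≤ (1 / 16) * M := by
      calc _ ≤ 20 * η * (K * M) := by gcongr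
        _ = (20 * η * K) * M := by ring
        _ ≤ (1 / 16) * M := by gcongr
    linarith
  have hge : (1 / 16) * M ≤ (2 * Real.pi)⁻¹ * ∫ x in (-Real.pi)..Real.pi,
      (F x * (starRingEnd ℂ) (G x)).re := by
    refine ge_of_tendsto hpar ?_
    filter_upwards [eventually_ge_atTop T] with Λ hΛ
    exact hlow Λ hΛ
  refine hge.trans ?_
  have hup : ∫ x in (-Real.pi)..Real.pi, (F x * (starRingEnd ℂ) (G x)).re ≤
      ∫ x in (-Real.pi)..Real.pi, (2 / η) * ‖F x‖ := by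
    refine intervalIntegral.integral_mono_on (by linarith)
      ((Complex.continuous_re.comp (hFc.mul (Complex.continuous_conj.comp
        hGc))).intervalIntegrable _ _) ((continuous_const.mul hFc.norm).intervalIntegrable _ _)
      fun x _ => ?_
    calc (F x * (starRingEnd ℂ) (G x)).re ≤ ‖F x * (starRingEnd ℂ) (G x)‖ := Complex.re_le_norm _
      _ = ‖G x‖ * ‖F x‖ := by rw [norm_mul, RCLike.norm_conj, mul_comm]
      _ ≤ (2 / η) * ‖F x‖ := by
          gcongr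
          exact hGn x
  rw [intervalIntegral.integral_const_mul] at hup
  calc _ ≤ (2 * Real.pi)⁻¹ * ((2 / η) * ∫ x in (-Real.pi)..Real.pi, ‖F x‖) := by gcongr
    _ = _ := by ring

/-- Let `H` be a height and `l` the length of an arc.  There are `m ≥ 1` and `C` such that for every
integer polynomial `A` of height at most `H` and every arc of length `l` the polynomial
`(X ^ m - 1) A` has at most `C exp (C ∫ |A|)` nonzero coefficients, the integral being over the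
arc. -/
theorem arc_l1 (H : ℕ) {l : ℝ} (hl : 0 < l) : ∃ (m : ℕ) (C : ℝ), 0 < m ∧ 0 < C ∧
    ∀ A : ℤ[X], (∀ n, |A.coeff n| ≤ H) → ∀ α : ℝ, (((X ^ m - 1) * A).support.card : ℝ) ≤
      C * Real.exp (C * ∫ θ in α..(α + l), ‖aeval (Complex.exp ((θ : ℂ) * I)) A‖) := by
  have hpi := Real.pi_pos
  set ρ : ℝ := min (l / 2) 1 with hρ
  have hρ0 : 0 < ρ := lt_min (by linarith) one_pos
  have hρ1 : ρ ≤ 1 := min_le_right _ _
  have hρ2 : ρ ≤ l / 2 := min_le_left _ _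
  set δ : ℝ := 1 / (24 * (((2 * H : ℕ) : ℝ) + 1)) with hδ
  have hδ0 : 0 < δ := by positivity
  obtain ⟨w, C, hw3, hwp, hsupp, h0, hneg, hpos⟩ := window3 hρ0 hρ1 hδ0
  have hw : Continuous w := hw3.continuous
  have hβ := summable_beta hw3 hwp
  obtain ⟨W0, hW0⟩ := (isCompact_Icc (a := -Real.pi) (b := Real.pi)).exists_bound_of_continuousOn
    hw.continuousOn
  set W : ℝ := max W0 1 with hWdef
  have hWpos : 0 < W := lt_of_lt_of_le one_pos (le_max_right _ _)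
  have hW : ∀ x ∈ Set.Icc (-Real.pi) Real.pi, ‖w x‖ ≤ W := fun x hx =>
    (hW0 x hx).trans (le_max_left _ _)
  obtain ⟨N, hN⟩ : ∃ N : ℕ, N = max 1 ⌈8 * (((2 * H : ℕ) : ℝ) * C)⌉₊ := ⟨_, rfl⟩
  have hN1 : 1 ≤ N := by rw [hN]; exact le_max_left _ _
  have hN0 : (0 : ℝ) < N := by exact_mod_cast hN1
  have hNC : ((2 * H : ℕ) : ℝ) * C / N ≤ 1 / 8 := by
    rw [div_le_iff₀ hN0]
    have h1 : 8 * (((2 * H : ℕ) : ℝ) * C) ≤ N :=
      (Nat.le_ceil _).trans (by rw [hN]; exact_mod_cast le_max_right _ _)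
    linarith
  have hδH : 3 * (((2 * H : ℕ) : ℝ) * δ) ≤ 1 / 8 := by
    rw [hδ]
    have h1 : 3 * (((2 * H : ℕ) : ℝ) * (1 / (24 * (((2 * H : ℕ) : ℝ) + 1)))) =
        (1 / 8) * (((2 * H : ℕ) : ℝ) / (((2 * H : ℕ) : ℝ) + 1)) := by
      field_simp
      ring
    rw [h1]
    have h2 : ((2 * H : ℕ) : ℝ) / (((2 * H : ℕ) : ℝ) + 1) ≤ 1 := by
      rw [div_le_one (by positivity)]
      linarith
    linarith
  obtain ⟨P, hP⟩ : ∃ P : ℕ, P = (2 * (2 * H) + 1) ^ N := ⟨_, rfl⟩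
  obtain ⟨m, hm⟩ : ∃ m : ℕ, m = P.factorial := ⟨_, rfl⟩
  have hm0 : 0 < m := by rw [hm]; exact Nat.factorial_pos _
  obtain ⟨L, hL⟩ : ∃ L : ℕ, L = (2 * H + 1) * m + P := ⟨_, rfl⟩
  obtain ⟨K, hK⟩ : ∃ K : ℝ, K = (((2 * H : ℕ) : ℝ) * ∑' k : ℤ,
      4 * (1 + 3 * |(k : ℝ)|) * ‖fc w k‖) * (((L : ℝ) + 1) * (4 * (1 + 3 * (L : ℝ)))) := ⟨_, rfl⟩
  have hK0 : 0 ≤ K := by
    have h1 : 0 ≤ ∑' k : ℤ, 4 * (1 + 3 * |(k : ℝ)|) * ‖fc w k‖ := tsum_nonneg fun k => by positivity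
    rw [hK]
    positivity
  obtain ⟨η, hη⟩ : ∃ η : ℝ, η = 1 / (320 * K + 1) := ⟨_, rfl⟩
  have hη0 : 0 < η := by rw [hη]; positivity
  have hη1 : η ≤ 1 := by
    rw [hη, div_le_one (by positivity)]
    linarith
  have hηK : 20 * η * K ≤ 1 / 16 := by
    rw [hη, mul_one_div, div_mul_eq_mul_div, div_le_iff₀ (by positivity)]
    linarith
  rw [hK] at hηK
  obtain ⟨C1, hC1⟩ : ∃ C1 : ℝ, C1 = 48 * (2 / η) * ((2 * Real.pi)⁻¹ * (W * 2)) := ⟨_, rfl⟩
  have hC10 : 0 < C1 := by rw [hC1]; positivity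
  refine ⟨m, max ((L : ℝ) + 1) C1, hm0, lt_of_lt_of_le hC10 (le_max_right _ _), ?_⟩
  intro A hA α
  set c : ℝ := α + l / 2 with hc
  set D : ℤ[X] := (X ^ m - 1) * A with hD
  have hDb : ∀ n, |D.coeff n| ≤ ((2 * H : ℕ) : ℤ) := coeff_bound2 hA m
  set I1 : ℝ := ∫ θ in α..(α + l), ‖aeval (Complex.exp ((θ : ℂ) * I)) A‖ with hI1
  have hI0 : 0 ≤ I1 := intervalIntegral.integral_nonneg (by linarith) fun θ _ => norm_nonneg _
  classical
  obtain ⟨T, hT⟩ : ∃ T : Finset ℤ, T = (Icc (-(L : ℤ)) D.natDegree).filter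
    (fun t => 1 / 8 ≤ ‖fc (FF D c w) t‖) := ⟨_, rfl⟩
  have hTsupp : ∀ n ∈ D.support, ∃ t ∈ T, (n : ℤ) - L ≤ t ∧ t ≤ n := by
    intro n hn
    have hne : ca D (n : ℤ) ≠ 0 := by
      rw [ca_nat]
      exact mem_support_iff.1 hn
    have hbad : ¬ ∀ t : ℤ, (n : ℤ) - (2 * H + 1) * m - P ≤ t → t ≤ n →
        ‖fc (FF D c w) t‖ < 1 / 8 := by
      intro hall
      exact hne (zero_of_good hA hP hm (good := fun t => ‖fc (FF D c w) t‖ < 1 / 8)
        (fun s s' hs hs' hp => determined hw c h0 hneg hpos hDb hN1 hδH hNC s s' hs hs' hp) hall)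
    push Not at hbad
    obtain ⟨t, ht1, ht2, ht3⟩ := hbad
    have hnd : n ≤ D.natDegree := le_natDegree_of_mem_supp n hn
    have hLc : (L : ℤ) = (2 * H + 1) * m + P := by rw [hL]; push_cast; ring
    have hlow : (n : ℤ) - L ≤ t := by rw [hLc]; linarith
    refine ⟨t, ?_, hlow, ht2⟩
    rw [hT, mem_filter, mem_Icc]
    refine ⟨⟨?_, ?_⟩, ht3⟩
    · omega
    · omega
  have hdual := dual_bound hw hβ hη0 hη1 hηK c hDb (T := T)
    (fun t ht => by rw [hT] at ht; exact (mem_filter.1 ht).2) hTsupp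
  have hl1 := l1_le hw hρ0 hρ1 hρ2 hsupp hWpos hW D (α := α) (l := l)
  have hl2 := l1_mul A m hl (α := α)
  set M := ∑ t ∈ T, wt T t with hM
  have hMle : M ≤ 16 * ((2 / η) * ((2 * Real.pi)⁻¹ * (W * (2 * I1)))) := by
    have h1 : ∫ x in (-Real.pi)..Real.pi, ‖FF D c w x‖ ≤ W * (2 * I1) := by
      refine hl1.trans ?_
      gcongr
    have h2 : (1 / 16) * M ≤ (2 / η) * ((2 * Real.pi)⁻¹ * (W * (2 * I1))) := by
      refine hdual.trans ?_
      gcongr
    linarith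
  have hlog := log_le_sum T
  have hTe : (T.card : ℝ) ≤ Real.exp (C1 * I1) := by
    have h1 : Real.log (3 * (T.card : ℝ) + 1) ≤ C1 * I1 := by
      have h2 : C1 * I1 = 3 * (16 * ((2 / η) * ((2 * Real.pi)⁻¹ * (W * (2 * I1))))) := by
        rw [hC1]; ring
      rw [h2]
      linarith
    have h3 : 3 * (T.card : ℝ) + 1 ≤ Real.exp (C1 * I1) :=
      (Real.log_le_iff_le_exp (by positivity)).1 h1
    have h4 : (0 : ℝ) ≤ T.card := Nat.cast_nonneg _
    linarith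
  have hcover : D.support.image (fun n : ℕ => (n : ℤ)) ⊆ T.biUnion (fun t => Icc t (t + L)) := by
    intro z hz
    rw [mem_image] at hz
    obtain ⟨n, hn, rfl⟩ := hz
    obtain ⟨t, ht, h1, h2⟩ := hTsupp n hn
    rw [mem_biUnion]
    exact ⟨t, ht, mem_Icc.2 ⟨h2, by omega⟩⟩
  have hcard : D.support.card ≤ T.card * (L + 1) := by
    have h1 : (D.support.image (fun n : ℕ => (n : ℤ))).card = D.support.card :=
      card_image_of_injective _ Nat.cast_injective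
    rw [← h1]
    refine (card_le_card hcover).trans ?_
    refine card_biUnion_le_card_mul _ _ _ fun t _ => ?_
    rw [Int.card_Icc]
    omega
  have hcardR : (D.support.card : ℝ) ≤ (T.card : ℝ) * ((L : ℝ) + 1) := by
    exact_mod_cast hcard
  calc (D.support.card : ℝ) ≤ (T.card : ℝ) * ((L : ℝ) + 1) := hcardR
    _ ≤ Real.exp (C1 * I1) * ((L : ℝ) + 1) := by gcongr
    _ = ((L : ℝ) + 1) * Real.exp (C1 * I1) := by ring
    _ ≤ max ((L : ℝ) + 1) C1 * Real.exp (max ((L : ℝ) + 1) C1 * I1) := by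
        gcongr
        · exact le_max_left _ _
        · exact le_max_right _ _

end Pool.Agent.Helper13.SZ
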