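import Mathlib

/-!
# Combinatorics: a bounded integer sequence determined by its recent past is eventually periodic on
every long enough block
-/

namespace Pool.Agent.Helper13.SZ

open Finset

/-- Splitting a sum over a symmetric interval. -/
theorem sum_Icc_split (f : ℤ → ℂ) (s : ℤ) (L : ℕ) :
    ∑ j ∈ Icc (s - L) (s + L), f j =
      f s + ∑ k ∈ range L, f (s - (k + 1)) + ∑ k ∈ range L, f (s + (k + 1)) := by
  induction L with
  | zero => simp
  | succ L ih =>
    have h1 : Icc (s - ((L + 1 : ℕ) : ℤ)) (s + ((L + 1 : ℕ) : ℤ)) =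
        insert (s - (L + 1)) (insert (s + (L + 1)) (Icc (s - L) (s + L))) := by
      ext j
      simp only [mem_Icc, mem_insert]
      push_cast
      omega
    have h2 : s - ((L : ℤ) + 1) ∉ insert (s + ((L : ℤ) + 1)) (Icc (s - L) (s + L)) := by
      simp only [mem_Icc, mem_insert]
      omega
    have h3 : s + ((L : ℤ) + 1) ∉ Icc (s - L) (s + L) := by
      simp only [mem_Icc]
      omega
    rw [h1, sum_insert h2, sum_insert h3, ih, sum_range_succ, sum_range_succ]
    ring

/-- A finitely supported sum over an interval of length `n`. -/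
theorem sum_range_eq_split (f : ℤ → ℂ) (n : ℕ) (hf : ∀ j, (j < 0 ∨ (n : ℤ) ≤ j) → f j = 0) (s : ℤ)
    {L : ℕ} (hL : |s| + n ≤ L) :
    ∑ j ∈ range n, f (j : ℤ) =
      f s + ∑ k ∈ range L, f (s - (k + 1)) + ∑ k ∈ range L, f (s + (k + 1)) := by
  rw [← sum_Icc_split]
  have h1 : ∑ j ∈ range n, f (j : ℤ) = ∑ j ∈ (range n).image (fun j : ℕ => (j : ℤ)), f j := by
    rw [sum_image]
    intro a _ b _ h
    exact_mod_cast (show (a : ℤ) = (b : ℤ) from h)
  rw [h1]
  have hs1 := le_abs_self s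
  have hs2 := neg_abs_le s
  refine sum_subset ?_ ?_
  · intro j hj
    rw [mem_image] at hj
    obtain ⟨i, hi, rfl⟩ := hj
    rw [mem_range] at hi
    rw [mem_Icc]
    omega
  · intro j _ hj
    refine hf j ?_
    by_contra hcon
    push Not at hcon
    refine hj (mem_image.2 ⟨j.toNat, mem_range.2 ?_, ?_⟩)
    · omega
    · omega

theorem tail_sum {N : ℕ} (hN : 1 ≤ N) (L : ℕ) :
    (∑ k ∈ Ico N L, 1 / ((k : ℝ) + 1) ^ 2 : ℝ) ≤ 1 / (N : ℝ) := by
  have hN0 : (0 : ℝ) < N := by exact_mod_cast hN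
  rcases le_total L N with h | h
  · rw [Ico_eq_empty_of_le h, sum_empty]
    positivity
  · have key : ∀ L : ℕ, N ≤ L →
        (∑ k ∈ Ico N L, 1 / ((k : ℝ) + 1) ^ 2 : ℝ) ≤ 1 / (N : ℝ) - 1 / (L : ℝ) := by
      intro L hL
      induction L, hL using Nat.le_induction with
      | base => simp
      | succ L hL ih =>
        rw [sum_Ico_succ_top hL]
        have hL0 : (0 : ℝ) < L := lt_of_lt_of_le hN0 (by exact_mod_cast hL)
        have h1 : 1 / ((L : ℝ) + 1) ^ 2 ≤ 1 / (L : ℝ) - 1 / ((L + 1 : ℕ) : ℝ) := by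
          have h2 : 1 / (L : ℝ) - 1 / ((L + 1 : ℕ) : ℝ) = 1 / ((L : ℝ) * (L + 1)) := by
            push_cast
            field_simp
            ring
          rw [h2]
          refine one_div_le_one_div_of_le (by positivity) ?_
          nlinarith
        linarith
    have h1 := key L h
    have h2 : (0 : ℝ) ≤ 1 / L := by positivity
    linarith

theorem full_sum (L : ℕ) : (∑ k ∈ range L, 1 / ((k : ℝ) + 1) ^ 2 : ℝ) ≤ 2 := by
  rcases Nat.eq_zero_or_pos L with h | h
  · subst h; simp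
  · rw [range_eq_Ico, sum_eq_sum_Ico_succ_bot h]
    have := tail_sum (le_refl 1) L
    norm_num at this ⊢
    linarith

/-- The pigeonhole lemma. -/
theorem pigeon {a : ℤ → ℤ} {H N : ℕ} (ha : ∀ s, |a s| ≤ H) {good : ℤ → Prop}
    (hdet : ∀ s s', good s → good s' → (∀ k : ℕ, k < N → a (s - (k + 1)) = a (s' - (k + 1))) →
      a s = a s') {P m : ℕ} (hP : P = (2 * H + 1) ^ N) (hm : m = P.factorial) {s : ℤ}
    (hs : ∀ t : ℤ, s - m - P ≤ t → t ≤ s → good t) : a (s - m) = a s := by
  set t0 : ℤ := s - m - P with ht0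
  set σ : ℕ → (Fin N → ℤ) := fun i k => a (t0 + i - ((k : ℕ) + 1)) with hσ
  set T : Finset (Fin N → ℤ) := Fintype.piFinset (fun _ : Fin N => Icc (-(H : ℤ)) H) with hT
  have hcard : T.card = P := by
    rw [hT, Fintype.card_piFinset, prod_const, Int.card_Icc, card_univ, Fintype.card_fin, hP]
    congr 1
    omega
  have hmaps : ∀ i ∈ range (P + 1), σ i ∈ T := by
    intro i _
    rw [hT, Fintype.mem_piFinset]
    intro k
    rw [mem_Icc]
    exact abs_le.1 (ha _)
  obtain ⟨i, hi, j, hj, hij, hσij⟩ := exists_ne_map_eq_of_card_lt_of_maps_to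
    (s := range (P + 1)) (t := T) (by rw [hcard, card_range]; omega) hmaps
  -- order them
  obtain ⟨i, j, hilt, hjle, hσij⟩ : ∃ i j : ℕ, i < j ∧ j ≤ P ∧ σ i = σ j := by
    rw [mem_range] at hi hj
    rcases lt_or_gt_of_ne hij with h | h
    · exact ⟨i, j, h, by omega, hσij⟩
    · exact ⟨j, i, h, by omega, hσij.symm⟩
  set d : ℕ := j - i with hd
  have hd1 : 1 ≤ d := by omega
  have hdP : d ≤ P := by omega
  have hdm : d ∣ m := by rw [hm]; exact Nat.dvd_factorial hd1 hdP
  have claim : ∀ q : ℕ, t0 + i + q + d ≤ s + 1 → ∀ k : ℕ, k < N →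
      a (t0 + i + q - (k + 1)) = a (t0 + i + q + d - (k + 1)) := by
    intro q
    induction q with
    | zero =>
      intro _ k hk
      have h1 := congrFun hσij ⟨k, hk⟩
      simp only [hσ] at h1
      have h2 : t0 + (i : ℤ) + ((0 : ℕ) : ℤ) - ((k : ℤ) + 1) = t0 + i - ((k : ℤ) + 1) := by
        push_cast; ring
      have h3 : t0 + (i : ℤ) + ((0 : ℕ) : ℤ) + d - ((k : ℤ) + 1) = t0 + j - ((k : ℤ) + 1) := by
        push_cast; omega
      rw [h2, h3]
      exact h1
    | succ q ih =>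
      intro hq k hk
      have h1 := ih (by push_cast at hq ⊢; omega)
      rcases Nat.eq_zero_or_pos k with h0 | h0
      · subst h0
        have h2 : a (t0 + i + q) = a (t0 + i + q + d) := by
          refine hdet _ _ (hs _ ?_ ?_) (hs _ ?_ ?_) h1
          all_goals push_cast at hq; omega
        have h3 : t0 + (i : ℤ) + ((q + 1 : ℕ) : ℤ) - (((0 : ℕ) : ℤ) + 1) = t0 + i + q := by
          push_cast; ring
        have h4 : t0 + (i : ℤ) + ((q + 1 : ℕ) : ℤ) + d - (((0 : ℕ) : ℤ) + 1) = t0 + i + q + d := by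
          push_cast; ring
        rw [h3, h4]
        exact h2
      · obtain ⟨k', rfl⟩ : ∃ k', k = k' + 1 := ⟨k - 1, by omega⟩
        have h2 := h1 k' (by omega)
        have h3 : t0 + (i : ℤ) + ((q + 1 : ℕ) : ℤ) - (((k' + 1 : ℕ) : ℤ) + 1) =
            t0 + i + q - ((k' : ℤ) + 1) := by push_cast; ring
        have h4 : t0 + (i : ℤ) + ((q + 1 : ℕ) : ℤ) + d - (((k' + 1 : ℕ) : ℤ) + 1) =
            t0 + i + q + d - ((k' : ℤ) + 1) := by push_cast; ring
        rw [h3, h4]
        exact h2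
  have step : ∀ t : ℤ, t0 + i ≤ t → t + d ≤ s → a t = a (t + d) := by
    intro t h1 h2
    obtain ⟨q, hq⟩ : ∃ q : ℕ, t = t0 + i + q := ⟨(t - t0 - i).toNat, by omega⟩
    rw [hq]
    refine hdet _ _ (hs _ ?_ ?_) (hs _ ?_ ?_) (claim q (by omega))
    all_goals omega
  obtain ⟨e, he⟩ := hdm
  have chain : ∀ q : ℕ, q ≤ e → a (s - m + q * d) = a (s - m) := by
    intro q
    induction q with
    | zero => intro _; simp
    | succ q ih =>
      intro hq
      have h1 : ((q : ℤ) + 1) * d ≤ m := by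
        have : (q + 1) * d ≤ m := by rw [he, mul_comm]; exact Nat.mul_le_mul_left d hq
        exact_mod_cast this
      have h2 : (0 : ℤ) ≤ (q : ℤ) * d := by positivity
      have h3 := step (s - m + q * d) (by omega) (by linarith [h1, show ((q : ℤ) + 1) * d = q * d + d by ring])
      have h4 : s - (m : ℤ) + ((q + 1 : ℕ) : ℤ) * d = s - m + q * d + d := by push_cast; ring
      rw [h4, ← h3]
      exact ih (by omega)
  have h1 := chain e le_rfl
  have h2 : s - (m : ℤ) + e * d = s := by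
    have : (m : ℤ) = d * e := by exact_mod_cast he
    rw [this]; ring
  rw [h2] at h1
  exact h1.symm

end Pool.Agent.Helper13.SZ
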