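import Pool.Agent.Helper13.SZ.Window
import Pool.Agent.Helper13.SZ.Sequence

/-!
# Polynomials of bounded height and bounded energy on one arc are sparse up to one factor `X ^ m - 1`
-/

namespace Pool.Agent.Helper13.SZ

open Polynomial Complex Finset

/-- The coefficient sequence extended by zero to `ℤ`. -/
noncomputable def ca (A : ℤ[X]) (s : ℤ) : ℤ := if 0 ≤ s then A.coeff s.toNat else 0

theorem ca_nat (A : ℤ[X]) (n : ℕ) : ca A n = A.coeff n := by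
  rw [ca, if_pos (by positivity), Int.toNat_natCast]

theorem ca_out {A : ℤ[X]} {j : ℤ} (h : j < 0 ∨ ((A.natDegree + 1 : ℕ) : ℤ) ≤ j) : ca A j = 0 := by
  rw [ca]
  split_ifs with h0
  · refine coeff_eq_zero_of_natDegree_lt ?_
    omega
  · rfl

theorem ca_bound {A : ℤ[X]} {H : ℕ} (hA : ∀ n, |A.coeff n| ≤ H) (s : ℤ) : |ca A s| ≤ H := by
  rw [ca]
  split_ifs
  · exact hA _
  · simp

/-- `A(e^{i(x+c)}) w(x)`. -/
noncomputable def FF (A : ℤ[X]) (c : ℝ) (w : ℝ → ℂ) (x : ℝ) : ℂ :=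
  aeval (Complex.exp (((x + c : ℝ) : ℂ) * I)) A * w x

/-- The rotated Fourier coefficients. -/
noncomputable def vv (c : ℝ) (w : ℝ → ℂ) (k : ℤ) : ℂ :=
  Complex.exp (-((k : ℂ) * (c : ℂ) * I)) * fc w k

theorem norm_vv (c : ℝ) (w : ℝ → ℂ) (k : ℤ) : ‖vv c w k‖ = ‖fc w k‖ := by
  rw [vv, norm_mul, norm_exp_aux, one_mul]

theorem vv_zero (c : ℝ) (w : ℝ → ℂ) : vv c w 0 = fc w 0 := by
  simp [vv]

theorem FF_eq (A : ℤ[X]) (c : ℝ) (w : ℝ → ℂ) (x : ℝ) :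
    FF A c w x = (∑ j ∈ range (A.natDegree + 1), ((A.coeff j : ℂ) *
      Complex.exp ((j : ℂ) * (c : ℂ) * I)) * Complex.exp ((j : ℂ) * (x : ℂ) * I)) * w x := by
  rw [FF, aeval_eq_sum_range]
  congr 1
  refine sum_congr rfl fun j _ => ?_
  rw [← Complex.exp_nat_mul, zsmul_eq_mul, mul_assoc, ← Complex.exp_add]
  congr 2
  push_cast
  ring

theorem twisted {w : ℝ → ℂ} (hw : Continuous w) (A : ℤ[X]) (c : ℝ) (s : ℤ) :
    Complex.exp (-((s : ℂ) * (c : ℂ) * I)) * fc (FF A c w) s =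
      ∑ j ∈ range (A.natDegree + 1), ((ca A (j : ℤ) : ℤ) : ℂ) * vv c w (s - (j : ℤ)) := by
  have h1 : FF A c w = fun x : ℝ => (∑ j ∈ range (A.natDegree + 1), ((A.coeff j : ℂ) *
      Complex.exp ((j : ℂ) * (c : ℂ) * I)) * Complex.exp ((j : ℂ) * (x : ℂ) * I)) * w x :=
    funext fun x => FF_eq A c w x
  rw [h1, fc_sum hw (A.natDegree + 1) (fun j => (A.coeff j : ℂ) *
      Complex.exp ((j : ℂ) * (c : ℂ) * I)) s, mul_sum]
  refine sum_congr rfl fun j _ => ?_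
  rw [ca_nat, vv]
  have : Complex.exp (-(((s - (j : ℤ) : ℤ) : ℂ) * (c : ℂ) * I)) =
      Complex.exp (-((s : ℂ) * (c : ℂ) * I)) * Complex.exp ((j : ℂ) * (c : ℂ) * I) := by
    rw [← Complex.exp_add]; congr 1; push_cast; ring
  rw [this]
  ring

theorem local_bound {w : ℝ → ℂ} (hw : Continuous w) (c : ℝ) {δ C : ℝ} (h0 : ‖fc w 0 - 1‖ ≤ δ)
    (hneg : ∀ k : ℤ, k < 0 → ‖fc w k‖ ≤ δ / (k : ℝ) ^ 2)
    (hpos : ∀ k : ℤ, 0 < k → ‖fc w k‖ ≤ C / (k : ℝ) ^ 2) {A : ℤ[X]} {H : ℕ}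
    (hA : ∀ n, |A.coeff n| ≤ H) {N : ℕ} (hN : 1 ≤ N) (s : ℤ) :
    ‖((ca A s : ℤ) : ℂ) + ∑ k ∈ range N, ((ca A (s - (k + 1)) : ℤ) : ℂ) * vv c w (k + 1)‖ ≤
      ‖fc (FF A c w) s‖ + 3 * (H * δ) + H * C / N := by
  have hδ : 0 ≤ δ := (norm_nonneg _).trans h0
  have hC : 0 ≤ C := by
    have := hpos 1 one_pos
    simp only [Int.cast_one, one_pow, div_one] at this
    exact (norm_nonneg _).trans this
  have hcn : ∀ t : ℤ, ‖((ca A t : ℤ) : ℂ)‖ ≤ H := fun t => by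
    rw [Complex.norm_intCast]
    exact_mod_cast ca_bound hA t
  set L : ℕ := s.natAbs + (A.natDegree + 1) + N with hL
  have hsp := sum_range_eq_split (fun j : ℤ => ((ca A j : ℤ) : ℂ) * vv c w (s - j))
    (A.natDegree + 1) (fun j hj => by rw [ca_out hj]; simp) s (L := L)
    (by have := Nat.cast_nonneg (α := ℤ) N; rw [hL]; push_cast; linarith)
  have htw := twisted hw A c s
  rw [hsp] at htw
  have hsub : ∀ k : ℕ, s - (s - ((k : ℤ) + 1)) = (k : ℤ) + 1 := fun k => by ring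
  have hadd : ∀ k : ℕ, s - (s + ((k : ℤ) + 1)) = -((k : ℤ) + 1) := fun k => by ring
  simp only [sub_self, hsub, hadd, vv_zero] at htw
  have hNL : N ≤ L := by omega
  have hsplit : ∑ k ∈ range L, ((ca A (s - ((k : ℤ) + 1)) : ℤ) : ℂ) * vv c w ((k : ℤ) + 1) =
      ∑ k ∈ range N, ((ca A (s - ((k : ℤ) + 1)) : ℤ) : ℂ) * vv c w ((k : ℤ) + 1) +
      ∑ k ∈ Ico N L, ((ca A (s - ((k : ℤ) + 1)) : ℤ) : ℂ) * vv c w ((k : ℤ) + 1) :=
    (sum_range_add_sum_Ico _ hNL).symm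
  rw [hsplit] at htw
  have e1 : ((ca A s : ℤ) : ℂ) + ∑ k ∈ range N, ((ca A (s - (k + 1)) : ℤ) : ℂ) * vv c w (k + 1) =
      Complex.exp (-((s : ℂ) * (c : ℂ) * I)) * fc (FF A c w) s -
      ((ca A s : ℤ) : ℂ) * (fc w 0 - 1) -
      ∑ k ∈ Ico N L, ((ca A (s - ((k : ℤ) + 1)) : ℤ) : ℂ) * vv c w ((k : ℤ) + 1) -
      ∑ k ∈ range L, ((ca A (s + ((k : ℤ) + 1)) : ℤ) : ℂ) * vv c w (-((k : ℤ) + 1)) := by
    rw [htw]; ring
  rw [e1]
  have b1 : ‖Complex.exp (-((s : ℂ) * (c : ℂ) * I)) * fc (FF A c w) s‖ = ‖fc (FF A c w) s‖ := by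
    rw [norm_mul, norm_exp_aux, one_mul]
  have b2 : ‖((ca A s : ℤ) : ℂ) * (fc w 0 - 1)‖ ≤ H * δ := by
    rw [norm_mul]
    exact mul_le_mul (hcn s) h0 (norm_nonneg _) (Nat.cast_nonneg _)
  have b3 : ‖∑ k ∈ Ico N L, ((ca A (s - ((k : ℤ) + 1)) : ℤ) : ℂ) * vv c w ((k : ℤ) + 1)‖ ≤
      H * C / N := by
    calc _ ≤ ∑ k ∈ Ico N L, (H * C) * (1 / ((k : ℝ) + 1) ^ 2) := by
          refine norm_sum_le_of_le _ fun k _ => ?_
          rw [norm_mul, norm_vv]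
          have h1 := hpos ((k : ℤ) + 1) (by positivity)
          push_cast at h1
          calc _ ≤ (H : ℝ) * (C / ((k : ℝ) + 1) ^ 2) :=
                mul_le_mul (hcn _) h1 (norm_nonneg _) (Nat.cast_nonneg _)
            _ = _ := by ring
      _ = (H * C) * ∑ k ∈ Ico N L, (1 / ((k : ℝ) + 1) ^ 2) := by rw [mul_sum]
      _ ≤ (H * C) * (1 / N) := by
          gcongr
          exact tail_sum hN L
      _ = _ := by ring
  have b4 : ‖∑ k ∈ range L, ((ca A (s + ((k : ℤ) + 1)) : ℤ) : ℂ) * vv c w (-((k : ℤ) + 1))‖ ≤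
      2 * (H * δ) := by
    calc _ ≤ ∑ k ∈ range L, (H * δ) * (1 / ((k : ℝ) + 1) ^ 2) := by
          refine norm_sum_le_of_le _ fun k _ => ?_
          rw [norm_mul, norm_vv]
          have h1 := hneg (-((k : ℤ) + 1)) (by omega)
          push_cast at h1
          have h2 : (-((k : ℝ) + 1)) ^ 2 = ((k : ℝ) + 1) ^ 2 := by ring
          rw [h2] at h1
          calc _ ≤ (H : ℝ) * (δ / ((k : ℝ) + 1) ^ 2) :=
                mul_le_mul (hcn _) h1 (norm_nonneg _) (Nat.cast_nonneg _)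
            _ = _ := by ring
      _ = (H * δ) * ∑ k ∈ range L, (1 / ((k : ℝ) + 1) ^ 2) := by rw [mul_sum]
      _ ≤ (H * δ) * 2 := by
          gcongr
          exact full_sum L
      _ = _ := by ring
  calc _ ≤ ‖Complex.exp (-((s : ℂ) * (c : ℂ) * I)) * fc (FF A c w) s‖ +
        ‖((ca A s : ℤ) : ℂ) * (fc w 0 - 1)‖ +
        ‖∑ k ∈ Ico N L, ((ca A (s - ((k : ℤ) + 1)) : ℤ) : ℂ) * vv c w ((k : ℤ) + 1)‖ +
        ‖∑ k ∈ range L, ((ca A (s + ((k : ℤ) + 1)) : ℤ) : ℂ) * vv c w (-((k : ℤ) + 1))‖ := by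
        refine (norm_sub_le _ _).trans ?_
        gcongr
        refine (norm_sub_le _ _).trans ?_
        gcongr
        exact norm_sub_le _ _
    _ ≤ ‖fc (FF A c w) s‖ + H * δ + H * C / N + 2 * (H * δ) := by
        rw [b1]
        gcongr
    _ = _ := by ring

/-- Two good indices with the same recent past have the same symbol. -/
theorem determined {w : ℝ → ℂ} (hw : Continuous w) (c : ℝ) {δ C : ℝ} (h0 : ‖fc w 0 - 1‖ ≤ δ)
    (hneg : ∀ k : ℤ, k < 0 → ‖fc w k‖ ≤ δ / (k : ℝ) ^ 2)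
    (hpos : ∀ k : ℤ, 0 < k → ‖fc w k‖ ≤ C / (k : ℝ) ^ 2) {A : ℤ[X]} {H : ℕ}
    (hA : ∀ n, |A.coeff n| ≤ H) {N : ℕ} (hN : 1 ≤ N) (hδ : 3 * (H * δ) ≤ 1 / 8)
    (hNC : H * C / N ≤ 1 / 8) (s s' : ℤ) (hs : ‖fc (FF A c w) s‖ < 1 / 8)
    (hs' : ‖fc (FF A c w) s'‖ < 1 / 8)
    (hpast : ∀ k : ℕ, k < N → ca A (s - (k + 1)) = ca A (s' - (k + 1))) : ca A s = ca A s' := by
  have h1 := local_bound hw c h0 hneg hpos hA hN s
  have h2 := local_bound hw c h0 hneg hpos hA hN s'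
  have h3 : ∑ k ∈ range N, ((ca A (s - (k + 1)) : ℤ) : ℂ) * vv c w (k + 1) =
      ∑ k ∈ range N, ((ca A (s' - (k + 1)) : ℤ) : ℂ) * vv c w (k + 1) :=
    sum_congr rfl fun k hk => by rw [hpast k (mem_range.1 hk)]
  rw [h3] at h1
  have h4 : ‖((ca A s : ℤ) : ℂ) - ((ca A s' : ℤ) : ℂ)‖ < 1 := by
    have h5 := norm_sub_le
      (((ca A s : ℤ) : ℂ) + ∑ k ∈ range N, ((ca A (s' - (k + 1)) : ℤ) : ℂ) * vv c w (k + 1))
      (((ca A s' : ℤ) : ℂ) + ∑ k ∈ range N, ((ca A (s' - (k + 1)) : ℤ) : ℂ) * vv c w (k + 1))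
    rw [add_sub_add_right_eq_sub] at h5
    linarith
  rw [← Int.cast_sub, Complex.norm_intCast] at h4
  have h6 : |ca A s - ca A s'| < 1 := by exact_mod_cast h4
  have h7 := Int.abs_lt_one_iff.1 h6
  linarith

theorem FF_cont (A : ℤ[X]) (c : ℝ) {w : ℝ → ℂ} (hw : Continuous w) : Continuous (FF A c w) := by
  have h1 : Continuous fun x : ℝ => aeval (Complex.exp (((x + c : ℝ) : ℂ) * I)) A :=
    (Polynomial.continuous_aeval A).comp (by fun_prop)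
  exact h1.mul hw

/-- The energy of the windowed polynomial is at most the energy on the arc. -/
theorem energy_le {w : ℝ → ℂ} (hw : Continuous w) {α β ρ W : ℝ} (hρ : 0 < ρ) (hρ1 : ρ ≤ 1)
    (hαβ : ρ ≤ (β - α) / 2)
    (hsupp : ∀ x ∈ Set.Icc (-Real.pi) Real.pi, ρ ≤ |x| → w x = 0)
    (hW : ∀ x ∈ Set.Icc (-Real.pi) Real.pi, ‖w x‖ ≤ W) (A : ℤ[X]) :
    ∫ x in (-Real.pi)..Real.pi, ‖FF A ((α + β) / 2) w x‖ ^ 2 ≤
      W ^ 2 * ∫ θ in α..β, ‖aeval (Complex.exp ((θ : ℂ) * I)) A‖ ^ 2 := by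
  have hpi := Real.pi_gt_three
  set c : ℝ := (α + β) / 2 with hc
  have hF : Continuous fun x => ‖FF A c w x‖ ^ 2 := (FF_cont A c hw).norm.pow 2
  have hii : ∀ a b : ℝ, IntervalIntegrable (fun x => ‖FF A c w x‖ ^ 2) MeasureTheory.volume a b :=
    fun a b => hF.intervalIntegrable a b
  have hg : Continuous fun θ : ℝ => ‖aeval (Complex.exp ((θ : ℂ) * I)) A‖ ^ 2 :=
    (((Polynomial.continuous_aeval A).comp (by fun_prop :
      Continuous fun θ : ℝ => Complex.exp ((θ : ℂ) * I))).norm.pow 2)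
  have h1 : ∫ x in (-Real.pi)..(-ρ), ‖FF A c w x‖ ^ 2 = 0 := by
    rw [intervalIntegral.integral_congr (g := fun _ => (0 : ℝ)), intervalIntegral.integral_zero]
    intro x hx
    rw [Set.uIcc_of_le (by linarith)] at hx
    have : w x = 0 := hsupp x ⟨hx.1, by linarith [hx.2]⟩ (by
      rw [abs_of_nonpos (by linarith [hx.2])]; linarith [hx.2])
    simp [FF, this]
  have h2 : ∫ x in ρ..Real.pi, ‖FF A c w x‖ ^ 2 = 0 := by
    rw [intervalIntegral.integral_congr (g := fun _ => (0 : ℝ)), intervalIntegral.integral_zero]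
    intro x hx
    rw [Set.uIcc_of_le (by linarith)] at hx
    have : w x = 0 := hsupp x ⟨by linarith [hx.1], hx.2⟩ (by
      rw [abs_of_nonneg (by linarith [hx.1])]; exact hx.1)
    simp [FF, this]
  have h3 : ∫ x in (-Real.pi)..Real.pi, ‖FF A c w x‖ ^ 2 = ∫ x in (-ρ)..ρ, ‖FF A c w x‖ ^ 2 := by
    rw [← intervalIntegral.integral_add_adjacent_intervals (hii (-Real.pi) (-ρ)) (hii (-ρ) Real.pi),
      ← intervalIntegral.integral_add_adjacent_intervals (hii (-ρ) ρ) (hii ρ Real.pi), h1, h2]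
    ring
  rw [h3]
  have h4 : ∫ x in (-ρ)..ρ, ‖FF A c w x‖ ^ 2 ≤
      ∫ x in (-ρ)..ρ, W ^ 2 * ‖aeval (Complex.exp (((x + c : ℝ) : ℂ) * I)) A‖ ^ 2 := by
    refine intervalIntegral.integral_mono_on (by linarith) (hii _ _) ?_ ?_
    · exact (continuous_const.mul (hg.comp (continuous_id.add continuous_const))).intervalIntegrable
        _ _
    · intro x hx
      have hx' : x ∈ Set.Icc (-Real.pi) Real.pi := ⟨by linarith [hx.1], by linarith [hx.2]⟩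
      rw [FF, norm_mul, mul_pow, mul_comm]
      gcongr
      exact hW x hx'
  refine h4.trans ?_
  rw [intervalIntegral.integral_const_mul]
  gcongr
  have h5 : ∫ x in (-ρ)..ρ, ‖aeval (Complex.exp (((x + c : ℝ) : ℂ) * I)) A‖ ^ 2 =
      ∫ θ in (-ρ + c)..(ρ + c), ‖aeval (Complex.exp ((θ : ℂ) * I)) A‖ ^ 2 :=
    intervalIntegral.integral_comp_add_right
      (fun θ : ℝ => ‖aeval (Complex.exp ((θ : ℂ) * I)) A‖ ^ 2) c
  rw [h5]
  refine intervalIntegral.integral_mono_interval ?_ ?_ ?_ ?_ (hg.intervalIntegrable _ _)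
  · rw [hc]; linarith
  · linarith
  · rw [hc]; linarith
  · exact Filter.Eventually.of_forall fun x => sq_nonneg _

end Pool.Agent.Helper13.SZ
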