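import Pool.Agent.Helper13.SZ.Fourier

/-!
# An analytic polynomial whose real part is slightly larger than a given function on the circle
-/

namespace Pool.Agent.Helper13.SZ

open Complex MeasureTheory Polynomial

/-- Real parts of trigonometric polynomials are real parts of analytic polynomials. -/
theorem re_poly (F : C(AddCircle (2 * Real.pi), ℂ))
    (hF : F ∈ Submodule.span ℂ (Set.range (@fourier (2 * Real.pi)))) :
    ∀ c : ℂ, ∃ h : ℂ[X], ∀ x : ℝ, (c * F (x : AddCircle (2 * Real.pi))).re =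
      (h.eval (Complex.exp ((x : ℂ) * I))).re := by
  induction hF using Submodule.span_induction with
  | mem f hf =>
    obtain ⟨n, rfl⟩ := hf
    intro c
    have hval : ∀ x : ℝ, (fourier n (x : AddCircle (2 * Real.pi)) : ℂ) =
        Complex.exp ((n : ℂ) * ((x : ℂ) * I)) := by
      intro x
      rw [fourier_coe_apply]
      congr 1
      have h2 : ((Real.pi : ℂ)) ≠ 0 := by exact_mod_cast Real.pi_ne_zero
      push_cast
      field_simp
    rcases le_total 0 n with hn | hn
    · obtain ⟨k, rfl⟩ := Int.eq_ofNat_of_zero_le hn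
      refine ⟨C c * X ^ k, fun x => ?_⟩
      rw [hval, eval_mul, eval_C, eval_pow, eval_X, ← Complex.exp_nat_mul]
      rfl
    · obtain ⟨k, hk⟩ := Int.eq_ofNat_of_zero_le (neg_nonneg.2 hn)
      have hn' : n = -(k : ℤ) := by omega
      subst hn'
      refine ⟨C ((starRingEnd ℂ) c) * X ^ k, fun x => ?_⟩
      rw [hval, eval_mul, eval_C, eval_pow, eval_X, ← Complex.exp_nat_mul]
      have h1 : Complex.exp (((-(k : ℤ) : ℤ) : ℂ) * ((x : ℂ) * I)) =
          (starRingEnd ℂ) (Complex.exp ((k : ℂ) * ((x : ℂ) * I))) := by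
        rw [← Complex.exp_conj]
        congr 1
        simp
      rw [h1, ← Complex.conj_re, map_mul, Complex.conj_conj]
  | zero => exact fun c => ⟨0, fun x => by simp⟩
  | add f g _ _ ihf ihg =>
    intro c
    obtain ⟨h1, e1⟩ := ihf c
    obtain ⟨h2, e2⟩ := ihg c
    refine ⟨h1 + h2, fun x => ?_⟩
    rw [eval_add, Complex.add_re, ← e1, ← e2, ← Complex.add_re, ← mul_add]
    rfl
  | smul a f _ ih =>
    intro c
    obtain ⟨h, e⟩ := ih (c * a)
    refine ⟨h, fun x => ?_⟩
    rw [← e, mul_assoc]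
    rfl

theorem majorant {φ : ℝ → ℝ} (hc : Continuous φ) (hp : Function.Periodic φ (2 * Real.pi)) {ε : ℝ}
    (hε : 0 < ε) : ∃ h : ℂ[X], (h.eval 0).im = 0 ∧ ∀ x : ℝ,
      φ x ≤ (h.eval (Complex.exp ((x : ℂ) * I))).re ∧
      (h.eval (Complex.exp ((x : ℂ) * I))).re ≤ φ x + ε := by
  have : Fact (0 < 2 * Real.pi) := ⟨by have := Real.pi_pos; linarith⟩
  set ψ : ℝ → ℂ := fun x => ((φ x + ε / 2 : ℝ) : ℂ) with hψ
  have hψp : Function.Periodic ψ (2 * Real.pi) := by
    intro x
    simp only [hψ, hp x]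
  have hψc : Continuous ψ := by
    rw [hψ]
    fun_prop
  let Ψ : C(AddCircle (2 * Real.pi), ℂ) :=
    ⟨hψp.lift, by
      have : Continuous (hψp.lift ∘ ((↑) : ℝ → AddCircle (2 * Real.pi))) := by
        have e : hψp.lift ∘ ((↑) : ℝ → AddCircle (2 * Real.pi)) = ψ := by
          funext x
          exact hψp.lift_coe x
        rw [e]
        exact hψc
      exact (QuotientAddGroup.isQuotientMap_mk _).continuous_iff.2 this⟩
  have hΨ : ∀ x : ℝ, Ψ (x : AddCircle (2 * Real.pi)) = ψ x := fun x => hψp.lift_coe x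
  have hmem : Ψ ∈ (Submodule.span ℂ (Set.range (@fourier (2 * Real.pi)))).topologicalClosure := by
    rw [span_fourier_closure_eq_top]
    trivial
  obtain ⟨F, hF, hd⟩ := Metric.mem_closure_iff.1 hmem (ε / 2) (by linarith)
  obtain ⟨h, hh⟩ := re_poly F hF 1
  have hclose : ∀ x : ℝ, |φ x + ε / 2 - (h.eval (Complex.exp ((x : ℂ) * I))).re| ≤ ε / 2 := by
    intro x
    have h1 : dist (Ψ (x : AddCircle (2 * Real.pi))) (F (x : AddCircle (2 * Real.pi))) ≤ ε / 2 :=
      (ContinuousMap.dist_apply_le_dist _).trans hd.le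
    rw [hΨ, dist_eq_norm] at h1
    have h2 := (Complex.abs_re_le_norm _).trans h1
    rw [Complex.sub_re] at h2
    have h3 := hh x
    rw [one_mul] at h3
    rw [← h3]
    simpa [hψ] using h2
  refine ⟨h - C (((h.eval 0).im : ℂ) * I), ?_, fun x => ?_⟩
  · rw [eval_sub, eval_C, Complex.sub_im]
    simp
  · have e : ((h - C (((h.eval 0).im : ℂ) * I)).eval (Complex.exp ((x : ℂ) * I))).re =
        (h.eval (Complex.exp ((x : ℂ) * I))).re := by
      rw [eval_sub, eval_C, Complex.sub_re]
      simp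
    rw [e]
    have := abs_le.1 (hclose x)
    constructor <;> linarith [this.1, this.2]

/-- The `L²` norm of an analytic polynomial with real value at `0` is controlled by its real part. -/
theorem sq_le_re {h : ℂ[X]} (h0 : (h.eval 0).im = 0) :
    ∫ x in (-Real.pi)..Real.pi, ‖h.eval (Complex.exp ((x : ℂ) * I))‖ ^ 2 ≤
      2 * ∫ x in (-Real.pi)..Real.pi, (h.eval (Complex.exp ((x : ℂ) * I))).re ^ 2 := by
  have hpi := Real.pi_pos
  have hcont : Continuous fun x : ℝ => h.eval (Complex.exp ((x : ℂ) * I)) :=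
    h.continuous.comp (by fun_prop)
  have h1 := fc_analytic (G := fun z => h.eval z ^ 2) (R := 2) (by norm_num)
    ((h.differentiable.pow 2).differentiableOn) 0
  rw [pow_zero, one_mul, fc] at h1
  simp only [Nat.cast_zero, neg_zero, Int.cast_zero, zero_mul, Complex.exp_zero, mul_one] at h1
  have h2 : ∫ x in (-Real.pi)..Real.pi, (h.eval (Complex.exp ((x : ℂ) * I))) ^ 2 =
      (2 * (Real.pi : ℂ)) * (h.eval 0) ^ 2 := by
    have hne : (2 * (Real.pi : ℂ)) ≠ 0 := by
      have : (Real.pi : ℂ) ≠ 0 := by exact_mod_cast hpi.ne'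
      exact mul_ne_zero two_ne_zero this
    rw [← h1, ← mul_assoc, mul_inv_cancel₀ hne, one_mul]
  have h3 : 0 ≤ ∫ x in (-Real.pi)..Real.pi, ((h.eval (Complex.exp ((x : ℂ) * I))) ^ 2).re := by
    have h4 : ∫ x in (-Real.pi)..Real.pi, ((h.eval (Complex.exp ((x : ℂ) * I))) ^ 2).re =
        (∫ x in (-Real.pi)..Real.pi, (h.eval (Complex.exp ((x : ℂ) * I))) ^ 2).re := by
      exact Complex.reCLM.intervalIntegral_comp_comm ((hcont.pow 2).intervalIntegrable _ _)
    rw [h4, h2]
    have h5 : h.eval 0 = (((h.eval 0).re : ℝ) : ℂ) := by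
      apply Complex.ext <;> simp [h0]
    rw [h5]
    have h6 : (2 * (Real.pi : ℂ)) * ((((h.eval 0).re : ℝ) : ℂ)) ^ 2 =
        ((2 * Real.pi * (h.eval 0).re ^ 2 : ℝ) : ℂ) := by push_cast; ring
    rw [h6, Complex.ofReal_re]
    positivity
  have h7 : ∫ x in (-Real.pi)..Real.pi, ‖h.eval (Complex.exp ((x : ℂ) * I))‖ ^ 2 =
      (2 * ∫ x in (-Real.pi)..Real.pi, (h.eval (Complex.exp ((x : ℂ) * I))).re ^ 2) -
        ∫ x in (-Real.pi)..Real.pi, ((h.eval (Complex.exp ((x : ℂ) * I))) ^ 2).re := by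
    have i1 : IntervalIntegrable (fun x : ℝ => 2 * (h.eval (Complex.exp ((x : ℂ) * I))).re ^ 2)
        volume (-Real.pi) Real.pi :=
      (continuous_const.mul ((Complex.continuous_re.comp hcont).pow 2)).intervalIntegrable _ _
    have i2 : IntervalIntegrable (fun x : ℝ => ((h.eval (Complex.exp ((x : ℂ) * I))) ^ 2).re)
        volume (-Real.pi) Real.pi :=
      (Complex.continuous_re.comp (hcont.pow 2)).intervalIntegrable _ _
    rw [← intervalIntegral.integral_const_mul, ← intervalIntegral.integral_sub i1 i2]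
    refine intervalIntegral.integral_congr fun x _ => ?_
    rw [Complex.sq_norm, Complex.normSq_apply, sq (h.eval _), Complex.mul_re]
    ring
  linarith

end Pool.Agent.Helper13.SZ
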