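import Pool.Agent.Helper13.SZ.Fourier

/-!
# Parseval for two functions, by polarization
-/

namespace Pool.Agent.Helper13.SZ

open Complex MeasureTheory

theorem hasSum_sq {f : ℝ → ℂ} (hf : Continuous f) :
    HasSum (fun s : ℤ => ‖fc f s‖ ^ 2) ((2 * Real.pi)⁻¹ * ∫ x in (-Real.pi)..Real.pi, ‖f x‖ ^ 2) := by
  have hm : MemLp f 2 (volume.restrict (Set.Ioc (-Real.pi) Real.pi)) := by
    obtain ⟨C, hC⟩ := (isCompact_Icc (a := -Real.pi) (b := Real.pi)).exists_bound_of_continuousOn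
      hf.continuousOn
    refine MemLp.of_bound hf.aestronglyMeasurable C ?_
    rw [ae_restrict_iff' measurableSet_Ioc]
    exact Filter.Eventually.of_forall fun x hx => hC x ⟨hx.1.le, hx.2⟩
  have h := hasSum_sq_fourierCoeffOn neg_pi_lt_pi hm
  have h3 : (Real.pi - -Real.pi)⁻¹ = (2 * Real.pi)⁻¹ := by congr 1; ring
  rw [h3, smul_eq_mul] at h
  have e : (fun s : ℤ => ‖fc f s‖ ^ 2) = fun s : ℤ => ‖fourierCoeffOn neg_pi_lt_pi f s‖ ^ 2 := by
    funext s
    rw [fc_eq_on]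
  rw [e]
  exact h

theorem fc_add {f g : ℝ → ℂ} (hf : Continuous f) (hg : Continuous g) (k : ℤ) :
    fc (fun x => f x + g x) k = fc f k + fc g k := by
  have h := fc_sub (f := fun x => f x + g x) (g := g) (hf.add hg) hg k
  have h2 : (fun x => (fun x => f x + g x) x - g x) = f := by
    funext x; simp
  rw [h2] at h
  rw [h]; ring

theorem parseval {f g : ℝ → ℂ} (hf : Continuous f) (hg : Continuous g) :
    HasSum (fun s : ℤ => (fc f s * (starRingEnd ℂ) (fc g s)).re)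
      ((2 * Real.pi)⁻¹ * ∫ x in (-Real.pi)..Real.pi, (f x * (starRingEnd ℂ) (g x)).re) := by
  have h1 := hasSum_sq (hf.add hg)
  have h2 := hasSum_sq (hf.sub hg)
  have h3 := (h1.sub h2).mul_left (1 / 4)
  have e1 : ∀ u v : ℂ, (1 / 4) * (‖u + v‖ ^ 2 - ‖u - v‖ ^ 2) = (u * (starRingEnd ℂ) v).re := by
    intro u v
    rw [Complex.sq_norm, Complex.sq_norm, Complex.normSq_add, Complex.normSq_sub]
    ring
  have hadd : ∀ s, fc (f + g) s = fc f s + fc g s := fun s => fc_add hf hg s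
  have hsub : ∀ s, fc (f - g) s = fc f s - fc g s := fun s => fc_sub hf hg s
  have e2 : (fun s : ℤ => (1 / 4) * (‖fc (f + g) s‖ ^ 2 - ‖fc (f - g) s‖ ^ 2)) =
      fun s : ℤ => (fc f s * (starRingEnd ℂ) (fc g s)).re := by
    funext s
    rw [hadd, hsub, e1]
  rw [e2] at h3
  have e3 : (1 / 4) * ((2 * Real.pi)⁻¹ * (∫ x in (-Real.pi)..Real.pi, ‖(f + g) x‖ ^ 2) -
      (2 * Real.pi)⁻¹ * ∫ x in (-Real.pi)..Real.pi, ‖(f - g) x‖ ^ 2) =
      (2 * Real.pi)⁻¹ * ∫ x in (-Real.pi)..Real.pi, (f x * (starRingEnd ℂ) (g x)).re := by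
    have i1 : IntervalIntegrable (fun x => ‖(f + g) x‖ ^ 2) volume (-Real.pi) Real.pi :=
      ((hf.add hg).norm.pow 2).intervalIntegrable _ _
    have i2 : IntervalIntegrable (fun x => ‖(f - g) x‖ ^ 2) volume (-Real.pi) Real.pi :=
      ((hf.sub hg).norm.pow 2).intervalIntegrable _ _
    rw [← mul_sub, ← intervalIntegral.integral_sub i1 i2, mul_left_comm,
      ← intervalIntegral.integral_const_mul]
    congr 1
    refine intervalIntegral.integral_congr fun x _ => ?_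
    exact e1 (f x) (g x)
  rw [e3] at h3
  exact h3

end Pool.Agent.Helper13.SZ
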