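import Mathlib

/-!
# Rank weights of a finite set of integers
-/

namespace Pool.Agent.Helper13.SZ

open Finset

/-- The number of elements of `T` above `s`. -/
def rk (T : Finset ℤ) (s : ℤ) : ℕ := (T.filter (fun t => s < t)).card

/-- The block index. -/
def bi (T : Finset ℤ) (s : ℤ) : ℕ := Nat.log 4 (3 * rk T s + 1)

/-- The weight `4 ^ (-block index)`. -/
noncomputable def wt (T : Finset ℤ) (s : ℤ) : ℝ := ((4 : ℝ) ^ (bi T s))⁻¹

theorem rk_anti (T : Finset ℤ) {s s' : ℤ} (h : s ≤ s') : rk T s' ≤ rk T s := by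
  refine card_le_card fun t ht => ?_
  rw [mem_filter] at ht ⊢
  exact ⟨ht.1, by omega⟩

theorem rk_lip (T : Finset ℤ) (s : ℤ) (k : ℕ) : rk T s ≤ rk T (s + k) + k := by
  have h : T.filter (fun t => s < t) ⊆ T.filter (fun t => s + k < t) ∪ Ioc s (s + k) := by
    intro t ht
    rw [mem_filter] at ht
    rw [mem_union, mem_filter, mem_Ioc]
    by_cases h1 : s + k < t
    · exact Or.inl ⟨ht.1, h1⟩
    · exact Or.inr ⟨ht.2, by omega⟩
  refine (card_le_card h).trans ((card_union_le _ _).trans ?_)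
  rw [Int.card_Ioc]
  have : (s + k - s).toNat = k := by omega
  rw [this]
  rfl

theorem wt_pos (T : Finset ℤ) (s : ℤ) : 0 < wt T s := by
  unfold wt
  positivity

theorem pow_bi_le (T : Finset ℤ) (s : ℤ) : 4 ^ bi T s ≤ 3 * rk T s + 1 :=
  Nat.pow_log_le_self 4 (by omega)

theorem lt_pow_bi (T : Finset ℤ) (s : ℤ) : 3 * rk T s + 1 < 4 ^ (bi T s + 1) :=
  Nat.lt_pow_succ_log_self (by norm_num) _

theorem wt_ge (T : Finset ℤ) (s : ℤ) : 1 / (3 * (rk T s : ℝ) + 1) ≤ wt T s := by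
  have h : ((4 : ℝ) ^ bi T s) ≤ 3 * (rk T s : ℝ) + 1 := by exact_mod_cast pow_bi_le T s
  rw [wt, ← one_div]
  exact one_div_le_one_div_of_le (by positivity) h

theorem wt_le (T : Finset ℤ) (s : ℤ) : wt T s ≤ 4 / (3 * (rk T s : ℝ) + 1) := by
  have h : 3 * (rk T s : ℝ) + 1 < (4 : ℝ) ^ (bi T s + 1) := by exact_mod_cast lt_pow_bi T s
  have h1 : (0 : ℝ) < (4 : ℝ) ^ bi T s := by positivity
  have h2 : (0 : ℝ) < 3 * (rk T s : ℝ) + 1 := by positivity
  rw [wt, le_div_iff₀ h2, inv_mul_le_iff₀ h1]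
  rw [pow_succ] at h
  linarith

theorem wt_mono (T : Finset ℤ) {s s' : ℤ} (h : s ≤ s') : wt T s ≤ wt T s' := by
  unfold wt
  have h1 : bi T s' ≤ bi T s := Nat.log_mono_right (by have := rk_anti T h; omega)
  gcongr
  norm_num

theorem wt_shift (T : Finset ℤ) (s s' : ℤ) :
    wt T s' ≤ 4 * (1 + 3 * |((s' - s : ℤ) : ℝ)|) * wt T s := by
  have hw := wt_pos T s
  rcases le_total s' s with h | h
  · have h1 := wt_mono T h
    have h2 := abs_nonneg ((s' - s : ℤ) : ℝ)
    nlinarith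
  · obtain ⟨k, hk⟩ : ∃ k : ℕ, s' = s + k := ⟨(s' - s).toNat, by omega⟩
    subst hk
    have h1 := rk_lip T s k
    have h2 := wt_le T (s + k)
    have h3 := wt_ge T s
    have h4 : |(((s + k - s : ℤ)) : ℝ)| = k := by
      have : (s + k - s : ℤ) = (k : ℤ) := by ring
      rw [this]
      simp
    rw [h4]
    have h1' : (rk T s : ℝ) ≤ rk T (s + k) + k := by exact_mod_cast h1
    set r : ℝ := ((rk T s : ℕ) : ℝ) with hr
    set r' : ℝ := ((rk T (s + k) : ℕ) : ℝ) with hr'
    have hr0 : 0 ≤ r := Nat.cast_nonneg _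
    have hr0' : 0 ≤ r' := Nat.cast_nonneg _
    have hk0 : (0 : ℝ) ≤ k := Nat.cast_nonneg _
    calc wt T (s + k) ≤ 4 / (3 * r' + 1) := h2
      _ ≤ 4 * (1 + 3 * k) * (1 / (3 * r + 1)) := by
          rw [mul_one_div, div_le_div_iff₀ (by positivity) (by positivity)]
          nlinarith [mul_nonneg hk0 hr0']
      _ ≤ 4 * (1 + 3 * k) * wt T s := by gcongr

theorem rk_lt {T : Finset ℤ} {t t' : ℤ} (ht' : t' ∈ T) (h : t < t') : rk T t' < rk T t := by
  refine card_lt_card ?_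
  rw [Finset.ssubset_iff_of_subset]
  · refine ⟨t', mem_filter.2 ⟨ht', h⟩, ?_⟩
    rw [mem_filter]
    exact fun h => lt_irrefl _ h.2
  · intro x hx
    rw [mem_filter] at hx ⊢
    exact ⟨hx.1, h.trans hx.2⟩

theorem rk_inj {T : Finset ℤ} : Set.InjOn (rk T) (T : Set ℤ) := by
  intro t ht t' ht' h
  rcases lt_trichotomy t t' with h1 | h1 | h1
  · exact absurd h (rk_lt ht' h1).ne'
  · exact h1
  · exact absurd h (rk_lt ht h1).ne

theorem exists_a (i : ℕ) : ∃ a : ℕ, 3 * a + 1 = 4 ^ i := by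
  induction i with
  | zero => exact ⟨0, by norm_num⟩
  | succ i ih =>
    obtain ⟨a, ha⟩ := ih
    exact ⟨4 * a + 1, by rw [pow_succ, ← ha]; ring⟩

theorem card_block (T : Finset ℤ) (i : ℕ) : (T.filter (fun t => bi T t = i)).card ≤ 4 ^ i := by
  obtain ⟨a, ha⟩ := exists_a i
  have h1 : (T.filter (fun t => bi T t = i)).card ≤ (Ico a (a + 4 ^ i)).card := by
    refine card_le_card_of_injOn (rk T) ?_ ?_
    · intro t ht
      have ht' : t ∈ T ∧ bi T t = i := by simpa using ht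
      have h2 := pow_bi_le T t
      have h3 := lt_pow_bi T t
      rw [ht'.2] at h2 h3
      rw [pow_succ] at h3
      simp only [coe_Ico, Set.mem_Ico]
      omega
    · refine rk_inj.mono ?_
      intro t ht
      have ht' : t ∈ T ∧ bi T t = i := by simpa using ht
      exact ht'.1
  rw [Nat.card_Ico] at h1
  omega

theorem sum_rk (φ : ℕ → ℝ) (T : Finset ℤ) : ∑ t ∈ T, φ (rk T t) = ∑ r ∈ range T.card, φ r := by
  induction T using Finset.induction_on_min with
  | empty => simp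
  | insert a s hs ih =>
    have ha : a ∉ s := fun h => lt_irrefl _ (hs a h)
    rw [sum_insert ha, card_insert_of_notMem ha, sum_range_succ, ← ih, add_comm]
    congr 1
    · refine sum_congr rfl fun t ht => ?_
      congr 1
      unfold rk
      rw [filter_insert, if_neg (by have := hs t ht; omega)]
    · congr 1
      unfold rk
      rw [filter_insert, if_neg (lt_irrefl _), filter_true_of_mem hs]

theorem log_le_sum (T : Finset ℤ) : (1 / 3) * Real.log (3 * (T.card : ℝ) + 1) ≤ ∑ t ∈ T, wt T t := by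
  have h1 : ∑ t ∈ T, (1 / (3 * ((rk T t : ℕ) : ℝ) + 1)) ≤ ∑ t ∈ T, wt T t :=
    sum_le_sum fun t _ => wt_ge T t
  rw [sum_rk (fun r => 1 / (3 * (r : ℝ) + 1)) T] at h1
  refine le_trans ?_ h1
  generalize T.card = n
  induction n with
  | zero => simp
  | succ n ih =>
    rw [sum_range_succ]
    have h2 : (0 : ℝ) < 3 * (n : ℝ) + 1 := by positivity
    have h3 : Real.log (3 * ((n + 1 : ℕ) : ℝ) + 1) - Real.log (3 * (n : ℝ) + 1) ≤
        3 / (3 * (n : ℝ) + 1) := by
      rw [← Real.log_div (by positivity) h2.ne']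
      have h4 : (3 * ((n + 1 : ℕ) : ℝ) + 1) / (3 * (n : ℝ) + 1) = 1 + 3 / (3 * (n : ℝ) + 1) := by
        push_cast
        field_simp
        ring
      rw [h4]
      have h5 := Real.log_le_sub_one_of_pos (x := 1 + 3 / (3 * (n : ℝ) + 1)) (by positivity)
      linarith
    have h6 : (1 / 3) * (3 / (3 * (n : ℝ) + 1)) = 1 / (3 * (n : ℝ) + 1) := by field_simp
    linarith

end Pool.Agent.Helper13.SZ
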