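import Pool.Agent.Helper13.SZ.Majorant
import Pool.Agent.Helper13.SZ.Parseval
import Pool.Agent.Helper13.SZ.Weights

/-!
# The test function of McGehee, Pigno and Smith
-/

namespace Pool.Agent.Helper13.SZ

open Complex MeasureTheory Polynomial

theorem fc_shift (f : ℝ → ℂ) (t s : ℤ) :
    fc (fun x => Complex.exp ((t : ℂ) * (x : ℂ) * I) * f x) s = fc f (s - t) := by
  unfold fc
  congr 1
  refine intervalIntegral.integral_congr fun x _ => ?_
  have : Complex.exp (-(((s - t : ℤ) : ℂ) * (x : ℂ) * I)) =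
      Complex.exp ((t : ℂ) * (x : ℂ) * I) * Complex.exp (-((s : ℂ) * (x : ℂ) * I)) := by
    rw [← Complex.exp_add]; congr 1; push_cast; ring
  change Complex.exp ((t : ℂ) * (x : ℂ) * I) * f x * Complex.exp (-((s : ℂ) * (x : ℂ) * I)) =
    f x * Complex.exp (-(((s - t : ℤ) : ℂ) * (x : ℂ) * I))
  rw [this]
  ring

theorem fc_one (k : ℤ) : fc (fun _ => 1) k = if k = 0 then 1 else 0 := by
  split_ifs with h
  · subst h
    have := fc_analytic (G := fun _ => (1 : ℂ)) (R := 2) (by norm_num)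
      (differentiableOn_const 1) 0
    simpa using this
  · rw [ibp (f := fun _ => (1 : ℂ)) (f' := fun _ => 0) (fun x => hasDerivAt_const x 1)
      continuous_const rfl h]
    simp [fc]

theorem fc_finsum {E : ℝ → ℂ} (hE : Continuous E) (S : Finset ℤ) (c : ℤ → ℂ) (s : ℤ) :
    fc (fun x => (∑ t ∈ S, c t * Complex.exp ((t : ℂ) * (x : ℂ) * I)) * E x) s =
      ∑ t ∈ S, c t * fc E (s - t) := by
  have h1 : ∀ t : ℤ, fc E (s - t) = fc (fun x => Complex.exp ((t : ℂ) * (x : ℂ) * I) * E x) s :=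
    fun t => (fc_shift E t s).symm
  simp only [h1]
  unfold fc
  have h2 : (fun x : ℝ => (∑ t ∈ S, c t * Complex.exp ((t : ℂ) * (x : ℂ) * I)) * E x *
      Complex.exp (-((s : ℂ) * (x : ℂ) * I))) = fun x : ℝ => ∑ t ∈ S,
        c t * (Complex.exp ((t : ℂ) * (x : ℂ) * I) * E x * Complex.exp (-((s : ℂ) * (x : ℂ) * I))) := by
    funext x
    rw [Finset.sum_mul, Finset.sum_mul]
    exact Finset.sum_congr rfl fun t _ => by ring
  rw [h2, intervalIntegral.integral_finsetSum]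
  · rw [Finset.mul_sum]
    refine Finset.sum_congr rfl fun t _ => ?_
    rw [intervalIntegral.integral_const_mul]
    ring
  · intro t _
    exact (by fun_prop : Continuous fun x : ℝ => c t * (Complex.exp ((t : ℂ) * (x : ℂ) * I) * E x *
      Complex.exp (-((s : ℂ) * (x : ℂ) * I)))).intervalIntegrable _ _

/-- The block polynomials. -/
noncomputable def ff (T : Finset ℤ) (e : ℤ → ℂ) (i : ℕ) (x : ℝ) : ℂ :=
  ∑ t ∈ T.filter (fun t => bi T t = i), (((4 : ℂ) ^ i)⁻¹ * e t) * Complex.exp ((t : ℂ) * (x : ℂ) * I)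

theorem ff_cont (T : Finset ℤ) (e : ℤ → ℂ) (i : ℕ) : Continuous (ff T e i) := by
  unfold ff
  fun_prop

theorem ff_periodic (T : Finset ℤ) (e : ℤ → ℂ) (i : ℕ) :
    Function.Periodic (ff T e i) (2 * Real.pi) := by
  intro x
  unfold ff
  refine Finset.sum_congr rfl fun t _ => ?_
  congr 1
  rw [Complex.exp_eq_exp_iff_exists_int]
  exact ⟨t, by push_cast; ring⟩

theorem ff_norm (T : Finset ℤ) {e : ℤ → ℂ} (he : ∀ t, ‖e t‖ ≤ 1) (i : ℕ) (x : ℝ) :
    ‖ff T e i x‖ ≤ 1 := by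
  have h4 : (0 : ℝ) < 4 ^ i := by positivity
  have h5 : ‖((4 : ℂ) ^ i)⁻¹‖ = ((4 : ℝ) ^ i)⁻¹ := by
    rw [norm_inv, norm_pow, Complex.norm_ofNat]
  calc ‖ff T e i x‖ ≤ ∑ _t ∈ T.filter (fun t => bi T t = i), ((4 : ℝ) ^ i)⁻¹ := by
        refine norm_sum_le_of_le _ fun t _ => ?_
        have h1 : (t : ℂ) * (x : ℂ) * I = ((((t : ℝ) * x : ℝ)) : ℂ) * I := by push_cast; ring
        rw [norm_mul, norm_mul, h1, Complex.norm_exp_ofReal_mul_I, mul_one, h5]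
        exact mul_le_of_le_one_right (by positivity) (he t)
    _ = (T.filter (fun t => bi T t = i)).card * ((4 : ℝ) ^ i)⁻¹ := by
        rw [Finset.sum_const, nsmul_eq_mul]
    _ ≤ (4 : ℝ) ^ i * ((4 : ℝ) ^ i)⁻¹ := by
        gcongr
        exact_mod_cast card_block T i
    _ = 1 := mul_inv_cancel₀ h4.ne'

theorem fc_ff (T : Finset ℤ) (e : ℤ → ℂ) (i : ℕ) (s : ℤ) :
    fc (ff T e i) s = if s ∈ T ∧ bi T s = i then ((4 : ℂ) ^ i)⁻¹ * e s else 0 := by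
  have h := fc_finsum (E := fun _ => 1) continuous_const (T.filter (fun t => bi T t = i))
    (fun t => ((4 : ℂ) ^ i)⁻¹ * e t) s
  simp only [mul_one, fc_one] at h
  have h2 : fc (ff T e i) s = ∑ t ∈ T.filter (fun t => bi T t = i),
      ((4 : ℂ) ^ i)⁻¹ * e t * (if s - t = 0 then 1 else 0) := h
  rw [h2]
  have h3 : ∀ t : ℤ, ((4 : ℂ) ^ i)⁻¹ * e t * (if s - t = 0 then 1 else 0) =
      if s = t then ((4 : ℂ) ^ i)⁻¹ * e t else 0 := by
    intro t
    by_cases h : s = t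
    · simp [h]
    · rw [if_neg h, if_neg (by omega), mul_zero]
  simp only [h3]
  rw [Finset.sum_ite_eq]
  simp only [Finset.mem_filter]

theorem ff_sq (T : Finset ℤ) {e : ℤ → ℂ} (he : ∀ t, ‖e t‖ ≤ 1) (i : ℕ) :
    (2 * Real.pi)⁻¹ * ∫ x in (-Real.pi)..Real.pi, ‖ff T e i x‖ ^ 2 ≤ ((4 : ℝ) ^ i)⁻¹ := by
  have h := hasSum_sq (ff_cont T e i)
  have h2 : HasSum (fun s : ℤ => ‖fc (ff T e i) s‖ ^ 2)
      (∑ s ∈ T.filter (fun t => bi T t = i), ‖fc (ff T e i) s‖ ^ 2) := by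
    refine hasSum_sum_of_ne_finset_zero fun s hs => ?_
    rw [Finset.mem_filter] at hs
    rw [fc_ff, if_neg hs]
    simp
  rw [h.unique h2]
  have h4 : (0 : ℝ) < 4 ^ i := by positivity
  calc ∑ s ∈ T.filter (fun t => bi T t = i), ‖fc (ff T e i) s‖ ^ 2
      ≤ ∑ _s ∈ T.filter (fun t => bi T t = i), (((4 : ℝ) ^ i)⁻¹) ^ 2 := by
        refine Finset.sum_le_sum fun s hs => ?_
        rw [Finset.mem_filter] at hs
        rw [fc_ff, if_pos hs, norm_mul, norm_inv, norm_pow, Complex.norm_ofNat]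
        gcongr
        exact mul_le_of_le_one_right (by positivity) (he s)
    _ = (T.filter (fun t => bi T t = i)).card * (((4 : ℝ) ^ i)⁻¹) ^ 2 := by
        rw [Finset.sum_const, nsmul_eq_mul]
    _ ≤ (4 : ℝ) ^ i * (((4 : ℝ) ^ i)⁻¹) ^ 2 := by
        gcongr
        exact_mod_cast card_block T i
    _ = ((4 : ℝ) ^ i)⁻¹ := by
        rw [sq, ← mul_assoc, mul_inv_cancel₀ h4.ne', one_mul]

/-- The analytic majorants. -/
theorem exists_h (T : Finset ℤ) {e : ℤ → ℂ} (he : ∀ t, ‖e t‖ ≤ 1) (i : ℕ) :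
    ∃ h : ℂ[X], (∀ x : ℝ, ‖ff T e i x‖ ≤ (h.eval (Complex.exp ((x : ℂ) * I))).re) ∧
      (2 * Real.pi)⁻¹ * ∫ x in (-Real.pi)..Real.pi, ‖h.eval (Complex.exp ((x : ℂ) * I))‖ ^ 2 ≤
        8 * (((1 : ℝ) / 2) ^ i) ^ 2 := by
  have hpi := Real.pi_pos
  have hε : (0 : ℝ) < (1 / 2) ^ i := by positivity
  obtain ⟨h, h0, hm⟩ := majorant (φ := fun x => ‖ff T e i x‖) (ff_cont T e i).norm
    (fun x => congrArg norm (ff_periodic T e i x)) hε
  refine ⟨h, fun x => (hm x).1, ?_⟩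
  have hcont : Continuous fun x : ℝ => h.eval (Complex.exp ((x : ℂ) * I)) :=
    h.continuous.comp (by fun_prop)
  have h1 := sq_le_re h0
  have h2 : ∫ x in (-Real.pi)..Real.pi, (h.eval (Complex.exp ((x : ℂ) * I))).re ^ 2 ≤
      ∫ x in (-Real.pi)..Real.pi, (2 * ‖ff T e i x‖ ^ 2 + 2 * ((1 / 2 : ℝ) ^ i) ^ 2) := by
    refine intervalIntegral.integral_mono_on (by linarith)
      (((Complex.continuous_re.comp hcont).pow 2).intervalIntegrable _ _)
      (((continuous_const.mul ((ff_cont T e i).norm.pow 2)).add continuous_const).intervalIntegrable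
        _ _) fun x _ => ?_
    have h3 := (hm x).2
    have h4 : 0 ≤ (h.eval (Complex.exp ((x : ℂ) * I))).re := (norm_nonneg _).trans (hm x).1
    calc (h.eval (Complex.exp ((x : ℂ) * I))).re ^ 2 ≤ (‖ff T e i x‖ + (1 / 2) ^ i) ^ 2 := by
          gcongr
      _ ≤ 2 * ‖ff T e i x‖ ^ 2 + 2 * ((1 / 2 : ℝ) ^ i) ^ 2 := by
          nlinarith [sq_nonneg (‖ff T e i x‖ - (1 / 2) ^ i)]
  have i1 : IntervalIntegrable (fun x => 2 * ‖ff T e i x‖ ^ 2) volume (-Real.pi) Real.pi :=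
    (continuous_const.mul ((ff_cont T e i).norm.pow 2)).intervalIntegrable _ _
  rw [intervalIntegral.integral_add i1 intervalIntegrable_const,
    intervalIntegral.integral_const_mul, intervalIntegral.integral_const, smul_eq_mul] at h2
  have h3 := ff_sq T he i
  have h4 : ((4 : ℝ) ^ i)⁻¹ = ((1 / 2 : ℝ) ^ i) ^ 2 := by
    rw [← pow_mul, mul_comm i 2, pow_mul, ← inv_pow]
    norm_num
  rw [h4] at h3
  set P : ℝ := ((1 / 2 : ℝ) ^ i) ^ 2 with hP
  set A := ∫ x in (-Real.pi)..Real.pi, ‖h.eval (Complex.exp ((x : ℂ) * I))‖ ^ 2 with hA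
  set Bq := ∫ x in (-Real.pi)..Real.pi, ‖ff T e i x‖ ^ 2 with hB
  have h5 : Bq ≤ 2 * Real.pi * P := by
    rwa [inv_mul_le_iff₀ (by positivity)] at h3
  rw [inv_mul_le_iff₀ (by positivity)]
  have h6 : (Real.pi - -Real.pi) * (2 * P) = 4 * Real.pi * P := by ring
  rw [h6] at h2
  nlinarith

theorem exp_neg_sub_one {z : ℂ} (hz : 0 ≤ z.re) : ‖Complex.exp (-z) - 1‖ ≤ 2 * ‖z‖ := by
  rcases le_total ‖z‖ 1 with h | h
  · have := Complex.norm_exp_sub_one_le (x := -z) (by rwa [norm_neg])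
    rwa [norm_neg] at this
  · have h1 : ‖Complex.exp (-z)‖ ≤ 1 := by
      rw [Complex.norm_exp, Complex.neg_re]
      exact Real.exp_le_one_iff.2 (by linarith)
    calc ‖Complex.exp (-z) - 1‖ ≤ ‖Complex.exp (-z)‖ + ‖(1 : ℂ)‖ := norm_sub_le _ _
      _ ≤ 1 + 1 := by rw [norm_one]; gcongr
      _ ≤ 2 * ‖z‖ := by linarith

theorem cs_bound {f g : ℝ → ℂ} (hf : Continuous f) (hg : Continuous g) {P Q : ℝ} (hP : 0 < P)
    (hQ : 0 < Q) (h1 : (2 * Real.pi)⁻¹ * ∫ x in (-Real.pi)..Real.pi, ‖f x‖ ^ 2 ≤ P ^ 2)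
    (h2 : (2 * Real.pi)⁻¹ * ∫ x in (-Real.pi)..Real.pi, ‖g x‖ ^ 2 ≤ 8 * Q ^ 2) :
    (2 * Real.pi)⁻¹ * ∫ x in (-Real.pi)..Real.pi, ‖f x‖ * ‖g x‖ ≤ 5 * (P * Q) := by
  have hpi := Real.pi_pos
  have h3 : ∫ x in (-Real.pi)..Real.pi, ‖f x‖ * ‖g x‖ ≤
      ∫ x in (-Real.pi)..Real.pi, ((Q / P / 2) * ‖f x‖ ^ 2 + (P / Q / 2) * ‖g x‖ ^ 2) := by
    refine intervalIntegral.integral_mono_on (by linarith)
      ((hf.norm.mul hg.norm).intervalIntegrable _ _)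
      (((continuous_const.mul (hf.norm.pow 2)).add
        (continuous_const.mul (hg.norm.pow 2))).intervalIntegrable _ _) fun x _ => ?_
    have e : (Q / P / 2) * ‖f x‖ ^ 2 + (P / Q / 2) * ‖g x‖ ^ 2 - ‖f x‖ * ‖g x‖ =
        (Q * ‖f x‖ - P * ‖g x‖) ^ 2 / (2 * P * Q) := by
      field_simp
      ring
    have h4 : 0 ≤ (Q * ‖f x‖ - P * ‖g x‖) ^ 2 / (2 * P * Q) := by positivity
    linarith
  have i1 : IntervalIntegrable (fun x => (Q / P / 2) * ‖f x‖ ^ 2) volume (-Real.pi) Real.pi :=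
    (continuous_const.mul (hf.norm.pow 2)).intervalIntegrable _ _
  have i2 : IntervalIntegrable (fun x => (P / Q / 2) * ‖g x‖ ^ 2) volume (-Real.pi) Real.pi :=
    (continuous_const.mul (hg.norm.pow 2)).intervalIntegrable _ _
  rw [intervalIntegral.integral_add i1 i2, intervalIntegral.integral_const_mul,
    intervalIntegral.integral_const_mul] at h3
  calc (2 * Real.pi)⁻¹ * ∫ x in (-Real.pi)..Real.pi, ‖f x‖ * ‖g x‖
      ≤ (2 * Real.pi)⁻¹ * ((Q / P / 2) * (∫ x in (-Real.pi)..Real.pi, ‖f x‖ ^ 2) +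
        (P / Q / 2) * ∫ x in (-Real.pi)..Real.pi, ‖g x‖ ^ 2) := by gcongr
    _ = (Q / P / 2) * ((2 * Real.pi)⁻¹ * ∫ x in (-Real.pi)..Real.pi, ‖f x‖ ^ 2) +
        (P / Q / 2) * ((2 * Real.pi)⁻¹ * ∫ x in (-Real.pi)..Real.pi, ‖g x‖ ^ 2) := by ring
    _ ≤ (Q / P / 2) * P ^ 2 + (P / Q / 2) * (8 * Q ^ 2) := by gcongr
    _ = (9 / 2) * (P * Q) := by field_simp; ring
    _ ≤ 5 * (P * Q) := by
        have : 0 < P * Q := by positivity
        linarith

theorem geo_tail (i J : ℕ) : ∑ l ∈ Finset.Ico (i + 1) J, ((1 : ℝ) / 2) ^ l ≤ (1 / 2) ^ i := by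
  rw [Finset.sum_Ico_eq_sum_range]
  calc ∑ k ∈ Finset.range (J - (i + 1)), ((1 : ℝ) / 2) ^ (i + 1 + k)
      = (1 / 2) ^ (i + 1) * ∑ k ∈ Finset.range (J - (i + 1)), ((1 : ℝ) / 2) ^ k := by
        rw [Finset.mul_sum]
        exact Finset.sum_congr rfl fun k _ => by rw [pow_add]
    _ ≤ (1 / 2) ^ (i + 1) * 2 := by
        gcongr
        exact sum_geometric_two_le _
    _ = (1 / 2) ^ i := by rw [pow_succ]; ring

theorem geo_tail4 (j J : ℕ) : ∑ i ∈ Finset.Ico j J, (((1 : ℝ) / 2) ^ i) ^ 2 ≤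
    2 * ((1 / 2) ^ j) ^ 2 := by
  rw [Finset.sum_Ico_eq_sum_range]
  calc ∑ k ∈ Finset.range (J - j), (((1 : ℝ) / 2) ^ (j + k)) ^ 2
      ≤ ∑ k ∈ Finset.range (J - j), ((1 / 2) ^ j) ^ 2 * ((1 : ℝ) / 2) ^ k := by
        refine Finset.sum_le_sum fun k _ => ?_
        have h1 : (((1 : ℝ) / 2) ^ k) ≤ 1 := pow_le_one₀ (by norm_num) (by norm_num)
        have h2 : (0 : ℝ) < (1 / 2) ^ k := by positivity
        rw [pow_add, mul_pow]
        gcongr
        nlinarith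
    _ = ((1 / 2) ^ j) ^ 2 * ∑ k ∈ Finset.range (J - j), ((1 : ℝ) / 2) ^ k := by rw [Finset.mul_sum]
    _ ≤ ((1 / 2) ^ j) ^ 2 * 2 := by
        gcongr
        exact sum_geometric_two_le _
    _ = 2 * ((1 / 2) ^ j) ^ 2 := by ring

theorem one_sub_exp {η y : ℝ} (h0 : 0 < η) (h1 : η ≤ 1) (hy0 : 0 ≤ y) (hy1 : y ≤ 1) :
    (2 / η) * Real.exp (-(η * y)) + y ≤ 2 / η := by
  have hu0 : 0 ≤ η * y := by positivity
  have hu1 : η * y ≤ 1 := by nlinarith
  have h2 : Real.exp (-(η * y)) ≤ 1 - (η * y) / 2 := by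
    have h3 := Real.add_one_le_exp (η * y)
    rw [Real.exp_neg, inv_le_iff_one_le_mul₀ (Real.exp_pos _)]
    have h4 : 0 ≤ 1 - η * y / 2 := by linarith
    nlinarith
  have h5 : (2 / η) * Real.exp (-(η * y)) ≤ (2 / η) * (1 - (η * y) / 2) := by gcongr
  have h6 : (2 / η) * (1 - (η * y) / 2) = 2 / η - y := by field_simp
  linarith

/-- The exponent `∑ h_l`. -/
noncomputable def hs (h : ℕ → ℂ[X]) (i J : ℕ) : ℂ[X] := ∑ l ∈ Finset.Ico (i + 1) J, h l

/-- The test function built from the blocks `i < J`. -/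
noncomputable def GG (T : Finset ℤ) (e : ℤ → ℂ) (h : ℕ → ℂ[X]) (η : ℝ) (J : ℕ) (x : ℝ) : ℂ :=
  ∑ i ∈ Finset.range J, ff T e i x *
    Complex.exp (-((η : ℂ) * (hs h i J).eval (Complex.exp ((x : ℂ) * I))))

theorem GG_succ (T : Finset ℤ) (e : ℤ → ℂ) (h : ℕ → ℂ[X]) (η : ℝ) (J : ℕ) (x : ℝ) :
    GG T e h η (J + 1) x = GG T e h η J x *
      Complex.exp (-((η : ℂ) * (h J).eval (Complex.exp ((x : ℂ) * I)))) + ff T e J x := by
  unfold GG
  rw [Finset.sum_range_succ]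
  congr 1
  · rw [Finset.sum_mul]
    refine Finset.sum_congr rfl fun i hi => ?_
    have hi' : i + 1 ≤ J := Finset.mem_range.1 hi
    have e1 : hs h i (J + 1) = hs h i J + h J := by
      unfold hs
      rw [Finset.sum_Ico_succ_top hi']
    rw [e1, eval_add, mul_assoc, ← Complex.exp_add]
    congr 2
    ring
  · have e1 : hs h J (J + 1) = 0 := by
      unfold hs
      simp
    rw [e1]
    simp

theorem GG_norm (T : Finset ℤ) {e : ℤ → ℂ} (he : ∀ t, ‖e t‖ ≤ 1) {h : ℕ → ℂ[X]}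
    (hh : ∀ i, ∀ x : ℝ, ‖ff T e i x‖ ≤ ((h i).eval (Complex.exp ((x : ℂ) * I))).re) {η : ℝ}
    (h0 : 0 < η) (h1 : η ≤ 1) (J : ℕ) (x : ℝ) : ‖GG T e h η J x‖ ≤ 2 / η := by
  induction J with
  | zero => simp [GG]; positivity
  | succ J ih =>
    rw [GG_succ]
    have h2 : ‖Complex.exp (-((η : ℂ) * (h J).eval (Complex.exp ((x : ℂ) * I))))‖ ≤
        Real.exp (-(η * ‖ff T e J x‖)) := by
      rw [Complex.norm_exp]
      refine Real.exp_le_exp.2 ?_
      rw [Complex.neg_re, Complex.re_ofReal_mul]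
      have := hh J x
      nlinarith
    calc _ ≤ ‖GG T e h η J x * Complex.exp (-((η : ℂ) * (h J).eval (Complex.exp ((x : ℂ) * I))))‖ +
          ‖ff T e J x‖ := norm_add_le _ _
      _ ≤ (2 / η) * Real.exp (-(η * ‖ff T e J x‖)) + ‖ff T e J x‖ := by
          rw [norm_mul]
          gcongr
      _ ≤ 2 / η := one_sub_exp h0 h1 (norm_nonneg _) (ff_norm T he J x)

end Pool.Agent.Helper13.SZ
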