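import Pool.Agent.Helper13.SZ.TestFn

/-!
# The Fourier coefficients of the test function
-/

namespace Pool.Agent.Helper13.SZ

open Complex MeasureTheory Polynomial

/-- The exponential factor. -/
noncomputable def EE (h : ℕ → ℂ[X]) (η : ℝ) (i J : ℕ) (x : ℝ) : ℂ :=
  Complex.exp (-((η : ℂ) * (hs h i J).eval (Complex.exp ((x : ℂ) * I))))

theorem EE_cont (h : ℕ → ℂ[X]) (η : ℝ) (i J : ℕ) : Continuous (EE h η i J) := by
  have h1 : Continuous fun x : ℝ => (hs h i J).eval (Complex.exp ((x : ℂ) * I)) :=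
    (hs h i J).continuous.comp (by fun_prop)
  unfold EE
  fun_prop

theorem EE_fc_neg (h : ℕ → ℂ[X]) (η : ℝ) (i J : ℕ) {k : ℤ} (hk : k < 0) :
    fc (EE h η i J) k = 0 := by
  have h1 := fc_analytic (G := fun z => Complex.exp (-((η : ℂ) * (hs h i J).eval z))) (R := 2)
    (by norm_num) (((((hs h i J).differentiable.const_mul (η : ℂ)).neg).cexp).differentiableOn)
    k.natAbs
  have h2 : -((k.natAbs : ℕ) : ℤ) = k := by omega
  rw [h2, zero_pow (by omega), zero_mul] at h1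
  exact h1

theorem fc_ffE (T : Finset ℤ) (e : ℤ → ℂ) (h : ℕ → ℂ[X]) (η : ℝ) (i J : ℕ) (s : ℤ) :
    fc (fun x => ff T e i x * EE h η i J x) s = ∑ t ∈ T.filter (fun t => bi T t = i),
      (((4 : ℂ) ^ i)⁻¹ * e t) * fc (EE h η i J) (s - t) :=
  fc_finsum (EE_cont h η i J) (T.filter (fun t => bi T t = i)) (fun t => ((4 : ℂ) ^ i)⁻¹ * e t) s

theorem bi_anti (T : Finset ℤ) {s t : ℤ} (h : t ≤ s) : bi T s ≤ bi T t :=
  Nat.log_mono_right (by have := rk_anti T h; omega)

theorem fc_ffE_zero (T : Finset ℤ) (e : ℤ → ℂ) (h : ℕ → ℂ[X]) (η : ℝ) {i : ℕ} (J : ℕ) {s : ℤ}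
    (hi : i < bi T s) : fc (fun x => ff T e i x * EE h η i J x) s = 0 := by
  rw [fc_ffE]
  refine Finset.sum_eq_zero fun t ht => ?_
  rw [Finset.mem_filter] at ht
  have hts : s < t := by
    by_contra hcon
    have := bi_anti T (not_lt.1 hcon)
    omega
  rw [EE_fc_neg h η i J (by omega), mul_zero]

theorem fc_ff_zero (T : Finset ℤ) (e : ℤ → ℂ) {i : ℕ} {s : ℤ} (hi : i < bi T s) :
    fc (ff T e i) s = 0 := by
  rw [fc_ff, if_neg]
  rintro ⟨-, h2⟩
  omega

theorem fc_norm_le {f : ℝ → ℂ} {g : ℝ → ℝ} (hg : Continuous g) (hfg : ∀ x, ‖f x‖ ≤ g x) (s : ℤ) :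
    ‖fc f s‖ ≤ (2 * Real.pi)⁻¹ * ∫ x in (-Real.pi)..Real.pi, g x := by
  have hpi := Real.pi_pos
  rw [fc, norm_mul, norm_inv, norm_mul, Complex.norm_real, Real.norm_of_nonneg hpi.le]
  simp only [Complex.norm_ofNat]
  gcongr
  refine intervalIntegral.norm_integral_le_of_norm_le (by linarith) ?_
    (hg.intervalIntegrable _ _)
  refine Filter.Eventually.of_forall fun x _ => ?_
  rw [norm_mul, norm_exp_aux, mul_one]
  exact hfg x

theorem fc_diff (T : Finset ℤ) {e : ℤ → ℂ} (he : ∀ t, ‖e t‖ ≤ 1) {h : ℕ → ℂ[X]}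
    (hh : ∀ i, ∀ x : ℝ, ‖ff T e i x‖ ≤ ((h i).eval (Complex.exp ((x : ℂ) * I))).re)
    (hh2 : ∀ i, (2 * Real.pi)⁻¹ * ∫ x in (-Real.pi)..Real.pi,
      ‖(h i).eval (Complex.exp ((x : ℂ) * I))‖ ^ 2 ≤ 8 * (((1 : ℝ) / 2) ^ i) ^ 2)
    {η : ℝ} (h0 : 0 < η) (i J : ℕ) (s : ℤ) :
    ‖fc (fun x => ff T e i x * EE h η i J x) s - fc (ff T e i) s‖ ≤
      10 * η * (((1 : ℝ) / 2) ^ i) ^ 2 := by
  have hpi := Real.pi_pos
  have hc : Continuous fun x => ff T e i x * EE h η i J x := (ff_cont T e i).mul (EE_cont h η i J)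
  rw [← fc_sub hc (ff_cont T e i)]
  have hhc : ∀ l : ℕ, Continuous fun x : ℝ => (h l).eval (Complex.exp ((x : ℂ) * I)) := fun l =>
    (h l).continuous.comp (by fun_prop)
  set g : ℝ → ℝ := fun x => ∑ l ∈ Finset.Ico (i + 1) J,
    (2 * η) * (‖ff T e i x‖ * ‖(h l).eval (Complex.exp ((x : ℂ) * I))‖) with hg
  have hgc : Continuous g := by
    refine continuous_finsetSum _ fun l _ => ?_
    exact continuous_const.mul ((ff_cont T e i).norm.mul (hhc l).norm)
  have hb : ∀ x, ‖ff T e i x * EE h η i J x - ff T e i x‖ ≤ g x := by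
    intro x
    have e1 : ff T e i x * EE h η i J x - ff T e i x = ff T e i x * (EE h η i J x - 1) := by ring
    have hre : 0 ≤ ((η : ℂ) * (hs h i J).eval (Complex.exp ((x : ℂ) * I))).re := by
      rw [Complex.re_ofReal_mul]
      refine mul_nonneg h0.le ?_
      rw [hs, eval_finsetSum, Complex.re_sum]
      exact Finset.sum_nonneg fun l _ => (norm_nonneg _).trans (hh l x)
    rw [e1, norm_mul]
    calc ‖ff T e i x‖ * ‖EE h η i J x - 1‖
        ≤ ‖ff T e i x‖ * (2 * ‖(η : ℂ) * (hs h i J).eval (Complex.exp ((x : ℂ) * I))‖) := by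
          gcongr
          exact exp_neg_sub_one hre
      _ = ‖ff T e i x‖ * (2 * (η * ‖(hs h i J).eval (Complex.exp ((x : ℂ) * I))‖)) := by
          rw [norm_mul, Complex.norm_real, Real.norm_of_nonneg h0.le]
      _ ≤ ‖ff T e i x‖ * (2 * (η * ∑ l ∈ Finset.Ico (i + 1) J,
            ‖(h l).eval (Complex.exp ((x : ℂ) * I))‖)) := by
          gcongr
          rw [hs, eval_finsetSum]
          exact norm_sum_le _ _
      _ = g x := by
          rw [hg]
          simp only [Finset.mul_sum]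
          exact Finset.sum_congr rfl fun l _ => by ring
  refine (fc_norm_le hgc hb s).trans ?_
  have e2 : ∫ x in (-Real.pi)..Real.pi, g x = ∑ l ∈ Finset.Ico (i + 1) J, (2 * η) *
      ∫ x in (-Real.pi)..Real.pi, ‖ff T e i x‖ * ‖(h l).eval (Complex.exp ((x : ℂ) * I))‖ := by
    rw [hg, intervalIntegral.integral_finsetSum]
    · exact Finset.sum_congr rfl fun l _ => by rw [intervalIntegral.integral_const_mul]
    · intro l _
      exact (continuous_const.mul ((ff_cont T e i).norm.mul (hhc l).norm)).intervalIntegrable _ _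
  have hsq := ff_sq T he i
  have h4 : ((4 : ℝ) ^ i)⁻¹ = ((1 / 2 : ℝ) ^ i) ^ 2 := by
    rw [← pow_mul, mul_comm i 2, pow_mul, ← inv_pow]
    norm_num
  rw [h4] at hsq
  rw [e2, Finset.mul_sum]
  calc ∑ l ∈ Finset.Ico (i + 1) J, (2 * Real.pi)⁻¹ * ((2 * η) *
        ∫ x in (-Real.pi)..Real.pi, ‖ff T e i x‖ * ‖(h l).eval (Complex.exp ((x : ℂ) * I))‖)
      ≤ ∑ l ∈ Finset.Ico (i + 1) J, (2 * η) * (5 * ((1 / 2) ^ i * (1 / 2) ^ l)) := by
        refine Finset.sum_le_sum fun l _ => ?_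
        have h5 := cs_bound (ff_cont T e i) (hhc l) (P := (1 / 2) ^ i) (Q := (1 / 2) ^ l)
          (by positivity) (by positivity) hsq (hh2 l)
        calc _ = (2 * η) * ((2 * Real.pi)⁻¹ * ∫ x in (-Real.pi)..Real.pi,
              ‖ff T e i x‖ * ‖(h l).eval (Complex.exp ((x : ℂ) * I))‖) := by ring
          _ ≤ _ := by gcongr
    _ = (10 * η * (1 / 2) ^ i) * ∑ l ∈ Finset.Ico (i + 1) J, (1 / 2) ^ l := by
        rw [Finset.mul_sum]
        exact Finset.sum_congr rfl fun l _ => by ring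
    _ ≤ (10 * η * (1 / 2) ^ i) * (1 / 2) ^ i := by
        gcongr
        exact geo_tail i J
    _ = 10 * η * (((1 : ℝ) / 2) ^ i) ^ 2 := by ring

theorem wt_eq (T : Finset ℤ) (s : ℤ) : wt T s = ((1 / 2 : ℝ) ^ bi T s) ^ 2 := by
  rw [wt, ← pow_mul, mul_comm (bi T s) 2, pow_mul, ← inv_pow]
  norm_num

/-- The test function of McGehee, Pigno and Smith for the finite set `T` and the unimodular
numbers `e`. -/
theorem test_fn (T : Finset ℤ) {e : ℤ → ℂ} (he : ∀ t, ‖e t‖ ≤ 1) {η : ℝ} (h0 : 0 < η)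
    (h1 : η ≤ 1) : ∃ G : ℝ → ℂ, Continuous G ∧ (∀ x, ‖G x‖ ≤ 2 / η) ∧
      ∀ s : ℤ, ‖fc G s - (if s ∈ T then (wt T s : ℂ) * e s else 0)‖ ≤ 20 * η * wt T s := by
  choose h hh hh2 using exists_h T he
  obtain ⟨J, hJ⟩ : ∃ J : ℕ, ∀ t ∈ T, bi T t < J := by
    obtain ⟨B, hB⟩ := (T.image (bi T)).bddAbove
    exact ⟨B + 1, fun t ht => Nat.lt_succ_of_le (hB (by
      rw [Finset.coe_image]
      exact ⟨t, ht, rfl⟩))⟩
  have hterm : ∀ i : ℕ, Continuous fun x => ff T e i x * EE h η i J x := fun i =>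
    (ff_cont T e i).mul (EE_cont h η i J)
  refine ⟨GG T e h η J, ?_, GG_norm T he hh h0 h1 J, fun s => ?_⟩
  · exact continuous_finsetSum _ fun i _ => hterm i
  have hsum : fc (GG T e h η J) s = ∑ i ∈ Finset.range J, fc (fun x => ff T e i x * EE h η i J x) s := by
    have : ∀ n : ℕ, fc (fun x => ∑ i ∈ Finset.range n, ff T e i x * EE h η i J x) s =
        ∑ i ∈ Finset.range n, fc (fun x => ff T e i x * EE h η i J x) s := by
      intro n
      induction n with
      | zero => simp [fc]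
      | succ n ih =>
        rw [Finset.sum_range_succ, ← ih, ← fc_add (continuous_finsetSum _ fun i _ => hterm i)
          (hterm n)]
        congr 1
        funext x
        rw [Finset.sum_range_succ]
    exact this J
  have hmain : (if s ∈ T then (wt T s : ℂ) * e s else 0) = ∑ i ∈ Finset.range J, fc (ff T e i) s := by
    simp only [fc_ff]
    split_ifs with hs
    · simp only [hs, true_and]
      rw [Finset.sum_ite_eq, if_pos (Finset.mem_range.2 (hJ s hs)), wt]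
      push_cast
      rfl
    · simp [hs]
  rw [hsum, hmain, ← Finset.sum_sub_distrib]
  set j := bi T s with hj
  calc ‖∑ i ∈ Finset.range J, (fc (fun x => ff T e i x * EE h η i J x) s - fc (ff T e i) s)‖
      ≤ ∑ i ∈ Finset.range J, ‖fc (fun x => ff T e i x * EE h η i J x) s - fc (ff T e i) s‖ :=
        norm_sum_le _ _
    _ ≤ ∑ i ∈ Finset.range J, if j ≤ i then 10 * η * (((1 : ℝ) / 2) ^ i) ^ 2 else 0 := by
        refine Finset.sum_le_sum fun i _ => ?_
        split_ifs with hi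
        · exact fc_diff T he hh hh2 h0 i J s
        · rw [fc_ffE_zero T e h η J (not_le.1 hi), fc_ff_zero T e (not_le.1 hi), sub_zero, norm_zero]
    _ = ∑ i ∈ (Finset.range J).filter (fun i => j ≤ i), 10 * η * (((1 : ℝ) / 2) ^ i) ^ 2 := by
        rw [Finset.sum_filter]
    _ ≤ ∑ i ∈ Finset.Ico j J, 10 * η * (((1 : ℝ) / 2) ^ i) ^ 2 := by
        refine Finset.sum_le_sum_of_subset_of_nonneg ?_ fun i _ _ => by positivity
        intro i hi
        rw [Finset.mem_filter, Finset.mem_range] at hi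
        exact Finset.mem_Ico.2 ⟨hi.2, hi.1⟩
    _ = 10 * η * ∑ i ∈ Finset.Ico j J, (((1 : ℝ) / 2) ^ i) ^ 2 := by rw [Finset.mul_sum]
    _ ≤ 10 * η * (2 * ((1 / 2) ^ j) ^ 2) := by
        gcongr
        exact geo_tail4 j J
    _ = 20 * η * wt T s := by
        rw [wt_eq, hj]
        ring

end Pool.Agent.Helper13.SZ
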