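import Pool.Agent.Helper13.SZ.Arc
import Pool.Agent.Helper53.SLM.Asm

/-!
# Salem numbers with a polynomial of bounded height that is uniformly integrable on one arc
-/

namespace Pool.Agent.Helper13.SZ

open Polynomial Filter Topology
open Pool.Agent.Helper53.SL (IsSalem cx TP FN)
open Pool.Agent.Helper96.Salem (IsPisot)

/-- The class. -/
def AC (Φ : ℝ → ℝ) (l : ℝ) (H : ℕ) (B : ℝ) : Set ℝ :=
  {τ | IsSalem τ ∧ ∃ A : ℤ[X], aeval τ A = 0 ∧ (cx A).mahlerMeasure = τ ∧ (∀ n, |A.coeff n| ≤ H) ∧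
    ∃ α : ℝ, ∫ θ in α..(α + l), Φ ‖aeval (Complex.exp ((θ : ℂ) * Complex.I)) A‖ ≤ B}

theorem mahler_X_pow_sub_one {m : ℕ} (hm : 0 < m) : (X ^ m - 1 : ℂ[X]).mahlerMeasure = 1 := by
  have hmon : (X ^ m - 1 : ℂ[X]).Monic := monic_X_pow_sub_C 1 (by omega)
  rw [mahlerMeasure_eq_leadingCoeff_mul_prod_roots, hmon.leadingCoeff, norm_one, one_mul]
  refine Multiset.prod_eq_one fun x hx => ?_
  obtain ⟨a, ha, rfl⟩ := Multiset.mem_map.1 hx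
  have h1 : (X ^ m - 1 : ℂ[X]).eval a = 0 := (mem_roots hmon.ne_zero).1 ha
  rw [eval_sub, eval_pow, eval_X, eval_one, sub_eq_zero] at h1
  have h2 : ‖a‖ = 1 := by
    have h3 := congrArg norm h1
    rw [norm_pow, norm_one] at h3
    exact (pow_eq_one_iff_of_nonneg (norm_nonneg _) (by omega)).1 h3
  rw [h2, max_self]

theorem mahler_mul_A {m : ℕ} (hm : 0 < m) (A : ℤ[X]) :
    (cx ((X ^ m - 1) * A)).mahlerMeasure = (cx A).mahlerMeasure := by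
  have h : cx ((X ^ m - 1) * A) = (X ^ m - 1) * cx A := by
    unfold cx
    simp
  rw [h, mahlerMeasure_mul, mahler_X_pow_sub_one hm, one_mul]

theorem coeff_bound_mul {A : ℤ[X]} {H : ℕ} (hA : ∀ n, |A.coeff n| ≤ H) (m n : ℕ) :
    |((X ^ m - 1) * A).coeff n| ≤ ((2 * H : ℕ) : ℤ) := by
  rw [coeff_mul_ca]
  have h1 := ca_bound hA ((n : ℤ) - m)
  have h2 := ca_bound hA (n : ℤ)
  have h3 := abs_sub (ca A ((n : ℤ) - m)) (ca A n)
  push_cast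
  linarith

/-- The elements of the class come from polynomials with boundedly many nonzero coefficients. -/
theorem sparse {Φ : ℝ → ℝ} (hmono : Monotone Φ) (hsup : Tendsto (fun t => Φ t / t) atTop atTop)
    {l : ℝ} (hl : 0 < l) (H : ℕ) (B : ℝ) : ∃ k : ℕ, ∀ τ ∈ AC Φ l H B, ∃ A : ℤ[X],
      A.support.card ≤ k ∧ (∀ n, |A.coeff n| ≤ ((2 * H : ℕ) : ℤ)) ∧ aeval τ A = 0 ∧
        (cx A).mahlerMeasure = τ := by
  obtain ⟨m, K, hm, hK⟩ := arc_phi H hl hmono hsup B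
  refine ⟨K, ?_⟩
  rintro τ ⟨-, A, hA0, hAm, hAH, α, hα⟩
  refine ⟨(X ^ m - 1) * A, hK A hAH α hα, coeff_bound_mul hAH m, ?_, ?_⟩
  · rw [map_mul, hA0, mul_zero]
  · rw [mahler_mul_A hm, hAm]

theorem sub_TP {Φ : ℝ → ℝ} (hmono : Monotone Φ) (hsup : Tendsto (fun t => Φ t / t) atTop atTop)
    {l : ℝ} (hl : 0 < l) (H : ℕ) (B M : ℝ) : ∃ B' : ℝ, ∀ τ ∈ AC Φ l H B, τ ≤ M → τ ∈ TP 2 B' := by
  obtain ⟨k, hk⟩ := sparse hmono hsup hl H B
  obtain ⟨B', hB'⟩ := Pool.Agent.Helper53.SLM.terms_sub Pool.Agent.Helper53.SLM.hUnp' k M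
    (p := 2) (by norm_num)
  refine ⟨B', fun τ hτ hM => ?_⟩
  obtain ⟨A, h1, -, h2, h3⟩ := hk τ hτ
  refine hB' τ hτ.1 hM ⟨A, ?_, h1, h2, h3⟩
  rintro rfl
  have h4 := hτ.1.2.1
  unfold cx at h3
  rw [Polynomial.map_zero, mahlerMeasure_zero] at h3
  linarith

theorem limit_pisot {Φ : ℝ → ℝ} (hmono : Monotone Φ)
    (hsup : Tendsto (fun t => Φ t / t) atTop atTop) {l : ℝ} (hl : 0 < l) (H : ℕ) (B c : ℝ)
    (h : AccPt c (𝓟 (AC Φ l H B))) : IsPisot c := by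
  obtain ⟨B', hB'⟩ := sub_TP hmono hsup hl H B (c + 1)
  refine Pool.Agent.Helper53.SLM.limit_pisot Pool.Agent.Helper53.SLM.hMmp'
      Pool.Agent.Helper53.SLM.hLev' Pool.Agent.Helper53.SLM.hRat' Pool.Agent.Helper53.SLM.hCon'
      Pool.Agent.Helper53.SLM.hDtp' Pool.Agent.Helper53.SLM.hLms' Pool.Agent.Helper53.SLM.hPsa'
      (p := 2) (B := B') (by norm_num) ?_
  rw [accPt_iff_frequently] at h ⊢
  have h2 : ∀ᶠ τ in 𝓝 c, τ < c + 1 := gt_mem_nhds (by linarith)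
  refine (h.and_eventually h2).mono ?_
  rintro τ ⟨⟨h3, h4⟩, h5⟩
  exact ⟨h3, hB' τ h4 h5.le⟩

theorem abs_coeff_minpoly_bound (A : ℤ[X]) : ∃ H : ℕ, ∀ n, |A.coeff n| ≤ (H : ℤ) := by
  refine ⟨∑ i ∈ A.support, (A.coeff i).natAbs, fun n => ?_⟩
  by_cases hn : n ∈ A.support
  · have h1 : (A.coeff n).natAbs ≤ ∑ i ∈ A.support, (A.coeff i).natAbs :=
      Finset.single_le_sum (f := fun i => (A.coeff i).natAbs) (fun i _ => Nat.zero_le _) hn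
    rw [Int.abs_eq_natAbs]
    exact_mod_cast h1
  · rw [notMem_support_iff.1 hn, abs_zero]
    positivity

theorem exhaust (Φ : ℝ → ℝ) (l : ℝ) {τ : ℝ} (h : IsSalem τ) : ∃ (H : ℕ) (B : ℝ), τ ∈ AC Φ l H B := by
  obtain ⟨H, hH⟩ := abs_coeff_minpoly_bound (minpoly ℤ τ)
  exact ⟨H, _, h, minpoly ℤ τ, minpoly.aeval ℤ τ, Pool.Agent.Helper53.SL.mahler_minpoly h, hH, 0,
    le_rfl⟩

theorem AC_mono {Φ : ℝ → ℝ} {l : ℝ} {H H' : ℕ} {B B' : ℝ} (hH : H ≤ H') (hB : B ≤ B') :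
    AC Φ l H B ⊆ AC Φ l H' B' := by
  rintro τ ⟨h1, A, h2, h3, h4, α, h5⟩
  exact ⟨h1, A, h2, h3, fun n => (h4 n).trans (by exact_mod_cast hH), α, h5.trans hB⟩

theorem fn_coeff {n : ℕ} (hn : 4 ≤ n) (k : ℕ) : |(FN n).coeff k| ≤ 1 := by
  rw [Pool.Agent.Helper87.SL.fn_eq]
  simp only [coeff_add, coeff_neg, coeff_X_pow, coeff_one]
  split_ifs <;> first | omega | simp

theorem fn_norm (n : ℕ) (θ : ℝ) : ‖aeval (Complex.exp ((θ : ℂ) * Complex.I)) (FN n)‖ ≤ 6 := by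
  rw [Pool.Agent.Helper87.SL.fn_aeval]
  have hz : ‖Complex.exp ((θ : ℂ) * Complex.I)‖ = 1 := Complex.norm_exp_ofReal_mul_I θ
  set z := Complex.exp ((θ : ℂ) * Complex.I) with hzdef
  calc ‖z ^ n * (z ^ 3 - z - 1) + (z ^ 3 + z ^ 2 - 1)‖
      ≤ ‖z ^ n * (z ^ 3 - z - 1)‖ + ‖z ^ 3 + z ^ 2 - 1‖ := norm_add_le _ _
    _ ≤ 3 + 3 := by
        gcongr
        · rw [norm_mul, norm_pow, hz, one_pow, one_mul]
          calc ‖z ^ 3 - z - 1‖ ≤ ‖z ^ 3 - z‖ + ‖(1 : ℂ)‖ := norm_sub_le _ _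
            _ ≤ (‖z ^ 3‖ + ‖z‖) + ‖(1 : ℂ)‖ := by gcongr; exact norm_sub_le _ _
            _ = 3 := by rw [norm_pow, hz, norm_one]; norm_num
        · calc ‖z ^ 3 + z ^ 2 - 1‖ ≤ ‖z ^ 3 + z ^ 2‖ + ‖(1 : ℂ)‖ := norm_sub_le _ _
            _ ≤ (‖z ^ 3‖ + ‖z ^ 2‖) + ‖(1 : ℂ)‖ := by gcongr; exact norm_add_le _ _
            _ = 3 := by rw [norm_pow, norm_pow, hz, norm_one]; norm_num
    _ = 6 := by norm_num

theorem integrable_phi {Φ : ℝ → ℝ} (hmono : Monotone Φ) (A : ℤ[X]) (a b : ℝ) :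
    IntervalIntegrable (fun θ : ℝ => Φ ‖aeval (Complex.exp ((θ : ℂ) * Complex.I)) A‖)
      MeasureTheory.volume a b := by
  set f : ℝ → ℝ := fun θ => ‖aeval (Complex.exp ((θ : ℂ) * Complex.I)) A‖ with hf
  have hfc : Continuous f := (((Polynomial.continuous_aeval A).comp (by fun_prop :
      Continuous fun θ : ℝ => Complex.exp ((θ : ℂ) * Complex.I))).norm)
  obtain ⟨M, hM⟩ := (isCompact_uIcc (a := a) (b := b)).exists_bound_of_continuousOn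
    hfc.continuousOn
  have hconst : IntervalIntegrable (fun _ : ℝ => |Φ 0| + |Φ M|) MeasureTheory.volume a b :=
    intervalIntegrable_const
  refine hconst.mono_fun ?_ ?_
  · exact (hmono.measurable.comp hfc.measurable).aestronglyMeasurable
  · refine (MeasureTheory.ae_restrict_iff' measurableSet_uIoc).2
      (Filter.Eventually.of_forall fun θ hθ => ?_)
    have h1 := hM θ (Set.uIoc_subset_uIcc hθ)
    have h0 : 0 ≤ f θ := norm_nonneg _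
    rw [Real.norm_of_nonneg h0] at h1
    have h2 := hmono h0
    have h3 := hmono h1
    change |Φ (f θ)| ≤ |(|Φ 0| + |Φ M|)|
    rw [abs_of_nonneg (a := |Φ 0| + |Φ M|) (by positivity)]
    refine abs_le.2 ⟨?_, ?_⟩
    · have := neg_abs_le (Φ 0)
      have := abs_nonneg (Φ M)
      linarith
    · have := le_abs_self (Φ M)
      have := abs_nonneg (Φ 0)
      linarith

theorem theta_acc {Φ : ℝ → ℝ} (hmono : Monotone Φ) {l : ℝ} (hl : 0 < l) {H : ℕ} (hH : 1 ≤ H) {B : ℝ}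
    (hB : l * Φ 6 ≤ B) {θ : ℝ} (hθ : θ ^ 3 - θ - 1 = 0) : AccPt θ (𝓟 (AC Φ l H B)) := by
  rw [accPt_iff_nhds]
  intro U hU
  obtain ⟨δ, hδ, hsub⟩ := Metric.mem_nhds_iff.1 hU
  obtain ⟨N, hN⟩ := Pool.Agent.Helper54.SL.hRt θ hθ δ hδ
  obtain ⟨τ, a1, a2, a3, a4, a5, a6, a7⟩ := hN (max N 4) (le_max_left _ _)
  have hn4 : 4 ≤ max N 4 := le_max_right _ _
  have hn : 1 ≤ max N 4 := by omega
  refine ⟨τ, ⟨hsub (by rw [Metric.mem_ball, Real.dist_eq]; exact a2), ?_⟩, a1⟩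
  refine ⟨Pool.Agent.Helper87.SL.fn_salem hn a3 a4 a5 a7, FN (max N 4), a5,
    Pool.Agent.Helper87.SL.fn_mahler hn a3 a5 a6 a7, fun k => (fn_coeff hn4 k).trans
      (by exact_mod_cast hH), 0, ?_⟩
  refine le_trans ?_ hB
  calc _ ≤ ∫ _θ in (0 : ℝ)..(0 + l), Φ 6 := by
        refine intervalIntegral.integral_mono_on (by linarith) (integrable_phi hmono _ _ _)
          intervalIntegrable_const fun θ _ => hmono (fn_norm _ _)
    _ = l * Φ 6 := by rw [intervalIntegral.integral_const, smul_eq_mul]; ring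

theorem criterion {Φ : ℝ → ℝ} (hmono : Monotone Φ) (hsup : Tendsto (fun t => Φ t / t) atTop atTop)
    {l : ℝ} (hl : 0 < l) (θ : ℝ) (hθ : θ ^ 3 - θ - 1 = 0) :
    (AccPt θ (𝓟 {τ : ℝ | IsSalem τ}) ∧ ∀ y : ℝ, AccPt y (𝓟 {τ : ℝ | IsSalem τ}) → θ ≤ y) ↔
      ∀ x < θ, ∃ (H : ℕ) (B : ℝ), ∀ τ ≤ x, IsSalem τ → τ ∈ AC Φ l H B := by
  constructor
  · rintro ⟨-, h⟩ x hx
    have hfin : ({τ : ℝ | IsSalem τ ∧ τ ≤ x}).Finite := by
      by_contra hinf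
      have hsub : {τ : ℝ | IsSalem τ ∧ τ ≤ x} ⊆ Set.Icc 1 x := fun τ hτ => ⟨hτ.1.2.1.le, hτ.2⟩
      obtain ⟨y, hy, hacc⟩ := Set.Infinite.exists_accPt_of_subset_isCompact hinf isCompact_Icc hsub
      have h1 := h y (hacc.mono (principal_mono.2 fun τ hτ => hτ.1))
      linarith [hy.2]
    have hex : ∀ τ : ℝ, ∃ (H : ℕ) (B : ℝ), IsSalem τ → τ ∈ AC Φ l H B := by
      intro τ
      by_cases hS : IsSalem τ
      · obtain ⟨H, B, hB⟩ := exhaust Φ l hS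
        exact ⟨H, B, fun _ => hB⟩
      · exact ⟨0, 0, fun h => absurd h hS⟩
    choose Hf Bf hBf using hex
    obtain ⟨B, hB⟩ := (hfin.image Bf).bddAbove
    obtain ⟨H, hH⟩ := (hfin.image Hf).bddAbove
    exact ⟨H, B, fun τ hτ hS => AC_mono (hH ⟨τ, ⟨hS, hτ⟩, rfl⟩) (hB ⟨τ, ⟨hS, hτ⟩, rfl⟩) (hBf τ hS)⟩
  · intro h
    refine ⟨(theta_acc hmono hl (H := 1) le_rfl le_rfl hθ).mono
      (principal_mono.2 fun τ hτ => hτ.1), fun y hy => ?_⟩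
    by_contra hcon
    have hyθ : y < θ := not_le.1 hcon
    obtain ⟨H, B, hB⟩ := h ((y + θ) / 2) (by linarith)
    have hacc : AccPt y (𝓟 (AC Φ l H B)) := by
      rw [accPt_iff_frequently] at hy ⊢
      have h2 : ∀ᶠ τ in 𝓝 y, τ < (y + θ) / 2 := gt_mem_nhds (by linarith)
      refine (hy.and_eventually h2).mono ?_
      rintro τ ⟨⟨h3, h4⟩, h5⟩
      exact ⟨h3, hB τ h5.le h4⟩
    exact hcon (Pool.Agent.Helper53.SLM.hSie' y θ (limit_pisot hmono hsup hl H B y hacc) hθ)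

theorem finite_below {Φ : ℝ → ℝ} (hmono : Monotone Φ)
    (hsup : Tendsto (fun t => Φ t / t) atTop atTop) {l : ℝ} (hl : 0 < l) (H : ℕ) (B : ℝ) {θ x : ℝ}
    (hθ : θ ^ 3 - θ - 1 = 0) (hx : x < θ) : (AC Φ l H B ∩ Set.Iic x).Finite :=
  Pool.Agent.Helper53.SLM.finite_below Pool.Agent.Helper53.SLM.hSie' (fun _ hτ => hτ.1.2.1)
    (limit_pisot hmono hsup hl H B) hθ hx

end Pool.Agent.Helper13.SZ
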