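import Pool.Agent.Helper13.SZ.L1Main
import Pool.Agent.Helper13.SZ.Top

/-!
# Salem numbers with a polynomial of bounded height and bounded `L¹` norm on one arc
-/

namespace Pool.Agent.Helper13.SZ

open Polynomial Filter Topology
open Pool.Agent.Helper53.SL (IsSalem cx TP FN)
open Pool.Agent.Helper96.Salem (IsPisot)

/-- The class. -/
def A1 (l : ℝ) (H : ℕ) (B : ℝ) : Set ℝ :=
  {τ | IsSalem τ ∧ ∃ A : ℤ[X], aeval τ A = 0 ∧ (cx A).mahlerMeasure = τ ∧ (∀ n, |A.coeff n| ≤ H) ∧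
    ∃ α : ℝ, ∫ θ in α..(α + l), ‖aeval (Complex.exp ((θ : ℂ) * Complex.I)) A‖ ≤ B}

theorem A1_eq (l : ℝ) (H : ℕ) (B : ℝ) : A1 l H B = AC (fun t => t) l H B := rfl

theorem sparse1 {l : ℝ} (hl : 0 < l) (H : ℕ) : ∃ C : ℝ, 0 < C ∧ ∀ B : ℝ, ∀ τ ∈ A1 l H B,
    ∃ A : ℤ[X], (A.support.card : ℝ) ≤ C * Real.exp (C * B) ∧
      (∀ n, |A.coeff n| ≤ ((2 * H : ℕ) : ℤ)) ∧ aeval τ A = 0 ∧ (cx A).mahlerMeasure = τ := by
  obtain ⟨m, C, hm, hC, hmain⟩ := arc_l1 H hl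
  refine ⟨C, hC, fun B => ?_⟩
  rintro τ ⟨-, A, hA0, hAm, hAH, α, hα⟩
  refine ⟨(X ^ m - 1) * A, ?_, coeff_bound_mul hAH m, ?_, ?_⟩
  · refine (hmain A hAH α).trans ?_
    gcongr
  · rw [map_mul, hA0, mul_zero]
  · rw [mahler_mul_A hm, hAm]

theorem sub_TP1 {l : ℝ} (hl : 0 < l) (H : ℕ) (B M : ℝ) :
    ∃ B' : ℝ, ∀ τ ∈ A1 l H B, τ ≤ M → τ ∈ TP 2 B' := by
  obtain ⟨C, -, hC⟩ := sparse1 hl H
  obtain ⟨B', hB'⟩ := Pool.Agent.Helper53.SLM.terms_sub Pool.Agent.Helper53.SLM.hUnp'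
    ⌈C * Real.exp (C * B)⌉₊ M (p := 2) (by norm_num)
  refine ⟨B', fun τ hτ hM => ?_⟩
  obtain ⟨A, h1, -, h2, h3⟩ := hC B τ hτ
  refine hB' τ hτ.1 hM ⟨A, ?_, by exact_mod_cast h1.trans (Nat.le_ceil _), h2, h3⟩
  rintro rfl
  have h4 := hτ.1.2.1
  unfold cx at h3
  rw [Polynomial.map_zero, mahlerMeasure_zero] at h3
  linarith

theorem limit_pisot1 {l : ℝ} (hl : 0 < l) (H : ℕ) (B c : ℝ) (h : AccPt c (𝓟 (A1 l H B))) :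
    IsPisot c := by
  obtain ⟨B', hB'⟩ := sub_TP1 hl H B (c + 1)
  refine Pool.Agent.Helper53.SLM.limit_pisot Pool.Agent.Helper53.SLM.hMmp'
      Pool.Agent.Helper53.SLM.hLev' Pool.Agent.Helper53.SLM.hRat' Pool.Agent.Helper53.SLM.hCon'
      Pool.Agent.Helper53.SLM.hDtp' Pool.Agent.Helper53.SLM.hLms' Pool.Agent.Helper53.SLM.hPsa'
      (p := 2) (B := B') (by norm_num) ?_
  rw [accPt_iff_frequently] at h ⊢
  have h2 : ∀ᶠ τ in 𝓝 c, τ < c + 1 := gt_mem_nhds (by linarith)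
  refine (h.and_eventually h2).mono ?_
  rintro τ ⟨⟨h3, h4⟩, h5⟩
  exact ⟨h3, hB' τ h4 h5.le⟩

theorem theta_acc1 {l : ℝ} (hl : 0 < l) {H : ℕ} (hH : 1 ≤ H) {B : ℝ} (hB : 6 * l ≤ B) {θ : ℝ}
    (hθ : θ ^ 3 - θ - 1 = 0) : AccPt θ (𝓟 (A1 l H B)) :=
  theta_acc (Φ := fun t => t) monotone_id hl hH (by linarith) hθ

theorem finite_below1 {l : ℝ} (hl : 0 < l) (H : ℕ) (B : ℝ) {θ x : ℝ} (hθ : θ ^ 3 - θ - 1 = 0)
    (hx : x < θ) : (A1 l H B ∩ Set.Iic x).Finite :=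
  Pool.Agent.Helper53.SLM.finite_below Pool.Agent.Helper53.SLM.hSie' (fun _ hτ => hτ.1.2.1)
    (limit_pisot1 hl H B) hθ hx

theorem criterion1 {l : ℝ} (hl : 0 < l) (θ : ℝ) (hθ : θ ^ 3 - θ - 1 = 0) :
    (AccPt θ (𝓟 {τ : ℝ | IsSalem τ}) ∧ ∀ y : ℝ, AccPt y (𝓟 {τ : ℝ | IsSalem τ}) → θ ≤ y) ↔
      ∀ x < θ, ∃ (H : ℕ) (B : ℝ), ∀ τ ≤ x, IsSalem τ → τ ∈ A1 l H B := by
  constructor
  · rintro ⟨-, h⟩ x hx
    have hfin : ({τ : ℝ | IsSalem τ ∧ τ ≤ x}).Finite := by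
      by_contra hinf
      have hsub : {τ : ℝ | IsSalem τ ∧ τ ≤ x} ⊆ Set.Icc 1 x := fun τ hτ => ⟨hτ.1.2.1.le, hτ.2⟩
      obtain ⟨y, hy, hacc⟩ := Set.Infinite.exists_accPt_of_subset_isCompact hinf isCompact_Icc hsub
      have h1 := h y (hacc.mono (principal_mono.2 fun τ hτ => hτ.1))
      linarith [hy.2]
    have hex : ∀ τ : ℝ, ∃ (H : ℕ) (B : ℝ), IsSalem τ → τ ∈ A1 l H B := by
      intro τ
      by_cases hS : IsSalem τ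
      · obtain ⟨H, B, hB⟩ := exhaust (fun t => t) l hS
        exact ⟨H, B, fun _ => hB⟩
      · exact ⟨0, 0, fun h => absurd h hS⟩
    choose Hf Bf hBf using hex
    obtain ⟨B, hB⟩ := (hfin.image Bf).bddAbove
    obtain ⟨H, hH⟩ := (hfin.image Hf).bddAbove
    refine ⟨H, B, fun τ hτ hS => ?_⟩
    rw [A1_eq]
    refine AC_mono (hH ⟨τ, ⟨hS, hτ⟩, rfl⟩) (hB ⟨τ, ⟨hS, hτ⟩, rfl⟩) ?_
    rw [← A1_eq]
    exact hBf τ hS
  · intro h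
    refine ⟨(theta_acc1 hl (H := 1) le_rfl le_rfl hθ).mono
      (principal_mono.2 fun τ hτ => hτ.1), fun y hy => ?_⟩
    by_contra hcon
    have hyθ : y < θ := not_le.1 hcon
    obtain ⟨H, B, hB⟩ := h ((y + θ) / 2) (by linarith)
    have hacc : AccPt y (𝓟 (A1 l H B)) := by
      rw [accPt_iff_frequently] at hy ⊢
      have h2 : ∀ᶠ τ in 𝓝 y, τ < (y + θ) / 2 := gt_mem_nhds (by linarith)
      refine (hy.and_eventually h2).mono ?_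
      rintro τ ⟨⟨h3, h4⟩, h5⟩
      exact ⟨h3, hB τ h5.le h4⟩
    exact hcon (Pool.Agent.Helper53.SLM.hSie' y θ (limit_pisot1 hl H B y hacc) hθ)

end Pool.Agent.Helper13.SZ
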