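import Pool.Agent.Helper13.SZ.Fourier

/-!
# A window supported in a short arc whose negative frequencies are negligible
-/

namespace Pool.Agent.Helper13.SZ

open Complex Filter Topology

/-- `H(z) = 2 r z / (1 - r z)`. -/
noncomputable def hh (r : ℝ) (z : ℂ) : ℂ := 2 * (r : ℂ) * z / (1 - (r : ℂ) * z)

theorem one_sub_ne {r : ℝ} (hr0 : 0 < r) {z : ℂ} (hz : ‖z‖ < r⁻¹) : 1 - (r : ℂ) * z ≠ 0 := by
  intro h
  have h1 : (r : ℂ) * z = 1 := (sub_eq_zero.1 h).symm
  have h2 : r * ‖z‖ = 1 := by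
    have := congrArg norm h1
    rwa [norm_mul, Complex.norm_real, Real.norm_of_nonneg hr0.le, norm_one] at this
  have h3 : r * ‖z‖ < r * r⁻¹ := by gcongr
  rw [mul_inv_cancel₀ hr0.ne'] at h3
  linarith

theorem re_hh {r t x : ℝ} (hr0 : 0 < r) (hr1 : r < 1) (hx : t ≤ 1 - Real.cos x)
    (hrt : (1 - r) * (1 + 3 * r) ≤ 2 * r * t) : (hh r (Complex.exp ((x : ℂ) * I))).re ≤ -(1 / 2) := by
  have hz : Complex.exp ((x : ℂ) * I) = (Real.cos x : ℂ) + (Real.sin x : ℂ) * I := by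
    rw [Complex.exp_mul_I]; push_cast; rfl
  have hsc := Real.sin_sq_add_cos_sq x
  set c := Real.cos x with hc
  set s := Real.sin x with hs
  have hpos : 0 < (1 - r * c) * (1 - r * c) + (r * s) * (r * s) := by
    have h1 : (1 - r * c) * (1 - r * c) + (r * s) * (r * s) = (1 - r) ^ 2 + 2 * r * (1 - c) := by
      have : (r * s) * (r * s) = r ^ 2 * (1 - c ^ 2) := by rw [← hsc]; ring
      rw [this]; ring
    rw [h1]
    have h2 : 0 < (1 - r) ^ 2 := by
      have : 0 < 1 - r := by linarith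
      positivity
    have h3 : 0 ≤ 2 * r * (1 - c) := by
      have : c ≤ 1 := Real.cos_le_one x
      have : 0 ≤ 1 - c := by linarith
      positivity
    linarith
  have h : (hh r (Complex.exp ((x : ℂ) * I))).re =
      (2 * r * c - 2 * r ^ 2) / ((1 - r * c) * (1 - r * c) + (r * s) * (r * s)) := by
    rw [hh, hz, Complex.div_re]
    have hn : Complex.normSq (1 - (r : ℂ) * ((c : ℂ) + (s : ℂ) * I)) =
        (1 - r * c) * (1 - r * c) + (r * s) * (r * s) := by
      rw [Complex.normSq_apply]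
      simp
    rw [hn, ← add_div]
    congr 1
    simp
    have : s ^ 2 = 1 - c ^ 2 := by linarith
    ring_nf
    rw [this]
    ring
  rw [h, div_le_iff₀ hpos]
  have h4 : (1 - r * c) * (1 - r * c) + (r * s) * (r * s) = 1 - 2 * r * c + r ^ 2 := by
    have : (r * s) * (r * s) = r ^ 2 * (1 - c ^ 2) := by rw [← hsc]; ring
    rw [this]; ring
  rw [h4]
  have h5 : r * t ≤ r * (1 - c) := by gcongr
  nlinarith

/-- Second order decay for smooth periodic functions. -/
theorem deriv_periodic {f : ℝ → ℂ} {T : ℝ} (hp : Function.Periodic f T) :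
    Function.Periodic (deriv f) T := by
  intro x
  have h1 : (fun y => f (y + T)) = f := funext hp
  have h2 := deriv_comp_add_const f T x
  rw [h1] at h2
  exact h2.symm

theorem periodic_bdry {f : ℝ → ℂ} (hp : Function.Periodic f (2 * Real.pi)) :
    f Real.pi = f (-Real.pi) := by
  rw [← hp (-Real.pi)]
  congr 1
  ring

theorem hasDeriv_one {f : ℝ → ℂ} (hf : ContDiff ℝ 2 f) (x : ℝ) : HasDerivAt f (deriv f x) x :=
  ((hf.differentiable (by norm_num)) x).hasDerivAt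

theorem contDiff_deriv {f : ℝ → ℂ} (hf : ContDiff ℝ 2 f) : ContDiff ℝ 1 (deriv f) := by
  have h : ContDiff ℝ (1 + 1) f := by
    rw [one_add_one_eq_two]
    exact hf
  exact (contDiff_succ_iff_deriv.1 h).2.2

theorem hasDeriv_two {f : ℝ → ℂ} (hf : ContDiff ℝ 2 f) (x : ℝ) :
    HasDerivAt (deriv f) (deriv (deriv f) x) x :=
  (((contDiff_deriv hf).differentiable (by norm_num)) x).hasDerivAt

theorem cont_two {f : ℝ → ℂ} (hf : ContDiff ℝ 2 f) : Continuous (deriv (deriv f)) :=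
  (contDiff_deriv hf).continuous_deriv le_rfl

theorem decay_smooth {f : ℝ → ℂ} (hf : ContDiff ℝ 2 f) (hp : Function.Periodic f (2 * Real.pi)) :
    ∃ C : ℝ, 0 ≤ C ∧ ∀ k : ℤ, k ≠ 0 → ‖fc f k‖ ≤ C / (k : ℝ) ^ 2 := by
  obtain ⟨D, hD⟩ := (isCompact_Icc (a := -Real.pi) (b := Real.pi)).exists_bound_of_continuousOn
    (cont_two hf).continuousOn
  refine ⟨max D 0, le_max_right _ _, fun k hk => ?_⟩
  exact decay (hasDeriv_one hf) (hasDeriv_two hf) (cont_two hf) (periodic_bdry hp)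
    (periodic_bdry (deriv_periodic hp)) (fun x hx => (hD x hx).trans (le_max_left _ _)) hk

/-- The cutoff: `0` where `1 - cos x ≤ t`, `1` where `1 - cos x ≥ 2 t`. -/
noncomputable def uu (t : ℝ) (x : ℝ) : ℂ :=
  ((1 - Real.smoothTransition ((2 * t - (1 - Real.cos x)) / t) : ℝ) : ℂ)

theorem uu_contDiff (t : ℝ) : ContDiff ℝ 2 (uu t) := by
  have h1 : ContDiff ℝ 2 (fun x : ℝ => (2 * t - (1 - Real.cos x)) / t) :=
    (contDiff_const.sub (contDiff_const.sub Real.contDiff_cos)).div_const t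
  have h2 : ContDiff ℝ 2 (fun x : ℝ => Real.smoothTransition ((2 * t - (1 - Real.cos x)) / t)) :=
    (Real.smoothTransition.contDiff (n := 2)).comp h1
  exact Complex.ofRealCLM.contDiff.comp (contDiff_const.sub h2)

theorem uu_periodic (t : ℝ) : Function.Periodic (uu t) (2 * Real.pi) := by
  intro x
  simp only [uu, Real.cos_add_two_pi]

theorem uu_zero {t x : ℝ} (ht : 0 < t) (hx : 1 - Real.cos x ≤ t) : uu t x = 0 := by
  have h : 1 ≤ (2 * t - (1 - Real.cos x)) / t := by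
    rw [le_div_iff₀ ht]; linarith
  rw [uu, Real.smoothTransition.one_of_one_le h]
  simp

theorem uu_one {t x : ℝ} (ht : 0 < t) (hx : 2 * t ≤ 1 - Real.cos x) : uu t x = 1 := by
  have h : (2 * t - (1 - Real.cos x)) / t ≤ 0 := div_nonpos_of_nonpos_of_nonneg (by linarith) ht.le
  rw [uu, Real.smoothTransition.zero_of_nonpos h]
  simp

theorem uu_near {t x : ℝ} (ht : 0 < t) (hx : 1 - Real.cos x < t) :
    uu t x = 0 ∧ deriv (uu t) x = 0 ∧ deriv (deriv (uu t)) x = 0 := by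
  have h1 : uu t =ᶠ[𝓝 x] fun _ => (0 : ℂ) := by
    have hop : IsOpen {y : ℝ | 1 - Real.cos y < t} :=
      isOpen_lt (continuous_const.sub Real.continuous_cos) continuous_const
    filter_upwards [hop.mem_nhds hx] with y hy
    exact uu_zero ht (le_of_lt hy)
  have h2 : deriv (uu t) =ᶠ[𝓝 x] fun _ => (0 : ℂ) := by
    have := h1.deriv
    simpa using this
  have h3 : deriv (deriv (uu t)) =ᶠ[𝓝 x] fun _ => (0 : ℂ) := by
    have := h2.deriv
    simpa using this
  exact ⟨h1.self_of_nhds, h2.self_of_nhds, h3.self_of_nhds⟩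

/-- The boundary values of `H`. -/
noncomputable def hb (r : ℝ) (x : ℝ) : ℂ := hh r (Complex.exp ((x : ℂ) * I))

theorem hb_contDiff {r : ℝ} (hr0 : 0 < r) (hr1 : r < 1) : ContDiff ℝ 2 (hb r) := by
  have h1 : ContDiff ℝ 2 (fun x : ℝ => Complex.exp ((x : ℂ) * I)) :=
    (Complex.ofRealCLM.contDiff.mul contDiff_const).cexp
  have h2 : ∀ x : ℝ, 1 - (r : ℂ) * Complex.exp ((x : ℂ) * I) ≠ 0 := fun x => by
    refine one_sub_ne hr0 ?_
    rw [Complex.norm_exp_ofReal_mul_I]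
    exact (one_lt_inv₀ hr0).2 hr1
  have h3 : ContDiff ℝ 2 (fun x : ℝ => 1 - (r : ℂ) * Complex.exp ((x : ℂ) * I)) :=
    contDiff_const.sub (contDiff_const.mul h1)
  have h4 : hb r = fun x : ℝ => 2 * (r : ℂ) * Complex.exp ((x : ℂ) * I) *
      (1 - (r : ℂ) * Complex.exp ((x : ℂ) * I))⁻¹ := by
    funext x
    rw [hb, hh, div_eq_mul_inv]
  rw [h4]
  exact (contDiff_const.mul h1).mul (h3.inv h2)

theorem hb_periodic (r : ℝ) : Function.Periodic (hb r) (2 * Real.pi) := by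
  intro x
  have h : Complex.exp (((x + 2 * Real.pi : ℝ) : ℂ) * I) = Complex.exp ((x : ℂ) * I) := by
    rw [Complex.exp_eq_exp_iff_exists_int]
    exact ⟨1, by push_cast; ring⟩
  rw [hb, h, hb]

/-- `e_N = u * exp (N H)`. -/
noncomputable def ee (t r : ℝ) (N : ℝ) (x : ℝ) : ℂ := uu t x * Complex.exp ((N : ℂ) * hb r x)

noncomputable def ee1 (t r : ℝ) (N : ℝ) (x : ℝ) : ℂ :=
  (deriv (uu t) x + N * uu t x * deriv (hb r) x) * Complex.exp ((N : ℂ) * hb r x)

noncomputable def ee2 (t r : ℝ) (N : ℝ) (x : ℝ) : ℂ :=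
  (deriv (deriv (uu t)) x + 2 * N * deriv (uu t) x * deriv (hb r) x +
    N * uu t x * deriv (deriv (hb r)) x + (N : ℂ) ^ 2 * uu t x * deriv (hb r) x ^ 2) *
    Complex.exp ((N : ℂ) * hb r x)

theorem ee_deriv {t r : ℝ} (hr0 : 0 < r) (hr1 : r < 1) (N x : ℝ) :
    HasDerivAt (ee t r N) (ee1 t r N x) x := by
  have hu := hasDeriv_one (uu_contDiff t) x
  have hh := hasDeriv_one (hb_contDiff hr0 hr1) x
  have h := hu.mul ((hh.const_mul (N : ℂ)).cexp)
  refine h.congr_deriv ?_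
  rw [ee1]
  ring

theorem ee1_deriv {t r : ℝ} (hr0 : 0 < r) (hr1 : r < 1) (N x : ℝ) :
    HasDerivAt (ee1 t r N) (ee2 t r N x) x := by
  have hu := hasDeriv_one (uu_contDiff t) x
  have hu2 := hasDeriv_two (uu_contDiff t) x
  have hh := hasDeriv_one (hb_contDiff hr0 hr1) x
  have hh2 := hasDeriv_two (hb_contDiff hr0 hr1) x
  have h := (hu2.add ((hu.const_mul (N : ℂ)).mul hh2)).mul ((hh.const_mul (N : ℂ)).cexp)
  refine h.congr_deriv ?_
  rw [ee2]
  simp only [Pi.add_apply, Pi.mul_apply]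
  ring

theorem ee2_cont {t r : ℝ} (hr0 : 0 < r) (hr1 : r < 1) (N : ℝ) : Continuous (ee2 t r N) := by
  have h1 := (uu_contDiff t).continuous
  have h2 := (contDiff_deriv (uu_contDiff t)).continuous
  have h3 := cont_two (uu_contDiff t)
  have h4 := (hb_contDiff hr0 hr1).continuous
  have h5 := (contDiff_deriv (hb_contDiff hr0 hr1)).continuous
  have h6 := cont_two (hb_contDiff hr0 hr1)
  unfold ee2
  fun_prop

theorem ee_periodic (t r N : ℝ) : Function.Periodic (ee t r N) (2 * Real.pi) := by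
  intro x
  rw [ee, ee, uu_periodic t x, hb_periodic r x]

theorem ee1_periodic (t r N : ℝ) : Function.Periodic (ee1 t r N) (2 * Real.pi) := by
  intro x
  rw [ee1, ee1, uu_periodic t x, hb_periodic r x, deriv_periodic (uu_periodic t) x,
    deriv_periodic (hb_periodic r) x]

/-- `e_N` and its second derivative are small. -/
theorem ee_small {t r : ℝ} (ht : 0 < t) (hr0 : 0 < r) (hr1 : r < 1)
    (hrt : (1 - r) * (1 + 3 * r) ≤ 2 * r * t) :
    ∃ M : ℝ, 1 ≤ M ∧ ∀ N : ℝ, 0 ≤ N → ∀ x ∈ Set.Icc (-Real.pi) Real.pi,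
      ‖ee t r N x‖ ≤ M ^ 3 * ((1 + 3 * N + N ^ 2) * Real.exp (-(N / 2))) ∧
      ‖ee2 t r N x‖ ≤ M ^ 3 * ((1 + 3 * N + N ^ 2) * Real.exp (-(N / 2))) := by
  have hK := isCompact_Icc (a := -Real.pi) (b := Real.pi)
  obtain ⟨M0, h0⟩ := hK.exists_bound_of_continuousOn (uu_contDiff t).continuous.continuousOn
  obtain ⟨M1, h1⟩ := hK.exists_bound_of_continuousOn
    (contDiff_deriv (uu_contDiff t)).continuous.continuousOn
  obtain ⟨M2, h2⟩ := hK.exists_bound_of_continuousOn (cont_two (uu_contDiff t)).continuousOn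
  obtain ⟨M3, h3⟩ := hK.exists_bound_of_continuousOn
    (contDiff_deriv (hb_contDiff hr0 hr1)).continuous.continuousOn
  obtain ⟨M4, h4⟩ := hK.exists_bound_of_continuousOn (cont_two (hb_contDiff hr0 hr1)).continuousOn
  set M : ℝ := 1 + |M0| + |M1| + |M2| + |M3| + |M4| with hM
  have a0 := abs_nonneg M0
  have a1 := abs_nonneg M1
  have a2 := abs_nonneg M2
  have a3 := abs_nonneg M3
  have a4 := abs_nonneg M4
  have hM1 : 1 ≤ M := by rw [hM]; linarith
  refine ⟨M, hM1, fun N hN x hx => ?_⟩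
  have b0 : ‖uu t x‖ ≤ M := (h0 x hx).trans (by have := le_abs_self M0; rw [hM]; linarith)
  have b1 : ‖deriv (uu t) x‖ ≤ M := (h1 x hx).trans (by have := le_abs_self M1; rw [hM]; linarith)
  have b2 : ‖deriv (deriv (uu t)) x‖ ≤ M :=
    (h2 x hx).trans (by have := le_abs_self M2; rw [hM]; linarith)
  have b3 : ‖deriv (hb r) x‖ ≤ M := (h3 x hx).trans (by have := le_abs_self M3; rw [hM]; linarith)
  have b4 : ‖deriv (deriv (hb r)) x‖ ≤ M :=
    (h4 x hx).trans (by have := le_abs_self M4; rw [hM]; linarith)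
  have hMM : M ≤ M ^ 3 := by
    calc M = M ^ 1 := (pow_one M).symm
      _ ≤ M ^ 3 := pow_le_pow_right₀ hM1 (by norm_num)
  have hMM2 : M * M ≤ M ^ 3 := by
    calc M * M = M ^ 2 := (sq M).symm
      _ ≤ M ^ 3 := pow_le_pow_right₀ hM1 (by norm_num)
  have hM3 : 0 ≤ M ^ 3 := by positivity
  have hE := Real.exp_pos (-(N / 2))
  rcases lt_or_ge (1 - Real.cos x) t with hlt | hge
  · obtain ⟨c0, c1, c2⟩ := uu_near ht hlt
    have hz : 0 ≤ M ^ 3 * ((1 + 3 * N + N ^ 2) * Real.exp (-(N / 2))) := by positivity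
    constructor
    · rw [ee, c0, zero_mul, norm_zero]
      exact hz
    · rw [ee2, c0, c1, c2]
      simp only [mul_zero, zero_mul, add_zero, norm_zero]
      exact hz
  · have hexp : ‖Complex.exp ((N : ℂ) * hb r x)‖ ≤ Real.exp (-(N / 2)) := by
      rw [Complex.norm_exp]
      refine Real.exp_le_exp.2 ?_
      rw [Complex.re_ofReal_mul]
      have := re_hh hr0 hr1 hge hrt
      have h5 : N * (hb r x).re ≤ N * (-(1 / 2)) := mul_le_mul_of_nonneg_left this hN
      linarith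
    constructor
    · rw [ee, norm_mul]
      calc ‖uu t x‖ * ‖Complex.exp ((N : ℂ) * hb r x)‖ ≤ M * Real.exp (-(N / 2)) := by gcongr
        _ ≤ M ^ 3 * ((1 + 3 * N + N ^ 2) * Real.exp (-(N / 2))) := by
          refine mul_le_mul hMM ?_ hE.le hM3
          refine le_mul_of_one_le_left hE.le ?_
          nlinarith [sq_nonneg N]
    · rw [ee2, norm_mul]
      have hsum : ‖deriv (deriv (uu t)) x + 2 * N * deriv (uu t) x * deriv (hb r) x +
          N * uu t x * deriv (deriv (hb r)) x + (N : ℂ) ^ 2 * uu t x * deriv (hb r) x ^ 2‖ ≤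
          M ^ 3 * (1 + 3 * N + N ^ 2) := by
        have hNn : ‖(N : ℂ)‖ = N := by rw [Complex.norm_real, Real.norm_of_nonneg hN]
        calc _ ≤ ‖deriv (deriv (uu t)) x‖ + ‖2 * (N : ℂ) * deriv (uu t) x * deriv (hb r) x‖ +
              ‖(N : ℂ) * uu t x * deriv (deriv (hb r)) x‖ +
              ‖(N : ℂ) ^ 2 * uu t x * deriv (hb r) x ^ 2‖ := by
              refine (norm_add_le _ _).trans ?_
              gcongr
              refine (norm_add_le _ _).trans ?_
              gcongr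
              exact norm_add_le _ _
          _ = ‖deriv (deriv (uu t)) x‖ + 2 * N * (‖deriv (uu t) x‖ * ‖deriv (hb r) x‖) +
              N * (‖uu t x‖ * ‖deriv (deriv (hb r)) x‖) +
              N ^ 2 * (‖uu t x‖ * ‖deriv (hb r) x‖ ^ 2) := by
              simp only [norm_mul, norm_pow, hNn, Complex.norm_ofNat]
              ring
          _ ≤ M + 2 * N * (M * M) + N * (M * M) + N ^ 2 * (M * M ^ 2) := by gcongr
          _ ≤ M ^ 3 + 2 * N * M ^ 3 + N * M ^ 3 + N ^ 2 * M ^ 3 := by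
              have : M * M ^ 2 = M ^ 3 := by ring
              rw [this]
              gcongr
          _ = M ^ 3 * (1 + 3 * N + N ^ 2) := by ring
      calc _ ≤ M ^ 3 * (1 + 3 * N + N ^ 2) * Real.exp (-(N / 2)) := by gcongr
        _ = M ^ 3 * ((1 + 3 * N + N ^ 2) * Real.exp (-(N / 2))) := by ring

theorem tendsto_small : Tendsto (fun y : ℝ => (1 + 3 * (2 * y) + (2 * y) ^ 2) * Real.exp (-y)) atTop
    (𝓝 0) := by
  have h0 := Real.tendsto_pow_mul_exp_neg_atTop_nhds_zero 0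
  have h1 := Real.tendsto_pow_mul_exp_neg_atTop_nhds_zero 1
  have h2 := Real.tendsto_pow_mul_exp_neg_atTop_nhds_zero 2
  have h := (h0.add (h1.const_mul 6)).add (h2.const_mul 4)
  simp only [mul_zero, add_zero] at h
  refine h.congr fun y => ?_
  ring

/-- The window. -/
theorem window {ρ δ : ℝ} (hρ : 0 < ρ) (hρ1 : ρ ≤ 1) (hδ : 0 < δ) :
    ∃ (w : ℝ → ℂ) (C : ℝ), Continuous w ∧
      (∀ x ∈ Set.Icc (-Real.pi) Real.pi, ρ ≤ |x| → w x = 0) ∧ ‖fc w 0 - 1‖ ≤ δ ∧
      (∀ k : ℤ, k < 0 → ‖fc w k‖ ≤ δ / (k : ℝ) ^ 2) ∧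
      (∀ k : ℤ, 0 < k → ‖fc w k‖ ≤ C / (k : ℝ) ^ 2) := by
  have hpi := Real.pi_gt_three
  set t : ℝ := (1 - Real.cos ρ) / 2 with ht
  have hcos : Real.cos ρ < 1 := by
    have := Real.cos_lt_cos_of_nonneg_of_le_pi le_rfl (by linarith : ρ ≤ Real.pi) hρ
    rwa [Real.cos_zero] at this
  have ht0 : 0 < t := by rw [ht]; linarith
  set r : ℝ := 2 / (2 + t) with hr
  have hr0 : 0 < r := by positivity
  have hr1 : r < 1 := by rw [hr, div_lt_one (by linarith)]; linarith
  have hrt : (1 - r) * (1 + 3 * r) ≤ 2 * r * t := by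
    have h1 : (1 - r) * (1 + 3 * r) = t * (8 + t) / (2 + t) ^ 2 := by
      rw [hr]; field_simp; ring
    have h2 : 2 * r * t = t * (8 + 4 * t) / (2 + t) ^ 2 := by
      rw [hr]; field_simp; ring
    rw [h1, h2]
    gcongr
    linarith
  obtain ⟨M, hM1, hM⟩ := ee_small ht0 hr0 hr1 hrt
  have hM3 : 0 < M ^ 3 := by positivity
  obtain ⟨y, hy1, hy2⟩ : ∃ y : ℝ, (1 + 3 * (2 * y) + (2 * y) ^ 2) * Real.exp (-y) < δ / M ^ 3 ∧
      0 ≤ y :=
    ((tendsto_small.eventually (gt_mem_nhds (div_pos hδ hM3))).and (eventually_ge_atTop 0)).exists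
  set N : ℝ := 2 * y with hN
  have hN0 : 0 ≤ N := by rw [hN]; linarith
  have hsm : M ^ 3 * ((1 + 3 * N + N ^ 2) * Real.exp (-(N / 2))) ≤ δ := by
    have h1 : N / 2 = y := by rw [hN]; ring
    rw [h1]
    have := (lt_div_iff₀' hM3).1 hy1
    exact this.le
  have hebd : ∀ x ∈ Set.Icc (-Real.pi) Real.pi, ‖ee t r N x‖ ≤ δ := fun x hx =>
    ((hM N hN0 x hx).1).trans hsm
  have he2bd : ∀ x ∈ Set.Icc (-Real.pi) Real.pi, ‖ee2 t r N x‖ ≤ δ := fun x hx =>
    ((hM N hN0 x hx).2).trans hsm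
  set G : ℂ → ℂ := fun z => Complex.exp ((N : ℂ) * hh r z) with hG
  set g : ℝ → ℂ := fun x => G (Complex.exp ((x : ℂ) * I)) with hg
  have hgc : ContDiff ℝ 2 g := by
    have h1 : g = fun x => Complex.exp ((N : ℂ) * hb r x) := rfl
    rw [h1]
    exact (contDiff_const.mul (hb_contDiff hr0 hr1)).cexp
  have hgp : Function.Periodic g (2 * Real.pi) := by
    intro x
    change Complex.exp ((N : ℂ) * hb r (x + 2 * Real.pi)) = Complex.exp ((N : ℂ) * hb r x)
    rw [hb_periodic r x]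
  have hec : ContDiff ℝ 2 (ee t r N) :=
    (uu_contDiff t).mul (contDiff_const.mul (hb_contDiff hr0 hr1)).cexp
  have hGd : DifferentiableOn ℂ G (Metric.ball 0 r⁻¹) := by
    have h1 : DifferentiableOn ℂ (hh r) (Metric.ball 0 r⁻¹) := by
      unfold hh
      refine DifferentiableOn.div (by fun_prop) (by fun_prop) fun z hz => ?_
      exact one_sub_ne hr0 (by simpa using hz)
    exact (h1.const_mul (N : ℂ)).cexp
  have hG0 : G 0 = 1 := by simp [hG, hh]
  have hR : 1 < r⁻¹ := (one_lt_inv₀ hr0).2 hr1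
  have hfg : ∀ k : ℕ, fc g (-(k : ℤ)) = (0 : ℂ) ^ k * 1 := fun k => by
    rw [← hG0]
    exact fc_analytic hR hGd k
  have hfe : ∀ k : ℤ, k ≠ 0 → ‖fc (ee t r N) k‖ ≤ δ / (k : ℝ) ^ 2 := fun k hk =>
    decay (ee_deriv hr0 hr1 N) (ee1_deriv hr0 hr1 N) (ee2_cont hr0 hr1 N)
      (periodic_bdry (ee_periodic t r N)) (periodic_bdry (ee1_periodic t r N)) he2bd hk
  have hwk : ∀ k : ℤ, fc (fun x => g x - ee t r N x) k = fc g k - fc (ee t r N) k := fun k =>
    fc_sub hgc.continuous hec.continuous k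
  obtain ⟨C, _, hC⟩ := decay_smooth (hgc.sub hec) (hgp.sub (ee_periodic t r N))
  refine ⟨fun x => g x - ee t r N x, C, hgc.continuous.sub hec.continuous, ?_, ?_, ?_, ?_⟩
  · intro x hx hρx
    have h1 : 2 * t ≤ 1 - Real.cos x := by
      have h2 : Real.cos |x| ≤ Real.cos ρ := by
        refine Real.cos_le_cos_of_nonneg_of_le_pi hρ.le ?_ hρx
        exact abs_le.2 hx
      rw [Real.cos_abs] at h2
      rw [ht]
      linarith
    have h3 : ee t r N x = g x := by
      rw [ee, uu_one ht0 h1, one_mul]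
      rfl
    simp only [h3, sub_self]
  · rw [hwk]
    have h1 := hfg 0
    simp only [Nat.cast_zero, neg_zero, pow_zero, mul_one] at h1
    rw [h1]
    have h2 := fc_bound hebd 0
    calc ‖1 - fc (ee t r N) 0 - 1‖ = ‖fc (ee t r N) 0‖ := by
          rw [show 1 - fc (ee t r N) 0 - 1 = -fc (ee t r N) 0 by ring, norm_neg]
      _ ≤ δ := h2
  · intro k hk
    rw [hwk]
    have h1 := hfg k.natAbs
    have h2 : -((k.natAbs : ℕ) : ℤ) = k := by omega
    rw [h2, zero_pow (by omega), zero_mul] at h1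
    rw [h1, zero_sub, norm_neg]
    exact hfe k (by omega)
  · intro k hk
    exact hC k (by omega)

end Pool.Agent.Helper13.SZ
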